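import Pool.Agent.U279.PG.Press

/-!
The density of the grand canonical hard sphere gas in high dimension is at most the mean field
density, for all boundary conditions.
-/

set_option autoImplicit false
set_option linter.unusedSectionVars false
open Filter Topology MeasureTheory

namespace Pool.Agent.U279.PG
open Pool.Agent.K4H61.HS
open Pool.Agent.U279.KT (cube cube_meas cube_vol cube_lt config_meas inner inner_vol)

variable {d : ℕ}

/-- `W` is the cube `[0,L]^d` without an arbitrary part of the boundary layer of width `r` -/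
def Region (d : ℕ) (r L : ℝ) (W : Set (Fin d → ℝ)) : Prop :=
  MeasurableSet W ∧ {x | ∀ k, x k ∈ Set.Icc r (L - r)} ⊆ W ∧ W ⊆ cube d L

theorem rho_le (r : ℝ) (z : NNReal) {W : Set (Fin d → ℝ)} (hWt : volume W ≠ ⊤) (x : Fin d → ℝ) :
    rho volume (cl d r) z W x ≤ z := by
  have hX := Xi_ne_top volume (cl d r) z hWt
  have hX1 := one_le_Xi volume (cl d r) z W
  have hX0 : Xi volume (cl d r) z W ≠ 0 := (lt_of_lt_of_le zero_lt_one hX1).ne'
  unfold rho
  rw [ENNReal.div_le_iff hX0 hX]
  exact mul_le_mul_right (Xi_mono volume (cl d r) z Set.sdiff_subset) _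

theorem W_lt {r L : ℝ} {W : Set (Fin d → ℝ)} (hW : Region d r L W) : volume W ≠ ⊤ :=
  (lt_of_le_of_lt (measure_mono hW.2.2) (cube_lt d L)).ne

theorem rho_int_ne_top (r : ℝ) (z : NNReal) {W : Set (Fin d → ℝ)} (hWt : volume W ≠ ⊤) :
    ∫⁻ x in W, rho volume (cl d r) z W x ≠ ⊤ := by
  have h1 : ∫⁻ x in W, rho volume (cl d r) z W x ≤ z * volume W := by
    rw [← setLIntegral_const]
    exact lintegral_mono fun x => rho_le r z hWt x
  exact ne_top_of_le_ne_top (ENNReal.mul_ne_top ENNReal.coe_ne_top hWt) h1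

/-- lower bound of the partition function by one term -/
theorem Xi_ge_term {r L : ℝ} (hr : 0 < r) (z : NNReal) {W : Set (Fin d → ℝ)}
    (hW : Region d r L W) (N : ℕ) (hZ : 0 < ZZ d r (L - 2 * r) N) (hz : 0 < (z : ℝ)) :
    ENNReal.ofReal (Real.exp (N * Real.log z + Real.log (ZZ d r (L - 2 * r) N))) ≤
      Xi volume (cl d r) z W := by
  have h1 := ENNReal.le_tsum (f := fun n : ℕ => ((z : ENNReal) ^ n / (n.factorial : ENNReal)) *
    Zn volume (cl d r) (Fin n) W) N
  refine le_trans ?_ h1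
  have h2 : volume (config d r (L - 2 * r) N) ≤ Zn volume (cl d r) (Fin N) W := by
    refine (inner_vol hr).trans (measure_mono ?_)
    rintro x ⟨hx1, hx2⟩
    refine ⟨fun i j hij => ?_, fun i => hW.2.1 (hx2 i)⟩
    unfold cl
    rw [not_lt]
    exact hx1.2 i j hij
  have hlt := config_lt_top (d := d) r (L - 2 * r) N
  have h3 : Real.exp (N * Real.log z + Real.log (ZZ d r (L - 2 * r) N)) =
      (z : ℝ) ^ N / N.factorial * (volume (config d r (L - 2 * r) N)).toReal := by
    rw [Real.exp_add, Real.exp_log hZ, mul_comm (N : ℝ), Real.exp_mul, Real.exp_log hz,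
      Real.rpow_natCast]
    unfold ZZ
    ring
  rw [h3, ENNReal.ofReal_mul (by positivity), ENNReal.ofReal_toReal hlt.ne,
        ENNReal.ofReal_div_of_pos (by positivity), ENNReal.ofReal_pow (NNReal.coe_nonneg z),
        ENNReal.ofReal_coe_nnreal, ENNReal.ofReal_natCast]
  exact mul_le_mul_right h2 _

theorem dens_bound (ε : ℝ) (hε : 0 < ε) : ∀ᶠ d : ℕ in atTop, ∀ r : ℝ, 0 < r → ∀ ρ : ℝ, 0 < ρ →
    ρ * bv d r ≤ (eta - ε) * d → ∀ z : NNReal, (z : ℝ) = ρ * Real.exp (ρ * bv d r) →
    ∀ᶠ L : ℝ in atTop, ∀ W, Region d r L W →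
      ∫⁻ x in W, rho volume (cl d r) z W x ≤
        ENNReal.ofReal (ρ * (1 + 2 * Real.exp (-(ε / 12 * (d : ℝ)))) * L ^ d) := by
  have heta := eta_le
  have heta0 := eta_pos
  by_cases hε1 : eta < ε
  · filter_upwards [eventually_ge_atTop 1] with d hd
    intro r hr ρ hρ hlam
    exfalso
    have h1 : 0 < ρ * bv d r := mul_pos hρ (bv_pos d hr)
    have h2 : (eta - ε) * d ≤ 0 :=
      mul_nonpos_of_nonpos_of_nonneg (by linarith) (Nat.cast_nonneg d)
    linarith
  push Not at hε1
  filter_upwards [eventually_ge_atTop 20, free_energy ε hε,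
    exp_small 1 1 (ε / 5) 1 (by linarith),
    exp_small (5 * Real.exp 3) ε (ε / 5) 0 (by linarith),
    exp_small 1024 (ε / 5) (ε / 6) 0 (by linarith),
    exp_small 64 (ε / 5) 0 0 (by linarith),
    exp_small 8 (ε / 12) 0 0 (by linarith)] with d hd hFE E6 E7 E8 E9 E10
  intro r hr ρ hρ hlam z hz
  rw [Filter.eventually_iff_seq_eventually]
  intro L hL
  have hd1 : 1 ≤ d := by omega
  have hdr : (20 : ℝ) ≤ d := by exact_mod_cast hd
  have hd0 : (0 : ℝ) < d := by linarith
  set τ := Real.exp (-(ε / 5 * (d : ℝ))) with hτ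
  set u := Real.exp (-(1 * (d : ℝ))) with hu
  set v := Real.exp (-(7 / 48 * (d : ℝ))) with hv
  set e := Real.exp (-(ε / 6 * (d : ℝ))) with he
  set ζ := Real.exp (-(ε * (d : ℝ))) with hζ
  set t := Real.exp (-(ε / 12 * (d : ℝ))) with ht
  have hτ0 : 0 < τ := Real.exp_pos _
  have hu0 : 0 < u := Real.exp_pos _
  have hv0 : 0 < v := Real.exp_pos _
  have hζ0 : 0 < ζ := Real.exp_pos _
  have he0 : 0 < e := Real.exp_pos _
  have ht0 : 0 < t := Real.exp_pos _
  have het : e = t ^ 2 := by
    rw [he, ht, ← Real.exp_nat_mul]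
    congr 1
    push_cast
    ring
  simp only [pow_one, pow_zero, mul_one, one_mul] at E6 E7 E8 E9 E10
  have hτ64 : τ ≤ 1 / 64 := by
    rw [zero_mul, neg_zero, Real.exp_zero] at E9
    linarith
  have ht8 : t ≤ 1 / 8 := by
    rw [zero_mul, neg_zero, Real.exp_zero] at E10
    linarith
  have huv : u ≤ v := by
    rw [hu, hv]
    refine Real.exp_le_exp.2 ?_
    linarith
  have hudτ : d * u ≤ τ := E6
  have huτ : u ≤ τ := by
    have h1 : 1 * u ≤ d * u := mul_le_mul_of_nonneg_right (by linarith) hu0.le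
    linarith
  have heps := eps_le d
  rw [← hv] at heps
  have heps0 := eps_pos d
  set B := bv d r with hB
  have hB0 : 0 < B := bv_pos d hr
  have hb1 := bv_pos d one_pos
  set lam := ρ * B with hlam'
  have hlam0 : 0 < lam := by positivity
  set K : ℝ := (eta - ε) * d with hK
  have hKd : K ≤ d / 6 := by
    rw [hK]
    have : eta - ε ≤ 1 / 6 := by linarith
    have := mul_le_mul_of_nonneg_right this hd0.le
    linarith
  have hvK : Real.exp K * v ≤ ζ := by
    rw [hv, hζ, ← Real.exp_add]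
    refine Real.exp_le_exp.2 ?_
    rw [hK]
    have := mul_le_mul_of_nonneg_right heta hd0.le
    linarith
  set ω := u / d with hω
  have hω0 : 0 < ω := by positivity
  have hωd : d * ω = u := by rw [hω]; field_simp
  have hωu : ω ≤ u := by
    rw [hω]
    exact div_le_self hu0.le (by linarith)
  have hω1 : ω ≤ 1 := by linarith
  set h := r * ω / √d with hh'
  have hsd : 0 < √(d : ℝ) := Real.sqrt_pos.2 hd0
  have hh : 0 < h := by positivity
  have hdh : √d * h = r * ω := by rw [hh']; field_simp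
  have hscale : ∀ c : ℝ, 0 < c → bv d (r * c) = c ^ d * B := by
    intro c hc
    rw [hB, bv_scale d (by positivity : 0 < r * c), bv_scale d hr]
    ring
  set p' := (1 - 2 * ω) ^ d with hp'
  have hB2 : bv d (r - 2 * (√d * h)) = p' * B := by
    rw [hdh, hp', ← hscale _ (by linarith)]; congr 1; ring
  have hp'1 : 1 - 2 * u ≤ p' := by
    have h1 := one_add_mul_le_pow (a := -(2 * ω)) (by linarith) d
    have h2 : 1 + (d : ℝ) * -(2 * ω) = 1 - 2 * u := by rw [← hωd]; ring
    rw [h2] at h1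
    rw [hp']
    refine h1.trans (le_of_eq ?_)
    congr 1
  have hp'2 : p' ≤ 1 := pow_le_one₀ (by linarith) (by linarith)
  have hp'0 : 0 < p' := by linarith
  have hhB : h ^ d ≤ u * B := by
    have h1 : h ^ d = ω ^ d * (1 / √d) ^ d * r ^ d := by
      rw [hh', ← mul_pow, ← mul_pow]; congr 1; ring
    have h2 : ω ^ d ≤ u := (pow_le_of_le_one hω0.le hω1 (by omega)).trans hωu
    have h3 := bv_one_ge d hd1
    have h4 : u * B = u * bv d 1 * r ^ d := by rw [hB, bv_scale d hr]; ring
    rw [h1, h4]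
    gcongr
  have hlamd : lam ≤ K := hlam
  set y := ρ * bv d (r - 2 * (√d * h)) with hy
  have hyp : y = lam * p' := by rw [hy, hB2, hlam']; ring
  have hyl : lam - τ ≤ y := by
    rw [hyp]
    have h1 : lam * (1 - 2 * u) ≤ lam * p' := mul_le_mul_of_nonneg_left hp'1 hlam0.le
    have h2 : lam * (2 * u) ≤ d / 6 * (2 * u) :=
      mul_le_mul_of_nonneg_right (hlamd.trans hKd) (by positivity)
    have h3 : 0 ≤ d * u := by positivity
    have h4 : lam * (1 - 2 * u) = lam - lam * (2 * u) := by ring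
    linarith
  have hyu : y ≤ K := by
    rw [hyp]
    have := mul_le_mul_of_nonneg_left hp'2 hlam0.le
    linarith
  have hz0 : 0 < (z : ℝ) := by rw [hz]; positivity
  -- the shifted activity
  obtain ⟨z', hz'⟩ : ∃ z' : NNReal, (z' : ℝ) = z * Real.exp t := ⟨⟨z * Real.exp t, by positivity⟩, rfl⟩
  -- the upper bound
  set C := ρ * lam / 2 + ρ * Real.exp t * (1 + e / 8) with hC
  have hup : ∀ᶠ k in atTop, Xi volume (cl d r) z' (cube d (L k)) ≤
      ENNReal.ofReal (Real.exp (C * L k ^ d)) := by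
    refine asym_press hd1 r h ρ C hh hρ (by
      rw [hdh]
      have := mul_le_mul_of_nonneg_left (by linarith : ω ≤ 1 / 64) hr.le
      linarith) z' hL ?_
    rw [← hy]
    have h1 : h ^ d / bv d (r - 2 * (√d * h)) ≤ 2 * u := by
      rw [hB2, div_le_iff₀ (by positivity)]
      have h2 : u * B ≤ 2 * u * (p' * B) := by
        have h3 : 1 ≤ 2 * p' := by linarith
        have h4 : 0 < u * B := by positivity
        have := mul_le_mul_of_nonneg_left h3 h4.le
        linarith
      linarith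
    have h2 : h ^ d / bv d (r - 2 * (√d * h)) + eps d ≤ 5 * v := by linarith
    have h3 : Real.exp y ≤ Real.exp K := Real.exp_le_exp.2 hyu
    have h4 : (h ^ d / bv d (r - 2 * (√d * h)) + eps d) * Real.exp y ≤ 5 * v * Real.exp K :=
      mul_le_mul h2 h3 (Real.exp_pos _).le (by positivity)
    have h5 : 5 * v * Real.exp K ≤ 5 * ζ := by
      have : 5 * v * Real.exp K = 5 * (Real.exp K * v) := by ring
      rw [this]
      gcongr
    have h6 : 5 * ζ ≤ τ := by
      have g1 : (1 : ℝ) ≤ Real.exp 3 := Real.one_le_exp (by norm_num)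
      have g2 : 5 * ζ ≤ 5 * Real.exp 3 * ζ := by
        have := mul_le_mul_of_nonneg_right g1 hζ0.le
        linarith
      exact g2.trans E7
    have h7 : z' * Real.exp (-y) ≤ ρ * Real.exp t * (1 + 2 * τ) := by
      rw [hz', hz]
      have g1 : ρ * Real.exp lam * Real.exp t * Real.exp (-y) =
          ρ * Real.exp t * Real.exp (lam - y) := by
        rw [sub_eq_add_neg, Real.exp_add]; ring
      rw [g1]
      have g2 : Real.exp (lam - y) ≤ 1 + 2 * τ := by
        refine (Real.exp_le_exp.2 (by linarith : lam - y ≤ τ)).trans ?_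
        exact exp_le_two hτ0.le (by linarith)
      gcongr
    have h8 : (z' : ℝ) * (1 + (h ^ d / bv d (r - 2 * (√d * h)) + eps d) * Real.exp y) *
        Real.exp (-y) ≤ ρ * Real.exp t * (1 + 2 * τ) * (1 + τ) := by
      have g1 : (z' : ℝ) * (1 + (h ^ d / bv d (r - 2 * (√d * h)) + eps d) * Real.exp y) *
        Real.exp (-y) = (z' * Real.exp (-y)) *
          (1 + (h ^ d / bv d (r - 2 * (√d * h)) + eps d) * Real.exp y) := by ring
      rw [g1]
      have g2 : 0 ≤ h ^ d / bv d (r - 2 * (√d * h)) := by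
        rw [hB2]; positivity
      refine mul_le_mul h7 (by linarith) (by positivity) (by positivity)
    have h9 : ρ ^ 2 * bv d (r - 2 * (√d * h)) / 2 ≤ ρ * lam / 2 := by
      have : ρ ^ 2 * bv d (r - 2 * (√d * h)) = ρ * y := by rw [hy]; ring
      rw [this]
      have : y ≤ lam := by
        rw [hyp]
        have := mul_le_mul_of_nonneg_left hp'2 hlam0.le
        linarith
      have := mul_le_mul_of_nonneg_left this hρ.le
      linarith
    have h10 : (1 + 2 * τ) * (1 + τ) < 1 + e / 8 := by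
      have g1 : τ * τ ≤ τ * (1 / 64) := mul_le_mul_of_nonneg_left hτ64 hτ0.le
      have g2 : 1024 * τ ≤ e := E8
      nlinarith
    have h11 : ρ * Real.exp t * (1 + 2 * τ) * (1 + τ) < ρ * Real.exp t * (1 + e / 8) := by
      rw [mul_assoc]
      exact mul_lt_mul_of_pos_left h10 (by positivity)
    rw [hC]
    linarith
  -- the lower bound
  set N : ℕ → ℕ := fun k => ⌊ρ * L k ^ d⌋₊ with hNdef
  have hLd : Tendsto (fun k => L k ^ d) atTop atTop := (tendsto_pow_atTop (by omega)).comp hL
  have hN : Tendsto (fun k => (N k : ℝ) / L k ^ d) atTop (𝓝 ρ) := by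
    have h1 : Tendsto (fun x : ℝ => (⌊ρ * x⌋₊ : ℝ) / x) atTop (𝓝 ρ) :=
      tendsto_nat_floor_mul_div_atTop hρ.le
    exact h1.comp hLd
  have hL' : Tendsto (fun k => L k - 2 * r) atTop atTop :=
    tendsto_atTop_add_const_right _ (-(2 * r)) hL
  have hN' : Tendsto (fun k => (N k : ℝ) / (L k - 2 * r) ^ d) atTop (𝓝 ρ) := by
    have h1 : Tendsto (fun k => (L k - 2 * r) / L k) atTop (𝓝 1) := by
      have h2 : Tendsto (fun k => 2 * r / L k) atTop (𝓝 0) := hL.const_div_atTop _
      have h3 := h2.const_sub 1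
      rw [sub_zero] at h3
      refine h3.congr' ?_
      filter_upwards [hL.eventually_gt_atTop 0] with k hk
      field_simp
    have h2 := hN.div (h1.pow d) (by norm_num)
    rw [one_pow, div_one] at h2
    refine h2.congr' ?_
    filter_upwards [hL.eventually_gt_atTop 0, hL'.eventually_gt_atTop 0] with k hk hk2
    simp only [Pi.div_apply]
    rw [div_pow]
    field_simp
  have hfe := hFE r hr ρ hρ hlam (fun k => L k - 2 * r) N hL' hN'
  have hNinf : Tendsto (fun k => (N k : ℝ)) atTop atTop := lim_N hd1 hρ hL hN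
  filter_upwards [hup, hfe, hL.eventually_gt_atTop 0, hNinf.eventually_ge_atTop 1,
    hLd.eventually_ge_atTop ((1 + lam / 2) / (ρ * (t ^ 2 / 2)))] with k k1 k2 k3 k4 k5 W hW
  obtain ⟨k2, k2'⟩ := k2
  have hNk : (0 : ℝ) < N k := by linarith
  have hWt := W_lt hW
  have hLk : 0 < L k ^ d := by positivity
  set I := ∫⁻ x in W, rho volume (cl d r) z W x with hI
  have hIt : I ≠ ⊤ := rho_int_ne_top r z hWt
  have hJ := jensen_num (μ := volume) (cl_meas r) (cl_symm r) z z' ht0.le hz' hW.1 hWt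
  have hT := Xi_ge_term hr z hW (N k) k2 hz0
  have hmono := Xi_mono volume (cl d r) z' hW.2.2
  have hchain : ENNReal.ofReal (Real.exp (t * I.toReal)) *
      ENNReal.ofReal (Real.exp (N k * Real.log z + Real.log (ZZ d r (L k - 2 * r) (N k)))) ≤
      ENNReal.ofReal (Real.exp (C * L k ^ d)) :=
    (mul_le_mul_right hT _).trans (hJ.trans (hmono.trans k1))
  rw [← ENNReal.ofReal_mul (Real.exp_pos _).le, ← Real.exp_add,
    ENNReal.ofReal_le_ofReal_iff (Real.exp_pos _).le, Real.exp_le_exp] at hchain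
  have hlogz : Real.log z = Real.log ρ + lam := by
    rw [hz, Real.log_mul (by positivity) (by positivity), Real.log_exp]
  have h3 := (abs_le.1 k2').2
  have h5 : -(1 / (N k : ℝ)) * Real.log (ZZ d r (L k - 2 * r) (N k)) ≤
      Real.log ρ - 1 + lam / 2 + e / 64 := by linarith
  have h6 := mul_le_mul_of_nonneg_right h5 hNk.le
  have h7 : -(1 / (N k : ℝ)) * Real.log (ZZ d r (L k - 2 * r) (N k)) * N k =
      -Real.log (ZZ d r (L k - 2 * r) (N k)) := by field_simp
  rw [h7] at h6
  rw [hlogz] at hchain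
  have h8 : t * I.toReal + N k * (1 + lam / 2 - e / 64) ≤ C * L k ^ d := by linarith
  have h9 : ρ * L k ^ d - 1 ≤ N k := by
    have := Nat.lt_floor_add_one (ρ * L k ^ d)
    simp only [hNdef]
    linarith
  have he1 : e ≤ 1 / 64 := by
    rw [het]
    nlinarith
  have h10 : (ρ * L k ^ d - 1) * (1 + lam / 2 - e / 64) ≤ N k * (1 + lam / 2 - e / 64) :=
    mul_le_mul_of_nonneg_right h9 (by linarith)
  have hexp : Real.exp t ≤ 1 + t + t ^ 2 := by
    have := Real.abs_exp_sub_one_sub_id_le (x := t) (by rw [abs_of_pos ht0]; linarith)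
    have := (abs_le.1 this).2
    linarith
  have h11 : Real.exp t * (1 + e / 8) - 1 + e / 64 ≤ t + 3 / 2 * t ^ 2 := by
    have g1 : Real.exp t * (1 + e / 8) ≤ (1 + t + t ^ 2) * (1 + e / 8) :=
      mul_le_mul_of_nonneg_right hexp (by linarith)
    rw [het] at g1 ⊢
    have g2 : t ^ 2 * t ≤ t ^ 2 * (1 / 8) := mul_le_mul_of_nonneg_left ht8 (by positivity)
    have g3 : t ^ 2 * t ^ 2 ≤ t ^ 2 * (1 / 64) :=
      mul_le_mul_of_nonneg_left (by nlinarith) (by positivity)
    nlinarith
  have h12 : t * I.toReal ≤ ρ * L k ^ d * (t + 3 / 2 * t ^ 2) + (1 + lam / 2) := by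
    have g1 := mul_le_mul_of_nonneg_left h11 (by positivity : 0 ≤ ρ * L k ^ d)
    rw [hC] at h8
    have g2 : (ρ * lam / 2 + ρ * Real.exp t * (1 + e / 8)) * L k ^ d -
        (ρ * L k ^ d - 1) * (1 + lam / 2 - e / 64) =
        ρ * L k ^ d * (Real.exp t * (1 + e / 8) - 1 + e / 64) + (1 + lam / 2 - e / 64) := by ring
    linarith
  have h13 : 1 + lam / 2 ≤ ρ * L k ^ d * (t ^ 2 / 2) := by
    rw [div_le_iff₀ (by positivity)] at k5
    linarith
  have h14 : t * I.toReal ≤ t * (ρ * (1 + 2 * t) * L k ^ d) := by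
    have : ρ * L k ^ d * (t + 3 / 2 * t ^ 2) + ρ * L k ^ d * (t ^ 2 / 2) =
        t * (ρ * (1 + 2 * t) * L k ^ d) := by ring
    linarith
  have h15 := le_of_mul_le_mul_left h14 ht0
  rw [← ENNReal.ofReal_toReal hIt]
  exact ENNReal.ofReal_le_ofReal h15

end Pool.Agent.U279.PG
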