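import Pool.Agent.U279.PG.Par

/-!
The local law with random boundary conditions, for infinite volume Gibbs measures.
-/

set_option autoImplicit false
set_option linter.unusedSectionVars false
open Filter Topology MeasureTheory ENNReal

namespace Pool.Agent.U279.PG
open Pool.Agent.K4H61.HS
open Pool.Agent.U279.KT (cube cube_meas cube_vol cube_lt)

variable {d : ℕ}

theorem dlr_bad {Ω : Type} [MeasurableSpace Ω] (P : Measure Ω) [IsProbabilityMeasure P] {M : ℕ}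
    (r ρ L θ : ℝ) (hr : 0 < r) (hρ : 0 < ρ) (hL : 0 < L) (hθ : 0 < θ)
    (z : NNReal) (hz : (z : ℝ) = ρ * Real.exp (ρ * bv d r))
    {V : Set (Ω × (Fin d → ℝ))} (hV : MeasurableSet V)
    (hreg : ∀ ω, Region d r L {x | (ω, x) ∈ V}) (R₀ : ℝ) (hR : 0 ≤ R₀)
    {D : Set (Fin d → ℝ)} (hD : MeasurableSet D)
    (hDR : ∀ x ∈ D, ∀ k, |x k| ≤ R₀) (c : Fin M → Fin d → ℝ)
    (hc : D ⊆ {y | ∃ j, cl d r (c j) y}) (σ lam : ℝ) (hσ : σ = z * bv d (√(3 / 4) * r))
    (hlam : lam = ρ * bv d r) (h1 : 20 * σ * (1 + lam) ^ 3 * M ^ 2 ≤ θ) (E : ℝ) (hE0 : 0 ≤ E)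
    (hE : ∀ ω, ∫⁻ x in {x | (ω, x) ∈ V}, exc d r ρ z {x | (ω, x) ∈ V} x ≤ ENNReal.ofReal E)
    (h2 : 8 * (M * bv d r) * (1 + lam) * E ≤ θ ^ 2 * L ^ d)
    (h3 : (1 - θ / 2) * L ^ d ≤ (L - 2 * (r + R₀)) ^ d) (h4 : 2 * (r + R₀) ≤ L) :
    ∃ Bad : Set (Fin d → ℝ), MeasurableSet Bad ∧
      volume Bad ≤ ENNReal.ofReal (θ * L ^ d) ∧
      ∀ y ∈ cube d L, y ∉ Bad → (∀ x, x - y ∈ D → ∀ k, x k ∈ Set.Icc 0 L) ∧
        ∀ A : Set (Set (Fin d → ℝ)),
        (∀ n : ℕ, MeasurableSet {a : Fin n → Fin d → ℝ | Set.range a ∈ A}) →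
        |(∫⁻ ω, pE d r z {x | (ω, x) ∈ V} {x | x - y ∈ D} {S | {u | u + y ∈ S} ∈ A} ∂P).toReal -
          (pP d ρ D A).toReal| ≤ θ := by
  have hB0 : 0 ≤ bv d r := ENNReal.toReal_nonneg
  have hlam0 : 0 ≤ lam := by rw [hlam]; positivity
  have hbv0 : 0 ≤ bv d (√(3 / 4) * r) := ENNReal.toReal_nonneg
  have hσ0 : 0 ≤ σ := by rw [hσ]; positivity
  have hLd : 0 < L ^ d := by positivity
  have hj := Phi_joint (Ω := Ω) r ρ z hV hD
  set Ψ : (Fin d → ℝ) → ℝ≥0∞ := fun y => ∫⁻ ω, Phi d r ρ z {x | (ω, x) ∈ V} D y ∂P with hΨ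
  have hΨm : Measurable Ψ := hj.lintegral_prod_left'
  have hΨint : ∫⁻ y, Ψ y ≤ ENNReal.ofReal (M * bv d r * (1 + lam) * E) := by
    rw [hΨ]
    rw [lintegral_lintegral_swap (f := fun (y : Fin d → ℝ) (ω : Ω) => Phi d r ρ z {x | (ω, x) ∈ V} D y)
      (hj.comp measurable_swap).aemeasurable]
    calc ∫⁻ ω, (∫⁻ (y : Fin d → ℝ), Phi d r ρ z {x | (ω, x) ∈ V} D y) ∂P
        ≤ ∫⁻ _, ENNReal.ofReal (M * bv d r * (1 + lam) * E) ∂P :=
          lintegral_mono fun ω => Phi_int r ρ L hρ z (hreg ω) hD c hc lam hlam E hE0 (hE ω)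
      _ = _ := by rw [lintegral_const, measure_univ, mul_one]
  set T : Set (Fin d → ℝ) := {y | ENNReal.ofReal (θ / 4) ≤ Ψ y} with hT
  have hTm : MeasurableSet T := measurableSet_le measurable_const hΨm
  have hTv : volume T ≤ ENNReal.ofReal (θ / 2 * L ^ d) := by
    have hθ4 : ENNReal.ofReal (θ / 4) ≠ 0 := by
      rw [Ne, ENNReal.ofReal_eq_zero, not_le]
      positivity
    refine (meas_ge_le_lintegral_div hΨm.aemeasurable hθ4 ENNReal.ofReal_ne_top).trans ?_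
    rw [ENNReal.div_le_iff hθ4 ENNReal.ofReal_ne_top, ← ENNReal.ofReal_mul (by positivity)]
    refine hΨint.trans (ENNReal.ofReal_le_ofReal ?_)
    nlinarith
  set Y₀ : Set (Fin d → ℝ) := {y | ∀ k, y k ∈ Set.Icc (r + R₀) (L - (r + R₀))} with hY₀
  have hY₀m : MeasurableSet Y₀ := box_meas d (r + R₀) L
  have hY₀v : volume Y₀ = ENNReal.ofReal ((L - 2 * (r + R₀)) ^ d) := box_vol d h4
  have hY₀c : Y₀ ⊆ cube d L := by
    intro y hy k
    have := hy k
    exact ⟨by linarith [this.1], by linarith [this.2]⟩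
  have hcm : MeasurableSet (cube d L) := cube_meas d L
  refine ⟨T ∪ (cube d L \ Y₀), hTm.union (hcm.diff hY₀m), ?_, ?_⟩
  · refine (measure_union_le _ _).trans ?_
    have h5 : volume (cube d L \ Y₀) ≤ ENNReal.ofReal (θ / 2 * L ^ d) := by
      rw [measure_sdiff hY₀c hY₀m.nullMeasurableSet
        (by rw [hY₀v]; exact ENNReal.ofReal_ne_top), cube_vol d hL.le, hY₀v,
        ← ENNReal.ofReal_sub _ (by
          refine pow_nonneg ?_ d
          linarith)]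
      refine ENNReal.ofReal_le_ofReal ?_
      linarith
    refine (add_le_add hTv h5).trans (le_of_eq ?_)
    rw [← ENNReal.ofReal_add (by positivity) (by positivity)]
    congr 1
    ring
  · intro y hy hyB
    rw [Set.mem_union, not_or] at hyB
    have hyT : Ψ y < ENNReal.ofReal (θ / 4) := not_le.1 hyB.1
    have hyY : y ∈ Y₀ := by
      by_contra hcon
      exact hyB.2 ⟨hy, hcon⟩
    refine ⟨fun x hx k => ?_, fun A hA => ?_⟩
    · have e1 := abs_le.1 (hDR _ hx k)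
      have e2 := hyY k
      rw [Pi.sub_apply] at e1
      exact ⟨by linarith [e1.1, e2.1], by linarith [e1.2, e2.2]⟩
    have hDt : volume D ≠ ⊤ := ne_top_of_le_ne_top ENNReal.ofReal_ne_top (vol_cover r c hc)
    have hpt := fun ω => tv_phi r ρ L hr hρ z hz (hreg ω) R₀ hD hDR c hc σ lam hσ hlam y hyY hA
    set c1 := ENNReal.ofReal (10 * σ * (1 + lam) ^ 3 * M ^ 2) with hc1
    set p := ∫⁻ ω, pE d r z {x | (ω, x) ∈ V} {x | x - y ∈ D} {S | {u | u + y ∈ S} ∈ A} ∂P with hp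
    have hΦω : Measurable fun ω => Phi d r ρ z {x | (ω, x) ∈ V} D y :=
      hj.comp (measurable_id.prodMk measurable_const)
    have herrm : Measurable fun ω => c1 + 2 * Phi d r ρ z {x | (ω, x) ∈ V} D y :=
      measurable_const.add (hΦω.const_mul _)
    have herr : ∫⁻ ω, (c1 + 2 * Phi d r ρ z {x | (ω, x) ∈ V} D y) ∂P = c1 + 2 * Ψ y := by
      rw [lintegral_add_left measurable_const, lintegral_const, measure_univ, mul_one,
        lintegral_const_mul _ hΦω]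
    have herr2 : c1 + 2 * Ψ y ≤ ENNReal.ofReal θ := by
      calc c1 + 2 * Ψ y ≤ ENNReal.ofReal (θ / 2) + 2 * ENNReal.ofReal (θ / 4) := by
            refine add_le_add (ENNReal.ofReal_le_ofReal (by linarith)) ?_
            exact mul_le_mul_right hyT.le _
        _ = ENNReal.ofReal θ := by
            have e7 : (2 : ℝ≥0∞) = ENNReal.ofReal 2 := by norm_num
            rw [e7, ← ENNReal.ofReal_mul (by norm_num), ← ENNReal.ofReal_add (by positivity)
              (by positivity)]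
            congr 1
            ring
    have g1 : pP d ρ D A ≤ p + ENNReal.ofReal θ := by
      calc pP d ρ D A = ∫⁻ _, pP d ρ D A ∂P := by rw [lintegral_const, measure_univ, mul_one]
        _ ≤ ∫⁻ ω, (pE d r z {x | (ω, x) ∈ V} {x | x - y ∈ D} {S | {u | u + y ∈ S} ∈ A} +
            (c1 + 2 * Phi d r ρ z {x | (ω, x) ∈ V} D y)) ∂P := lintegral_mono fun ω => (hpt ω).1
        _ = p + (c1 + 2 * Ψ y) := by rw [lintegral_add_right _ herrm, herr]
        _ ≤ _ := add_le_add le_rfl herr2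
    have g2 : p ≤ pP d ρ D A + ENNReal.ofReal θ := by
      calc p ≤ ∫⁻ ω, (pP d ρ D A + (c1 + 2 * Phi d r ρ z {x | (ω, x) ∈ V} D y)) ∂P :=
            lintegral_mono fun ω => (hpt ω).2
        _ = pP d ρ D A + (c1 + 2 * Ψ y) := by
            rw [lintegral_add_left measurable_const, herr, lintegral_const, measure_univ, mul_one]
        _ ≤ _ := add_le_add le_rfl herr2
    have f3 : pP d ρ D A ≠ ⊤ := by
      refine ne_top_of_le_ne_top ENNReal.one_ne_top ?_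
      rw [← pP_add hρ.le hDt hA]
      exact le_self_add
    have f1 : p ≠ ⊤ := ne_top_of_le_ne_top (ENNReal.add_ne_top.2 ⟨f3, ENNReal.ofReal_ne_top⟩) g2
    have k1 := ENNReal.toReal_mono (ENNReal.add_ne_top.2 ⟨f1, ENNReal.ofReal_ne_top⟩) g1
    have k2 := ENNReal.toReal_mono (ENNReal.add_ne_top.2 ⟨f3, ENNReal.ofReal_ne_top⟩) g2
    rw [ENNReal.toReal_add f1 ENNReal.ofReal_ne_top, ENNReal.toReal_ofReal hθ.le] at k1
    rw [ENNReal.toReal_add f3 ENNReal.ofReal_ne_top, ENNReal.toReal_ofReal hθ.le] at k2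
    rw [abs_le]
    constructor <;> linarith

/-- **The local law with random boundary conditions.** -/
theorem dlr_law (ε : ℝ) (hε : 0 < ε) : ∀ᶠ d : ℕ in atTop, ∀ r : ℝ, 0 < r → ∀ ρ : ℝ, 0 < ρ →
    ρ * bv d r ≤ (eta - ε) * d → ∀ z : NNReal, (z : ℝ) = ρ * Real.exp (ρ * bv d r) →
    ∀ R₀ : ℝ, ∀ᶠ L : ℝ in atTop, ∀ (Ω : Type) [MeasurableSpace Ω] (P : Measure Ω)
    [IsProbabilityMeasure P] (V : Set (Ω × (Fin d → ℝ))), MeasurableSet V →
    (∀ ω, Region d r L {x | (ω, x) ∈ V}) → ∀ D : Set (Fin d → ℝ),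
    MeasurableSet D → (∀ x ∈ D, ∀ k, |x k| ≤ R₀) → ∀ M : ℕ,
    (M : ℝ) ≤ Real.exp (ε / 100 * d) → ∀ c : Fin M → Fin d → ℝ,
    D ⊆ {y | ∃ j, cl d r (c j) y} → ∃ Bad : Set (Fin d → ℝ), MeasurableSet Bad ∧
      volume Bad ≤ ENNReal.ofReal (Real.exp (-(ε / 100 * d)) * L ^ d) ∧
      ∀ y ∈ cube d L, y ∉ Bad → (∀ x, x - y ∈ D → ∀ k, x k ∈ Set.Icc 0 L) ∧
        ∀ A : Set (Set (Fin d → ℝ)),
        (∀ n : ℕ, MeasurableSet {a : Fin n → Fin d → ℝ | Set.range a ∈ A}) →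
        |(∫⁻ ω, pE d r z {x | (ω, x) ∈ V} {x | x - y ∈ D} {S | {u | u + y ∈ S} ∈ A} ∂P).toReal -
          (pP d ρ D A).toReal| ≤ Real.exp (-(ε / 100 * d)) := by
  have heta := eta_le
  have heta0 := eta_pos
  filter_upwards [eventually_ge_atTop 1, dens_bound ε hε,
    exp_small 192 (ε / 24 - ε / 100) (ε / 50) 3 (by linarith),
    exp_small 160 (ε * (49 / 50)) (ε / 100) 4 (by linarith),
    exp_small 16 ε (ε / 12) 1 (by linarith),
    exp_small 8 (ε / 12) 0 0 (by linarith)] with d hd hDB E1 E2 E3 E4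
  intro r hr ρ hρ hlam z hz R₁
  set R₀ := max R₁ 0 with hR₀
  have hR0 : 0 ≤ R₀ := le_max_right _ _
  set θ := Real.exp (-(ε / 100 * (d : ℝ))) with hθ
  set t := Real.exp (-(ε / 12 * (d : ℝ))) with ht
  have hθ0 : 0 < θ := Real.exp_pos _
  have ht0 : 0 < t := Real.exp_pos _
  have hdr : (1 : ℝ) ≤ d := by exact_mod_cast hd
  have hB0 : 0 < bv d r := bv_pos d hr
  filter_upwards [hDB r hr ρ hρ hlam z hz, ev_pow (2 * (r + R₀)) (by positivity) d (θ / 2)
    (by positivity), ev_pow (2 * r) (by positivity) d t ht0] with L hI hL1 hL2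
  intro Ω _ P _ V hV hreg D hD hDR M hM c hc
  obtain ⟨hL, h4, h3⟩ := hL1
  obtain ⟨-, h5, h6⟩ := hL2
  set lam := ρ * bv d r with hlamdef
  have hlam0 : 0 < lam := by positivity
  have hlamd : lam ≤ d := by
    have : (eta - ε) * (d : ℝ) ≤ 1 * d := by gcongr; linarith
    linarith
  have hlam1 : 1 + lam ≤ 2 * d := by linarith
  set σ := z * bv d (√(3 / 4) * r) with hσ
  have hσ1 : σ ≤ lam * Real.exp (-(ε * d)) := sigma_le d hr hρ hlam z hz
  have hσ2 : σ ≤ d * Real.exp (-(ε * d)) :=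
    hσ1.trans (mul_le_mul_of_nonneg_right hlamd (Real.exp_pos _).le)
  have hbv0 : 0 ≤ bv d (√(3 / 4) * r) := ENNReal.toReal_nonneg
  have hσ0 : 0 ≤ σ := by positivity
  rw [pow_one] at E3
  have ht8 : t ≤ 1 / 8 := by
    rw [pow_zero, zero_mul, neg_zero, Real.exp_zero] at E4
    linarith
  have hσt : 16 * σ ≤ t := by linarith
  have hLd : 0 < L ^ d := by positivity
  have hvol : ∀ W, Region d r L W → (1 - t) * L ^ d ≤ (volume W).toReal := by
    intro W hW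
    refine h6.trans ?_
    have e1 : volume {x : Fin d → ℝ | ∀ k, x k ∈ Set.Icc r (L - r)} ≤ volume W :=
      measure_mono hW.2.1
    rw [box_vol d h5] at e1
    exact (ENNReal.ofReal_le_iff_le_toReal (W_lt hW)).1 e1
  have hex : ∀ ω, ∫⁻ x in {x | (ω, x) ∈ V}, exc d r ρ z {x | (ω, x) ∈ V} x ≤
      ENNReal.ofReal (6 * (1 + lam) * √t * (ρ * L ^ d)) := fun ω =>
    excess r ρ L t hr hρ hL ht0 ht8 z hz (hreg ω) σ hσ hσt (hI _ (hreg ω)) (hvol _ (hreg ω))
  have hst : √t = Real.exp (-(ε / 24 * (d : ℝ))) := by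
    rw [Real.sqrt_eq_iff_mul_self_eq (Real.exp_pos _).le (Real.exp_pos _).le, ← Real.exp_add]
    congr 1
    ring
  have hM0 : (0 : ℝ) ≤ M := Nat.cast_nonneg M
  refine dlr_bad P (M := M) r ρ L θ hr hρ hL hθ0 z hz hV hreg R₀ hR0 hD
    (fun x hx k => (hDR x hx k).trans (le_max_left _ _)) c hc σ lam hσ hlamdef ?_
    (6 * (1 + lam) * √t * (ρ * L ^ d)) (by positivity) hex ?_ h3 h4
  · -- the first constant
    have e1 : (M : ℝ) ^ 2 ≤ Real.exp (ε / 50 * d) := by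
      calc (M : ℝ) ^ 2 ≤ (Real.exp (ε / 100 * d)) ^ 2 := by gcongr
        _ = _ := by rw [← Real.exp_nat_mul]; congr 1; push_cast; ring
    calc 20 * σ * (1 + lam) ^ 3 * M ^ 2
        ≤ 20 * (d * Real.exp (-(ε * d))) * (2 * d) ^ 3 * Real.exp (ε / 50 * d) := by gcongr
      _ = 160 * (d : ℝ) ^ 4 * (Real.exp (-(ε * d)) * Real.exp (ε / 50 * d)) := by ring
      _ = 160 * (d : ℝ) ^ 4 * Real.exp (-(ε * (49 / 50) * d)) := by
          rw [← Real.exp_add]; congr 2; ring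
      _ ≤ θ := E2
  · have e1 : θ ^ 2 = Real.exp (-(ε / 50 * d)) := by
      rw [hθ, ← Real.exp_nat_mul]; congr 1; push_cast; ring
    rw [e1, hst]
    calc 8 * (M * bv d r) * (1 + lam) * (6 * (1 + lam) * Real.exp (-(ε / 24 * d)) * (ρ * L ^ d))
        = 48 * M * Real.exp (-(ε / 24 * d)) * lam * (1 + lam) ^ 2 * L ^ d := by
          rw [hlamdef]; ring
      _ ≤ 48 * Real.exp (ε / 100 * d) * Real.exp (-(ε / 24 * d)) * d * (2 * d) ^ 2 * L ^ d := by
          gcongr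
      _ = 192 * (d : ℝ) ^ 3 * (Real.exp (ε / 100 * d) * Real.exp (-(ε / 24 * d))) * L ^ d := by
          ring
      _ = 192 * (d : ℝ) ^ 3 * Real.exp (-((ε / 24 - ε / 100) * d)) * L ^ d := by
          rw [← Real.exp_add]; congr 3; ring
      _ ≤ _ := by gcongr

end Pool.Agent.U279.PG
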