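import Pool.Agent.U279.PG.Num
import Pool.Agent.K4H61.HS.Main

/-!
Unions of few balls are sparse in high dimension.
-/

set_option autoImplicit false
set_option linter.unusedSectionVars false
open MeasureTheory ENNReal Finset

namespace Pool.Agent.U279.PG
open Pool.Agent.K4H61.HS

variable {d : ℕ}

/-- the centres `x` and `y` are at distance less than `r` -/
def cl (d : ℕ) (r : ℝ) (x y : Fin d → ℝ) : Prop := ∑ k, (x k - y k) ^ 2 < r ^ 2

theorem cl_meas (r : ℝ) : MeasurableSet {p : (Fin d → ℝ) × (Fin d → ℝ) | cl d r p.1 p.2} := by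
  unfold cl
  exact measurableSet_lt (by fun_prop) measurable_const

theorem cl_symm (r : ℝ) : ∀ x y : Fin d → ℝ, cl d r x y → cl d r y x := by
  intro x y h
  unfold cl at *
  refine lt_of_eq_of_lt (sum_congr rfl fun k _ => ?_) h
  ring

theorem ball_lt_top (r : ℝ) : volume {x : Fin d → ℝ | ∑ k, x k ^ 2 < r ^ 2} < ⊤ := by
  have h1 : {x : Fin d → ℝ | ∑ k, x k ^ 2 < r ^ 2} ⊆ Set.univ.pi fun _ => Set.Icc (-|r|) |r| := by
    intro x hx
    rw [Set.mem_univ_pi]
    intro k
    have h2 : x k ^ 2 ≤ r ^ 2 := (single_le_sum (f := fun k => x k ^ 2)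
      (fun i _ => sq_nonneg _) (mem_univ k)).trans hx.le
    have h3 := sq_le_sq.1 h2
    exact abs_le.1 h3
  refine lt_of_le_of_lt (measure_mono h1) ?_
  rw [volume_pi_pi]
  simp only [Real.volume_Icc]
  exact ENNReal.prod_lt_top fun _ _ => ENNReal.ofReal_lt_top

theorem ball_vol (r : ℝ) (c : Fin d → ℝ) :
    volume {y | cl d r c y} = ENNReal.ofReal (bv d r) := by
  have h1 : {y | cl d r c y} = (fun y => y + (-c)) ⁻¹' {x : Fin d → ℝ | ∑ k, x k ^ 2 < r ^ 2} := by
    ext y
    simp only [cl, Set.mem_ofPred_eq, Set.mem_preimage, Pi.add_apply, Pi.neg_apply]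
    rw [show (∑ k, (c k - y k) ^ 2) = ∑ k, (y k + -c k) ^ 2 from
      sum_congr rfl fun k _ => by ring]
  rw [h1, measure_preimage_add_right]
  unfold bv
  rw [ENNReal.ofReal_toReal (ball_lt_top r).ne]

/-- the midpoint -/
noncomputable def md (a b : Fin d → ℝ) : Fin d → ℝ := fun k => (a k + b k) / 2

theorem par (a b y : Fin d → ℝ) : ∑ k, (md a b k - y k) ^ 2 =
    (∑ k, (a k - y k) ^ 2) / 2 + (∑ k, (b k - y k) ^ 2) / 2 - (∑ k, (a k - b k) ^ 2) / 4 := by
  rw [sum_div, sum_div, sum_div, ← sum_add_distrib, ← sum_sub_distrib]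
  refine sum_congr rfl fun k _ => ?_
  unfold md
  ring

/-- pairs in a union of balls -/
theorem sparse {M : ℕ} (r : ℝ) (hr : 0 < r) (c : Fin M → Fin d → ℝ) {F : Set (Fin d → ℝ)}
    (hF : MeasurableSet F) (hFc : F ⊆ {y | ∃ j, cl d r (c j) y}) :
    ∫⁻ x in F, volume (F ∩ {y | cl d r x y}) ≤
      ENNReal.ofReal (2 * M * bv d (√(3 / 4) * r)) * volume F := by
  set ρ := √(3 / 4) * r with hρ
  have hρ2 : ρ ^ 2 = 3 / 4 * r ^ 2 := by
    rw [hρ, mul_pow, Real.sq_sqrt (by norm_num)]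
  have hbv : 0 ≤ bv d ρ := ENNReal.toReal_nonneg
  -- the two kinds of pairs
  have hsub : ∀ x, F ∩ {y | cl d r x y} ⊆ ⋃ j : Fin M,
      ({y | cl d ρ (md (c j) x) y} ∪ (F ∩ {y | cl d ρ (md (c j) y) x})) := by
    rintro x y ⟨hyF, hxy⟩
    obtain ⟨j, hj⟩ := hFc hyF
    rw [Set.mem_iUnion]
    refine ⟨j, ?_⟩
    have hxy' := cl_symm r _ _ hxy
    simp only [cl, Set.mem_ofPred_eq] at hj hxy hxy'
    have hcx : ∑ k, (c j k - x k) ^ 2 = ∑ k, (c j k - x k) ^ 2 := rfl
    rcases lt_or_ge (∑ k, (c j k - y k) ^ 2) (∑ k, (c j k - x k) ^ 2) with h | h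
    · left
      show cl d ρ (md (c j) x) y
      unfold cl
      rw [par, hρ2]
      rcases lt_or_ge (∑ k, (c j k - x k) ^ 2) (r ^ 2) with h' | h' <;> linarith
    · right
      refine ⟨hyF, ?_⟩
      show cl d ρ (md (c j) y) x
      unfold cl
      rw [par, hρ2]
      linarith
  have hm : ∀ j, MeasurableSet {p : (Fin d → ℝ) × (Fin d → ℝ) | cl d ρ (md (c j) p.1) p.2} := by
    intro j
    unfold cl md
    exact measurableSet_lt (by fun_prop) measurable_const
  have h1 : ∀ x, volume (F ∩ {y | cl d r x y}) ≤ ∑ j : Fin M, (ENNReal.ofReal (bv d ρ) +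
      volume (F ∩ {y | cl d ρ (md (c j) y) x})) := by
    intro x
    refine (measure_mono (hsub x)).trans ((measure_iUnion_fintype_le _ _).trans ?_)
    refine sum_le_sum fun j _ => (measure_union_le _ _).trans (add_le_add (le_of_eq ?_) le_rfl)
    exact ball_vol ρ _
  have hm2 : ∀ j, MeasurableSet {p : (Fin d → ℝ) × (Fin d → ℝ) |
      p.2 ∈ F ∩ {y | cl d ρ (md (c j) y) p.1}} := by
    intro j
    have e : {p : (Fin d → ℝ) × (Fin d → ℝ) | p.2 ∈ F ∩ {y | cl d ρ (md (c j) y) p.1}} =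
        (Prod.snd ⁻¹' F) ∩ ((fun p => (p.2, p.1)) ⁻¹'
          {p : (Fin d → ℝ) × (Fin d → ℝ) | cl d ρ (md (c j) p.1) p.2}) := by
      ext p; simp
    rw [e]
    exact (measurable_snd hF).inter ((measurable_snd.prodMk measurable_fst) (hm j))
  have hmeas : ∀ j, Measurable fun x => volume (F ∩ {y | cl d ρ (md (c j) y) x}) := fun j =>
    measurable_measure_prodMk_left (hm2 j)
  have h2 : ∀ j, ∫⁻ x in F, volume (F ∩ {y | cl d ρ (md (c j) y) x}) ≤
      ENNReal.ofReal (bv d ρ) * volume F := by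
    intro j
    have e1 : ∀ x, volume (F ∩ {y | cl d ρ (md (c j) y) x}) =
        ∫⁻ y in F, Set.indicator {p : (Fin d → ℝ) × (Fin d → ℝ) | cl d ρ (md (c j) p.2) p.1}
          (fun _ => (1 : ℝ≥0∞)) (x, y) := by
      intro x
      have hms : MeasurableSet {y | cl d ρ (md (c j) y) x} :=
        measurable_prodMk_right (y := x) (hm j)
      have e2 : ∀ y, Set.indicator {p : (Fin d → ℝ) × (Fin d → ℝ) | cl d ρ (md (c j) p.2) p.1}
          (fun _ => (1 : ℝ≥0∞)) (x, y) = Set.indicator {y | cl d ρ (md (c j) y) x}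
            (fun _ => (1 : ℝ≥0∞)) y := by
        intro y
        simp only [Set.indicator, Set.mem_ofPred_eq]
      simp only [e2]
      rw [setLIntegral_indicator hms, setLIntegral_one, Set.inter_comm]
    simp only [e1]
    have hm3 : MeasurableSet {p : (Fin d → ℝ) × (Fin d → ℝ) | cl d ρ (md (c j) p.2) p.1} := by
      have e : {p : (Fin d → ℝ) × (Fin d → ℝ) | cl d ρ (md (c j) p.2) p.1} =
          (fun p => (p.2, p.1)) ⁻¹' {p : (Fin d → ℝ) × (Fin d → ℝ) | cl d ρ (md (c j) p.1) p.2} :=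
        rfl
      rw [e]
      exact (measurable_snd.prodMk measurable_fst) (hm j)
    have hjm : Measurable (Set.indicator
        {p : (Fin d → ℝ) × (Fin d → ℝ) | cl d ρ (md (c j) p.2) p.1}
          (fun _ => (1 : ℝ≥0∞))) := measurable_const.indicator hm3
    rw [lintegral_lintegral_swap (f := fun x y => Set.indicator
      {p : (Fin d → ℝ) × (Fin d → ℝ) | cl d ρ (md (c j) p.2) p.1} (fun _ => (1 : ℝ≥0∞)) (x, y))
      hjm.aemeasurable]
    rw [← setLIntegral_const]
    refine lintegral_mono fun y => ?_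
    have hms : MeasurableSet {x | cl d ρ (md (c j) y) x} := measurable_prodMk_left (x := y) (hm j)
    have e2 : ∀ x, Set.indicator {p : (Fin d → ℝ) × (Fin d → ℝ) | cl d ρ (md (c j) p.2) p.1}
        (fun _ => (1 : ℝ≥0∞)) (x, y) = Set.indicator {x | cl d ρ (md (c j) y) x}
          (fun _ => (1 : ℝ≥0∞)) x := by
      intro x
      simp only [Set.indicator, Set.mem_ofPred_eq]
    simp only [e2]
    rw [setLIntegral_indicator hms, setLIntegral_one]
    exact (measure_mono Set.inter_subset_left).trans (le_of_eq (ball_vol ρ _))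
  calc ∫⁻ x in F, volume (F ∩ {y | cl d r x y})
      ≤ ∫⁻ x in F, ∑ j : Fin M, (ENNReal.ofReal (bv d ρ) +
          volume (F ∩ {y | cl d ρ (md (c j) y) x})) := lintegral_mono h1
    _ = ∑ j : Fin M, ∫⁻ x in F, (ENNReal.ofReal (bv d ρ) +
          volume (F ∩ {y | cl d ρ (md (c j) y) x})) := by
        rw [lintegral_finsetSum]
        exact fun j _ => measurable_const.add (hmeas j)
    _ ≤ ∑ _j : Fin M, (ENNReal.ofReal (bv d ρ) * volume F + ENNReal.ofReal (bv d ρ) * volume F) := by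
        refine sum_le_sum fun j _ => ?_
        rw [lintegral_add_left measurable_const, setLIntegral_const]
        exact add_le_add le_rfl (h2 j)
    _ = _ := by
        rw [sum_const, card_univ, Fintype.card_fin, nsmul_eq_mul,
          ENNReal.ofReal_mul (by positivity), ENNReal.ofReal_mul (by norm_num),
          ENNReal.ofReal_natCast, ENNReal.ofReal_ofNat]
        ring

end Pool.Agent.U279.PG
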