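import Pool.Agent.U279.PG.Split

/-!
The lower bound for the probability of a hole in a hard core gas.
-/

set_option autoImplicit false
set_option linter.unusedSectionVars false
open MeasureTheory ENNReal Finset

namespace Pool.Agent.U279.PG

variable {X : Type} [MeasurableSpace X]

theorem hasSum_exp' (x : ℝ) : HasSum (fun n : ℕ => x ^ n / n.factorial) (Real.exp x) := by
  have := NormedSpace.expSeries_div_hasSum_exp (𝔸 := ℝ) x
  rwa [← Real.exp_eq_exp_ℝ] at this

theorem tsum_exp (x : ℝ) (hx : 0 ≤ x) :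
    ∑' n : ℕ, (ENNReal.ofReal x) ^ n / (n.factorial : ℝ≥0∞) = ENNReal.ofReal (Real.exp x) := by
  rw [← (hasSum_exp' x).tsum_eq,
    ENNReal.ofReal_tsum_of_nonneg (fun n => by positivity) (hasSum_exp' x).summable]
  refine tsum_congr fun n => ?_
  rw [ENNReal.ofReal_div_of_pos (by positivity), ENNReal.ofReal_pow hx, ENNReal.ofReal_natCast]

section
variable (μ : Measure X) [SigmaFinite μ] (R : X → X → Prop) (z : NNReal)

theorem Gd_mono (ι : Type) {U V : Set X} (h : U ⊆ V) : Gd R ι U ⊆ Gd R ι V :=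
  fun _ hx => ⟨hx.1, fun i => h (hx.2 i)⟩

theorem Zn_mono (ι : Type) [Fintype ι] {U V : Set X} (h : U ⊆ V) : Zn μ R ι U ≤ Zn μ R ι V :=
  measure_mono (Gd_mono R ι h)

theorem Xi_mono {U V : Set X} (h : U ⊆ V) : Xi μ R z U ≤ Xi μ R z V :=
  ENNReal.tsum_le_tsum fun n => mul_le_mul_right (Zn_mono μ R (Fin n) h) _

theorem Zn_le (ι : Type) [Fintype ι] (U : Set X) : Zn μ R ι U ≤ μ U ^ Fintype.card ι := by
  have h1 : Gd R ι U ⊆ Set.pi Set.univ fun _ => U := fun x hx => by
    rw [Set.mem_univ_pi]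
    exact hx.2
  refine (measure_mono h1).trans ?_
  rw [Measure.pi_pi, prod_const, card_univ]

theorem Zn_zero (U : Set X) : Zn μ R (Fin 0) U = 1 := by
  have h1 : Gd R (Fin 0) U = Set.univ := by
    ext x
    simp [Gd, Pk]
  unfold Zn
  rw [h1, Measure.pi_univ]
  simp

theorem one_le_Xi (U : Set X) : 1 ≤ Xi μ R z U := by
  have h1 := ENNReal.le_tsum (f := fun n : ℕ => ((z : ℝ≥0∞) ^ n / (n.factorial : ℝ≥0∞)) *
    Zn μ R (Fin n) U) 0
  refine le_trans ?_ h1
  rw [Zn_zero]
  simp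

theorem Xi_le_exp {U : Set X} (hU : μ U ≠ ⊤) :
    Xi μ R z U ≤ ENNReal.ofReal (Real.exp (z * (μ U).toReal)) := by
  rw [← tsum_exp _ (by positivity)]
  refine ENNReal.tsum_le_tsum fun n => ?_
  have h1 := Zn_le μ R (Fin n) U
  rw [Fintype.card_fin] at h1
  have h2 : ENNReal.ofReal (z * (μ U).toReal) = z * μ U := by
    rw [ENNReal.ofReal_mul (NNReal.coe_nonneg z), ENNReal.ofReal_coe_nnreal,
      ENNReal.ofReal_toReal hU]
  rw [h2, mul_pow, div_eq_mul_inv, div_eq_mul_inv]
  calc (z : ℝ≥0∞) ^ n * (n.factorial : ℝ≥0∞)⁻¹ * Zn μ R (Fin n) U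
      ≤ (z : ℝ≥0∞) ^ n * (n.factorial : ℝ≥0∞)⁻¹ * μ U ^ n := by gcongr
    _ = _ := by ring

theorem Xi_ne_top {U : Set X} (hU : μ U ≠ ⊤) : Xi μ R z U ≠ ⊤ :=
  ne_top_of_le_ne_top ENNReal.ofReal_ne_top (Xi_le_exp μ R z hU)

theorem Ex_mono {U : Set X} {F G : ∀ n : ℕ, (Fin n → X) → ℝ≥0∞}
    (h : ∀ n a, F n a ≤ G n a) : Ex μ R z U F ≤ Ex μ R z U G :=
  ENNReal.tsum_le_tsum fun n => mul_le_mul_right (lintegral_mono fun a => h n a) _

theorem Ex_mul {U : Set X} {F : ∀ n : ℕ, (Fin n → X) → ℝ≥0∞} (hF : ∀ n, Measurable (F n))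
    (c : ℝ≥0∞) : Ex μ R z U (fun n a => c * F n a) = c * Ex μ R z U F := by
  unfold Ex
  rw [← ENNReal.tsum_mul_left]
  refine tsum_congr fun n => ?_
  rw [lintegral_const_mul _ (hF n)]
  ring

theorem Ex_add {U : Set X} {F G : ∀ n : ℕ, (Fin n → X) → ℝ≥0∞} (hF : ∀ n, Measurable (F n)) :
    Ex μ R z U (fun n a => F n a + G n a) = Ex μ R z U F + Ex μ R z U G := by
  unfold Ex
  rw [← ENNReal.tsum_add]
  refine tsum_congr fun n => ?_
  rw [lintegral_add_left (hF n), mul_add]

end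

section
variable {μ : Measure X} [SigmaFinite μ] {R : X → X → Prop}

theorem le_of_exp {a b : ℝ≥0∞} {u : ℝ} (ha : a ≠ ⊤)
    (h : a ≤ ENNReal.ofReal (Real.exp u) * b) : a ≤ b + ENNReal.ofReal u * a := by
  rcases eq_or_ne b ⊤ with rfl | hb
  · simp
  have h1 : a.toReal ≤ Real.exp u * b.toReal := by
    have := ENNReal.toReal_mono (ENNReal.mul_ne_top ENNReal.ofReal_ne_top hb) h
    rwa [ENNReal.toReal_mul, ENNReal.toReal_ofReal (Real.exp_pos u).le] at this
  rcases le_or_gt u 0 with hu | hu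
  · have h2 : Real.exp u ≤ 1 := Real.exp_le_one_iff.2 hu
    refine le_trans ?_ le_self_add
    refine (ENNReal.toReal_le_toReal ha hb).1 (h1.trans ?_)
    exact mul_le_of_le_one_left ENNReal.toReal_nonneg h2
  · refine (ENNReal.toReal_le_toReal ha (ENNReal.add_ne_top.2 ⟨hb,
      ENNReal.mul_ne_top ENNReal.ofReal_ne_top ha⟩)).1 ?_
    rw [ENNReal.toReal_add hb (ENNReal.mul_ne_top ENNReal.ofReal_ne_top ha), ENNReal.toReal_mul,
      ENNReal.toReal_ofReal hu.le]
    have h3 : Real.exp (-u) * a.toReal ≤ b.toReal := by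
      have := mul_le_mul_of_nonneg_left h1 (Real.exp_pos (-u)).le
      rwa [← mul_assoc, ← Real.exp_add, neg_add_cancel, Real.exp_zero, one_mul] at this
    have h4 : (1 - u) * a.toReal ≤ Real.exp (-u) * a.toReal := by
      refine mul_le_mul_of_nonneg_right ?_ ENNReal.toReal_nonneg
      have := Real.add_one_le_exp (-u)
      linarith
    linarith

theorem absorb {a b : ℝ≥0∞} {δ : ℝ} (h0 : 0 ≤ δ) (hδ : δ < 1) (ha : a ≠ ⊤)
    (h : a ≤ b + ENNReal.ofReal δ * a) : a ≤ ENNReal.ofReal ((1 - δ)⁻¹) * b := by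
  have h1δ : 0 < 1 - δ := by linarith
  rcases eq_or_ne b ⊤ with rfl | hb
  · rw [ENNReal.mul_top]
    · exact le_top
    · rw [Ne, ENNReal.ofReal_eq_zero, not_le]
      positivity
  have hd : ENNReal.ofReal δ * a ≠ ⊤ := ENNReal.mul_ne_top ENNReal.ofReal_ne_top ha
  have h2 := ENNReal.toReal_mono (ENNReal.add_ne_top.2 ⟨hb, hd⟩) h
  rw [ENNReal.toReal_add hb hd, ENNReal.toReal_mul, ENNReal.toReal_ofReal h0] at h2
  refine (ENNReal.toReal_le_toReal ha (ENNReal.mul_ne_top ENNReal.ofReal_ne_top hb)).1 ?_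
  rw [ENNReal.toReal_mul, ENNReal.toReal_ofReal (by positivity), inv_mul_eq_div,
    le_div_iff₀ h1δ]
  linarith

/-- removing a set from a region -/
theorem Xi_sub_le (hR : MeasurableSet {p : X × X | R p.1 p.2}) (hsymm : ∀ u v, R u v → R v u)
    (z : NNReal) {F B : Set X} (hF : MeasurableSet F) (hB : MeasurableSet B) (hFt : μ F ≠ ⊤) :
    Xi μ R z F ≤ Xi μ R z (F \ B) + z * μ (F ∩ B) * Xi μ R z F := by
  have hFB : μ (F ∩ B) ≠ ⊤ := ne_top_of_le_ne_top hFt (measure_mono Set.inter_subset_left)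
  have h1 : F = (F \ B) ∪ (F ∩ B) := by rw [Set.sdiff_union_inter]
  have h2 : Disjoint (F \ B) (F ∩ B) := Set.disjoint_sdiff_inter
  have h3 : Xi μ R z F ≤ ENNReal.ofReal (Real.exp (z * (μ (F ∩ B)).toReal)) *
      Xi μ R z (F \ B) := by
    conv_lhs => rw [h1]
    rw [Xi_union μ hR hsymm z (hF.diff hB) (hF.inter hB) h2, ← Ex_one μ R z (F \ B),
      ← Ex_mul μ R z (fun n => measurable_const)]
    refine Ex_mono μ R z fun n a => ?_
    rw [mul_one]
    have h4 : away R a (F ∩ B) ⊆ F ∩ B := fun x hx => hx.1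
    exact (Xi_mono μ R z h4).trans (Xi_le_exp μ R z hFB)
  have h4 := le_of_exp (Xi_ne_top μ R z hFt) h3
  have h5 : ENNReal.ofReal (z * (μ (F ∩ B)).toReal) = z * μ (F ∩ B) := by
    rw [ENNReal.ofReal_mul (NNReal.coe_nonneg z), ENNReal.ofReal_coe_nnreal,
      ENNReal.ofReal_toReal hFB]
  rwa [h5] at h4

theorem nb_meas (hR : MeasurableSet {p : X × X | R p.1 p.2}) (x : X) :
    MeasurableSet {y | R x y} := measurable_prodMk_left (x := x) hR

/-- sparse regions -/
theorem sparse_step (hR : MeasurableSet {p : X × X | R p.1 p.2})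
    (hsymm : ∀ u v, R u v → R v u)
    (z : NNReal) {F : Set X} (hF : MeasurableSet F) (hFt : μ F ≠ ⊤) {κ δ : ℝ} (h0 : 0 ≤ κ)
    (hz : z * κ ≤ δ) (hδ : δ < 1)
    (hκ : ∫⁻ x in F, μ (F ∩ {y | R x y}) ∂μ ≤ ENNReal.ofReal κ * μ F) :
    μ F * Xi μ R z F ≤ ENNReal.ofReal ((1 - δ)⁻¹) *
      ∫⁻ x in F, Xi μ R z (F \ {y | R x y}) ∂μ := by
  have hX := Xi_ne_top μ R z hFt
  have hδ0 : 0 ≤ δ := le_trans (by positivity) hz
  refine absorb hδ0 hδ (ENNReal.mul_ne_top hFt hX) ?_
  have hsec : MeasurableSet {p : X × X | p.2 ∈ F \ {y | R p.1 y}} := by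
    have : {p : X × X | p.2 ∈ F \ {y | R p.1 y}} = (Prod.snd ⁻¹' F) \ {p : X × X | R p.1 p.2} := by
      ext p; simp
    rw [this]
    exact (measurable_snd hF).diff hR
  have hm1 : Measurable fun x => Xi μ R z (F \ {y | R x y}) := Xi_sec_meas μ hR z hsec
  have hsec2 : MeasurableSet {p : X × X | p.2 ∈ F ∩ {y | R p.1 y}} := by
    have : {p : X × X | p.2 ∈ F ∩ {y | R p.1 y}} = (Prod.snd ⁻¹' F) ∩ {p : X × X | R p.1 p.2} := by
      ext p; simp
    rw [this]
    exact (measurable_snd hF).inter hR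
  have hm2 : Measurable fun x => μ (F ∩ {y | R x y}) := measurable_measure_prodMk_left hsec2
  calc μ F * Xi μ R z F = ∫⁻ _ in F, Xi μ R z F ∂μ := by
        rw [setLIntegral_const, mul_comm]
    _ ≤ ∫⁻ x in F, (Xi μ R z (F \ {y | R x y}) + z * μ (F ∩ {y | R x y}) * Xi μ R z F) ∂μ :=
        lintegral_mono fun x => Xi_sub_le hR hsymm z hF (nb_meas hR x) hFt
    _ = ∫⁻ x in F, Xi μ R z (F \ {y | R x y}) ∂μ +
        z * (∫⁻ x in F, μ (F ∩ {y | R x y}) ∂μ) * Xi μ R z F := by
        rw [lintegral_add_left hm1]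
        congr 1
        rw [lintegral_mul_const _ (hm2.const_mul _), lintegral_const_mul _ hm2]
    _ ≤ ∫⁻ x in F, Xi μ R z (F \ {y | R x y}) ∂μ +
        ENNReal.ofReal δ * (μ F * Xi μ R z F) := by
        refine add_le_add le_rfl ?_
        calc (z : ℝ≥0∞) * (∫⁻ x in F, μ (F ∩ {y | R x y}) ∂μ) * Xi μ R z F
            ≤ (z : ℝ≥0∞) * (ENNReal.ofReal κ * μ F) * Xi μ R z F := by gcongr
          _ = ENNReal.ofReal (z * κ) * (μ F * Xi μ R z F) := by
              rw [ENNReal.ofReal_mul (NNReal.coe_nonneg z), ENNReal.ofReal_coe_nnreal]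
              ring
          _ ≤ ENNReal.ofReal δ * (μ F * Xi μ R z F) := by gcongr

theorem away_diff {n : ℕ} (a : Fin n → X) (D B : Set X) : away R a (D \ B) = away R a D \ B := by
  ext y
  simp only [away, Set.mem_ofPred_eq, Set.mem_sdiff]
  tauto

/-- the density of the gas in the region `W` at `x` -/
noncomputable def rho (μ : Measure X) (R : X → X → Prop) (z : NNReal) (W : Set X) (x : X) : ℝ≥0∞ :=
  z * Xi μ R z (W \ {y | R x y}) / Xi μ R z W

theorem swap_id (hR : MeasurableSet {p : X × X | R p.1 p.2}) (hsymm : ∀ u v, R u v → R v u)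
    (z : NNReal) {W D : Set X} (hW : MeasurableSet W) (hD : MeasurableSet D) (hDW : D ⊆ W) :
    ∫⁻ x in D, Xi μ R z (W \ {y | R x y}) ∂μ = Ex μ R z (W \ D) (fun n a =>
      ∫⁻ x in away R a D, Xi μ R z (away R a D \ {y | R x y}) ∂μ) := by
  have hU : MeasurableSet (W \ D) := hW.diff hD
  have h1 : ∀ x, Xi μ R z (W \ {y | R x y}) = ∑' n : ℕ, ((z : ℝ≥0∞) ^ n / (n.factorial : ℝ≥0∞)) *
      ∫⁻ a in Gd R (Fin n) (W \ D), Set.indicator {a : Fin n → X | ∀ i, ¬ R x (a i)}
        (fun a => Xi μ R z (away R a D \ {y | R x y})) a ∂(Measure.pi fun _ => μ) := by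
    intro x
    have h2 : W \ {y | R x y} = ((W \ D) \ {y | R x y}) ∪ (D \ {y | R x y}) := by
      ext y
      simp only [Set.mem_sdiff, Set.mem_union, Set.mem_ofPred_eq]
      constructor
      · rintro ⟨h, h'⟩
        by_cases hy : y ∈ D
        · exact Or.inr ⟨hy, h'⟩
        · exact Or.inl ⟨⟨h, hy⟩, h'⟩
      · rintro (⟨⟨h, _⟩, h'⟩ | ⟨h, h'⟩)
        · exact ⟨h, h'⟩
        · exact ⟨hDW h, h'⟩
    have h3 : Disjoint ((W \ D) \ {y | R x y}) (D \ {y | R x y}) := by
      rw [Set.disjoint_left]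
      rintro y ⟨⟨_, h⟩, _⟩ ⟨h', _⟩
      exact h h'
    rw [h2, Xi_union μ hR hsymm z (hU.diff (nb_meas hR x)) (hD.diff (nb_meas hR x)) h3]
    unfold Ex
    refine tsum_congr fun n => ?_
    congr 1
    have h4 : MeasurableSet {a : Fin n → X | ∀ i, ¬ R x (a i)} := by
      have : {a : Fin n → X | ∀ i, ¬ R x (a i)} = ⋂ i, (fun a : Fin n → X => a i) ⁻¹'
          {y | R x y}ᶜ := by
        ext a; simp [Set.mem_iInter]
      rw [this]
      exact MeasurableSet.iInter fun i => measurable_pi_apply i (nb_meas hR x).compl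
    rw [setLIntegral_indicator h4, Set.inter_comm]
    have h5 : Gd R (Fin n) (W \ D) ∩ {a : Fin n → X | ∀ i, ¬ R x (a i)} =
        Gd R (Fin n) ((W \ D) \ {y | R x y}) := by
      ext a
      simp only [Gd, Set.mem_inter_iff, Set.mem_ofPred_eq, Set.mem_sdiff]
      constructor
      · rintro ⟨⟨h, h'⟩, h''⟩
        exact ⟨h, fun i => ⟨h' i, h'' i⟩⟩
      · rintro ⟨h, h'⟩
        exact ⟨⟨h, fun i => (h' i).1⟩, fun i => (h' i).2⟩
    rw [h5]
    refine lintegral_congr fun a => ?_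
    show Xi μ R z (away R a (D \ {y | R x y})) = _
    rw [away_diff]
  simp only [h1]
  unfold Ex
  have hjm : ∀ n : ℕ, Measurable (Function.uncurry fun (x : X) (a : Fin n → X) =>
      Set.indicator {a : Fin n → X | ∀ i, ¬ R x (a i)}
        (fun a => Xi μ R z (away R a D \ {y | R x y})) a) := by
    intro n
    have e1 : (Function.uncurry fun (x : X) (a : Fin n → X) =>
      Set.indicator {a : Fin n → X | ∀ i, ¬ R x (a i)}
        (fun a => Xi μ R z (away R a D \ {y | R x y})) a) =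
        Set.indicator {p : X × (Fin n → X) | ∀ i, ¬ R p.1 (p.2 i)}
          (fun p => Xi μ R z (away R p.2 D \ {y | R p.1 y})) := by
      funext p
      simp only [Function.uncurry, Set.indicator, Set.mem_ofPred_eq]
    rw [e1]
    refine Measurable.indicator ?_ ?_
    · refine Xi_sec_meas μ hR z (S := {q : (X × (Fin n → X)) × X |
        q.2 ∈ away R q.1.2 D \ {y | R q.1.1 y}}) ?_
      have e2 : {q : (X × (Fin n → X)) × X | q.2 ∈ away R q.1.2 D \ {y | R q.1.1 y}} =
          (fun q : (X × (Fin n → X)) × X => (q.1.2, q.2)) ⁻¹'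
            {p : (Fin n → X) × X | p.2 ∈ away R p.1 D} \
          (fun q : (X × (Fin n → X)) × X => (q.1.1, q.2)) ⁻¹' {p : X × X | R p.1 p.2} := by
        ext q; simp
      rw [e2]
      exact (((measurable_snd.comp measurable_fst).prodMk measurable_snd)
        (away_sec hR hD)).diff (((measurable_fst.comp measurable_fst).prodMk measurable_snd) hR)
    · have e3 : {p : X × (Fin n → X) | ∀ i, ¬ R p.1 (p.2 i)} = ⋂ i,
          (fun p : X × (Fin n → X) => (p.1, p.2 i)) ⁻¹' {p : X × X | R p.1 p.2}ᶜ := by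
        ext p; simp [Set.mem_iInter]
      rw [e3]
      exact MeasurableSet.iInter fun i => (measurable_fst.prodMk
        ((measurable_pi_apply i).comp measurable_snd)) hR.compl
  have hjm2 : ∀ n : ℕ, Measurable fun x : X => ∫⁻ a in Gd R (Fin n) (W \ D),
      Set.indicator {a : Fin n → X | ∀ i, ¬ R x (a i)}
        (fun a => Xi μ R z (away R a D \ {y | R x y})) a ∂(Measure.pi fun _ => μ) := fun n =>
    Measurable.lintegral_prod_right' (ν := (Measure.pi fun _ : Fin n => μ).restrict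
      (Gd R (Fin n) (W \ D))) (hjm n)
  rw [lintegral_tsum]
  · refine tsum_congr fun n => ?_
    rw [lintegral_const_mul _ (hjm2 n)]
    congr 1
    rw [lintegral_lintegral_swap (hjm n).aemeasurable]
    refine lintegral_congr fun a => ?_
    have h6 : ∀ x, Set.indicator {a : Fin n → X | ∀ i, ¬ R x (a i)}
        (fun a => Xi μ R z (away R a D \ {y | R x y})) a =
        Set.indicator {x | ∀ i, ¬ R x (a i)} (fun x => Xi μ R z (away R a D \ {y | R x y})) x := by
      intro x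
      simp only [Set.indicator, Set.mem_ofPred_eq]
    simp only [h6]
    have h7 : MeasurableSet {x | ∀ i, ¬ R x (a i)} := by
      have : {x | ∀ i, ¬ R x (a i)} = ⋂ i, {x | R x (a i)}ᶜ := by
        ext x; simp [Set.mem_iInter]
      rw [this]
      exact MeasurableSet.iInter fun i => (measurable_prodMk_right (y := a i) hR).compl
    rw [setLIntegral_indicator h7]
    have h8 : {x | ∀ i, ¬ R x (a i)} ∩ D = away R a D := by
      ext x
      simp only [away, Set.mem_inter_iff, Set.mem_ofPred_eq]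
      constructor
      · rintro ⟨h, h'⟩
        exact ⟨h', fun i hi => h i (hsymm _ _ hi)⟩
      · rintro ⟨h, h'⟩
        exact ⟨fun i hi => h' i (hsymm _ _ hi), h⟩
    rw [h8]
  · intro n
    exact ((hjm2 n).const_mul _).aemeasurable

theorem pt_ineq {g c v : ℝ} (hg : 1 ≤ g) (hv : g ≤ Real.exp v) :
    (1 + c) * g ≤ Real.exp c + v * g := by
  have hg0 : 0 < g := by linarith
  have h1 := Real.add_one_le_exp (c - Real.log g)
  rw [Real.exp_sub, Real.exp_log hg0, le_div_iff₀ hg0] at h1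
  have h2 : Real.log g ≤ v := by
    have := Real.log_le_log hg0 hv
    rwa [Real.log_exp] at this
  have h3 := mul_le_mul_of_nonneg_right h2 hg0.le
  linarith

/-- **The probability of a hole.** -/
theorem hole (hR : MeasurableSet {p : X × X | R p.1 p.2}) (hsymm : ∀ u v, R u v → R v u)
    (z : NNReal) {W D : Set X} (hW : MeasurableSet W) (hD : MeasurableSet D) (hDW : D ⊆ W)
    (hWt : μ W ≠ ⊤) {κ δ : ℝ} (h0 : 0 ≤ κ) (hz : z * κ ≤ δ) (hδ : δ < 1)
    (hκ : ∀ F ⊆ D, MeasurableSet F →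
      ∫⁻ x in F, μ (F ∩ {y | R x y}) ∂μ ≤ ENNReal.ofReal κ * μ F) :
    Xi μ R z W ≤ ENNReal.ofReal (Real.exp ((1 - δ)⁻¹ * (∫⁻ x in D, rho μ R z W x ∂μ).toReal)) *
      Xi μ R z (W \ D) := by
  have hδ0 : 0 ≤ δ := le_trans (by positivity) hz
  have h1δ : 0 < 1 - δ := by linarith
  have hX := Xi_ne_top μ R z hWt
  have hX1 := one_le_Xi μ R z W
  have hX0 : Xi μ R z W ≠ 0 := (lt_of_lt_of_le zero_lt_one hX1).ne'
  have hU : MeasurableSet (W \ D) := hW.diff hD
  have hDt : μ D ≠ ⊤ := ne_top_of_le_ne_top hWt (measure_mono hDW)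
  set I := ∫⁻ x in D, Xi μ R z (W \ {y | R x y}) ∂μ with hI
  have hsec : MeasurableSet {p : X × X | p.2 ∈ W \ {y | R p.1 y}} := by
    have : {p : X × X | p.2 ∈ W \ {y | R p.1 y}} = (Prod.snd ⁻¹' W) \ {p : X × X | R p.1 p.2} := by
      ext p; simp
    rw [this]
    exact (measurable_snd hW).diff hR
  have hm1 : Measurable fun x => Xi μ R z (W \ {y | R x y}) := Xi_sec_meas μ hR z hsec
  have hIt : I ≠ ⊤ := by
    have h1 : I ≤ Xi μ R z W * μ D := by
      rw [hI, ← setLIntegral_const]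
      exact lintegral_mono fun x => Xi_mono μ R z Set.sdiff_subset
    exact ne_top_of_le_ne_top (ENNReal.mul_ne_top hX hDt) h1
  have hrho : ∫⁻ x in D, rho μ R z W x ∂μ = z * I / Xi μ R z W := by
    unfold rho
    rw [hI, ← lintegral_const_mul _ hm1]
    simp only [div_eq_mul_inv]
    rw [lintegral_mul_const _ (hm1.const_mul _)]
  rw [hrho]
  set c : ℝ := (1 - δ)⁻¹ * (z * I / Xi μ R z W).toReal with hc
  have hc0 : 0 ≤ c := by positivity
  -- the weighted volume
  have hGm : ∀ n : ℕ, Measurable fun a : Fin n → X => Xi μ R z (away R a D) := fun n =>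
    Xi_sec_meas μ hR z (away_sec (ι := Fin n) hR hD)
  have hVm : ∀ n : ℕ, Measurable fun a : Fin n → X => μ (away R a D) := fun n =>
    measurable_measure_prodMk_left (away_sec (ι := Fin n) hR hD)
  have h2 : Ex μ R z (W \ D) (fun n a => μ (away R a D) * Xi μ R z (away R a D)) ≤
      ENNReal.ofReal ((1 - δ)⁻¹) * I := by
    rw [hI, swap_id hR hsymm z hW hD hDW]
    have hmm : ∀ n : ℕ, Measurable fun a : Fin n → X =>
        ∫⁻ x in away R a D, Xi μ R z (away R a D \ {y | R x y}) ∂μ := by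
      intro n
      have e1 : (fun a : Fin n → X => ∫⁻ x in away R a D,
          Xi μ R z (away R a D \ {y | R x y}) ∂μ) = fun a => ∫⁻ x,
            Set.indicator {p : (Fin n → X) × X | p.2 ∈ away R p.1 D}
              (fun p => Xi μ R z (away R p.1 D \ {y | R p.2 y})) (a, x) ∂μ := by
        funext a
        rw [← lintegral_indicator (away_meas hR a hD)]
        rfl
      rw [e1]
      refine Measurable.lintegral_prod_right' ?_
      refine Measurable.indicator ?_ (away_sec hR hD)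
      refine Xi_sec_meas μ hR z (S := {q : ((Fin n → X) × X) × X |
        q.2 ∈ away R q.1.1 D \ {y | R q.1.2 y}}) ?_
      have e2 : {q : ((Fin n → X) × X) × X | q.2 ∈ away R q.1.1 D \ {y | R q.1.2 y}} =
          (fun q : ((Fin n → X) × X) × X => (q.1.1, q.2)) ⁻¹'
            {p : (Fin n → X) × X | p.2 ∈ away R p.1 D} \
          (fun q : ((Fin n → X) × X) × X => (q.1.2, q.2)) ⁻¹' {p : X × X | R p.1 p.2} := by
        ext q; simp
      rw [e2]
      exact (((measurable_fst.comp measurable_fst).prodMk measurable_snd)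
        (away_sec hR hD)).diff (((measurable_snd.comp measurable_fst).prodMk measurable_snd) hR)
    rw [← Ex_mul μ R z hmm]
    refine Ex_mono μ R z fun n a => ?_
    refine sparse_step hR hsymm z (away_meas hR a hD) ?_ h0 hz hδ (hκ _ (fun x hx => hx.1)
      (away_meas hR a hD))
    exact ne_top_of_le_ne_top hDt (measure_mono fun x hx => hx.1)
  have h3 : ENNReal.ofReal (1 + c) * Xi μ R z W ≤ ENNReal.ofReal (Real.exp c) * Xi μ R z (W \ D) +
      z * Ex μ R z (W \ D) (fun n a => μ (away R a D) * Xi μ R z (away R a D)) := by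
    have e1 : W = (W \ D) ∪ D := by rw [Set.sdiff_union_of_subset hDW]
    have e2 : Xi μ R z W = Ex μ R z (W \ D) (fun n a => Xi μ R z (away R a D)) := by
      conv_lhs => rw [e1]
      exact Xi_union μ hR hsymm z hU hD Set.disjoint_sdiff_left
    have hVG : ∀ n : ℕ, Measurable fun a : Fin n → X =>
        μ (away R a D) * Xi μ R z (away R a D) := fun n => (hVm n).mul (hGm n)
    rw [e2, ← Ex_one μ R z (W \ D), ← Ex_mul μ R z hGm, ← Ex_mul μ R z (fun n => measurable_const),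
      ← Ex_mul μ R z (F := fun n a => μ (away R a D) * Xi μ R z (away R a D)) hVG,
      ← Ex_add μ R z (fun n => by fun_prop)]
    refine Ex_mono μ R z fun n a => ?_
    have hVt : μ (away R a D) ≠ ⊤ := ne_top_of_le_ne_top hDt (measure_mono fun x hx => hx.1)
    have hGt := Xi_ne_top μ R z hVt
    have g1 : 1 ≤ (Xi μ R z (away R a D)).toReal := by
      have := ENNReal.toReal_mono hGt (one_le_Xi μ R z (away R a D))
      simpa using this
    have g2 : (Xi μ R z (away R a D)).toReal ≤ Real.exp (z * (μ (away R a D)).toReal) :=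
      ENNReal.toReal_le_of_le_ofReal (Real.exp_pos _).le (Xi_le_exp μ R z hVt)
    have g3 := pt_ineq (c := c) g1 g2
    rw [mul_one]
    have g4 : (z : ℝ≥0∞) * (μ (away R a D) * Xi μ R z (away R a D)) =
        ENNReal.ofReal (z * (μ (away R a D)).toReal * (Xi μ R z (away R a D)).toReal) := by
      rw [ENNReal.ofReal_mul (by positivity), ENNReal.ofReal_mul (NNReal.coe_nonneg z),
        ENNReal.ofReal_coe_nnreal, ENNReal.ofReal_toReal hVt, ENNReal.ofReal_toReal hGt, mul_assoc]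
    rw [g4, ← ENNReal.ofReal_add (Real.exp_pos c).le (by positivity)]
    calc ENNReal.ofReal (1 + c) * Xi μ R z (away R a D)
        = ENNReal.ofReal ((1 + c) * (Xi μ R z (away R a D)).toReal) := by
          rw [ENNReal.ofReal_mul (by positivity), ENNReal.ofReal_toReal hGt]
      _ ≤ _ := ENNReal.ofReal_le_ofReal g3
  have h4 : (z : ℝ≥0∞) * Ex μ R z (W \ D) (fun n a => μ (away R a D) * Xi μ R z (away R a D)) ≤
      ENNReal.ofReal c * Xi μ R z W := by
    have e3 : ENNReal.ofReal c * Xi μ R z W = z * (ENNReal.ofReal ((1 - δ)⁻¹) * I) := by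
      rw [hc, ENNReal.ofReal_mul (by positivity), ENNReal.ofReal_toReal
        (ENNReal.div_ne_top (ENNReal.mul_ne_top ENNReal.coe_ne_top hIt) hX0), mul_assoc,
        ENNReal.div_mul_cancel hX0 hX]
      ring
    rw [e3]
    exact mul_le_mul_right h2 _
  have h5 : Xi μ R z W + ENNReal.ofReal c * Xi μ R z W ≤
      ENNReal.ofReal (Real.exp c) * Xi μ R z (W \ D) + ENNReal.ofReal c * Xi μ R z W := by
    have e4 : Xi μ R z W + ENNReal.ofReal c * Xi μ R z W = ENNReal.ofReal (1 + c) * Xi μ R z W := by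
      rw [ENNReal.ofReal_add zero_le_one hc0, ENNReal.ofReal_one, add_mul, one_mul]
    rw [e4]
    exact h3.trans (add_le_add_right h4 _)
  exact (ENNReal.add_le_add_iff_right (ENNReal.mul_ne_top ENNReal.ofReal_ne_top hX)).1 h5

end

end Pool.Agent.U279.PG
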