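import Pool.Agent.U279.PG.Num

/-!
Splitting of expectations of functionals of the configuration in a part of the region.
-/

set_option autoImplicit false
set_option linter.unusedSectionVars false
open MeasureTheory ENNReal Finset

namespace Pool.Agent.U279.PG

variable {X : Type} [MeasurableSpace X]
variable {μ : Measure X} [SigmaFinite μ] {R : X → X → Prop}

theorem range_reindex {ι κ : Type} (e : ι ≃ κ) (x : ι → X) :
    Set.range ((MeasurableEquiv.piCongrLeft (fun _ : κ => X) e) x) = Set.range x := by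
  ext y
  simp only [Set.mem_range, piCL_apply]
  constructor
  · rintro ⟨j, hj⟩
    exact ⟨e.symm j, hj⟩
  · rintro ⟨i, hi⟩
    exact ⟨e i, by simpa using hi⟩

theorem lint_congr2 (μ : Measure X) [SigmaFinite μ] (R : X → X → Prop) {ι κ : Type} [Fintype ι]
    [Fintype κ] (e : ι ≃ κ) (U D : Set X) (F : Set X → Set X → ℝ≥0∞) :
    ∫⁻ a in Gd R ι U, F (Set.range a) (away R a D) ∂(Measure.pi fun _ : ι => μ) =
      ∫⁻ a in Gd R κ U, F (Set.range a) (away R a D) ∂(Measure.pi fun _ : κ => μ) := by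
  have h1 := measurePreserving_piCongrLeft (fun _ : κ => μ) e
  have h2 := h1.restrict_preimage_emb (MeasurableEquiv.measurableEmbedding _) (Gd R κ U)
  rw [Gd_reindex R e U] at h2
  rw [← h2.lintegral_comp_emb (MeasurableEquiv.measurableEmbedding _)]
  simp only [away_reindex, range_reindex]

theorem part_eq_G (μ : Measure X) [SigmaFinite μ] {R : X → X → Prop}
    (hR : MeasurableSet {p : X × X | R p.1 p.2}) (hsymm : ∀ u v, R u v → R v u)
    {U D : Set X} (hU : MeasurableSet U) (hD : MeasurableSet D) (hUD : Disjoint U D)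
    (G : Set X → ℝ≥0∞) (hG : ∀ n : ℕ, Measurable fun a : Fin n → X => G (Set.range a)) (N : ℕ)
    (s : Finset (Fin N)) :
    ∫⁻ x in {x | x ∈ Gd R (Fin N) (U ∪ D) ∧ ∀ i, x i ∈ U ↔ i ∈ s}, G (Set.range x ∩ U)
        ∂(Measure.pi fun _ : Fin N => μ) =
      ∫⁻ a in Gd R (Fin s.card) U, G (Set.range a) * Zn μ R (Fin (N - s.card)) (away R a D)
        ∂(Measure.pi fun _ => μ) := by
  classical
  set p : Fin N → Prop := fun i => i ∈ s with hp
  have hmp := measurePreserving_piEquivPiSubtypeProd (fun _ : Fin N => μ) p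
  set T : Set (({i // p i} → X) × ({i // ¬ p i} → X)) :=
    {q | q.1 ∈ Gd R _ U ∧ q.2 ∈ Gd R _ (away R q.1 D)} with hT
  have hTm : MeasurableSet T := by
    have h1 := Gd_sec_meas hR {i // ¬ p i} (away_sec (ι := {i // p i}) hR hD)
    have h2 : T = (Prod.fst ⁻¹' Gd R _ U) ∩
        {q : ({i // p i} → X) × ({i // ¬ p i} → X) | q.2 ∈ Gd R {i // ¬ p i}
          {x | (q.1, x) ∈ {p : ({i // p i} → X) × X | p.2 ∈ away R p.1 D}}} := by
      ext q
      simp [hT]
    rw [h2]
    exact (measurable_fst (Gd_meas hR _ hU)).inter h1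
  have hpre : {x | x ∈ Gd R (Fin N) (U ∪ D) ∧ ∀ i, x i ∈ U ↔ i ∈ s} =
      (MeasurableEquiv.piEquivPiSubtypeProd (fun _ : Fin N => X) p) ⁻¹' T := by
    ext x
    simp only [hT, Set.mem_preimage, Set.mem_ofPred_eq, Gd, Pk, away,
      MeasurableEquiv.piEquivPiSubtypeProd, MeasurableEquiv.coe_mk, Equiv.piEquivPiSubtypeProd,
      Equiv.coe_fn_mk]
    constructor
    · rintro ⟨⟨h1, h2⟩, h3⟩
      refine ⟨⟨fun i j hij => h1 _ _ fun h => hij (Subtype.ext h), fun i => (h3 i).2 i.2⟩,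
        fun i j hij => h1 _ _ fun h => hij (Subtype.ext h), fun j => ⟨?_, fun i => ?_⟩⟩
      · rcases h2 j with h | h
        · exact absurd ((h3 j).1 h) j.2
        · exact h
      · exact h1 _ _ fun h => j.2 (h ▸ i.2)
    · rintro ⟨⟨h1, h2⟩, h3, h4⟩
      have h5 : ∀ i, x i ∈ U ↔ i ∈ s := by
        intro i
        constructor
        · intro h
          by_contra hi
          exact Set.disjoint_left.1 hUD h (h4 ⟨i, hi⟩).1
        · intro h
          exact h2 ⟨i, h⟩
      refine ⟨⟨fun i j hij => ?_, fun i => ?_⟩, h5⟩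
      · by_cases hi : i ∈ s
        · by_cases hj : j ∈ s
          · exact h1 ⟨i, hi⟩ ⟨j, hj⟩ fun h => hij (congrArg Subtype.val h)
          · exact (h4 ⟨j, hj⟩).2 ⟨i, hi⟩
        · by_cases hj : j ∈ s
          · exact fun h => (h4 ⟨i, hi⟩).2 ⟨j, hj⟩ (hsymm _ _ h)
          · exact h3 ⟨i, hi⟩ ⟨j, hj⟩ fun h => hij (congrArg Subtype.val h)
      · by_cases hi : i ∈ s
        · exact Or.inl ((h5 i).2 hi)
        · exact Or.inr (h4 ⟨i, hi⟩).1
  have hpartm : MeasurableSet {x | x ∈ Gd R (Fin N) (U ∪ D) ∧ ∀ i, x i ∈ U ↔ i ∈ s} := by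
    rw [hpre]
    exact (MeasurableEquiv.measurable _) hTm
  have e1 : {i // p i} ≃ Fin s.card := s.equivFin
  have e2 : {i // ¬ p i} ≃ Fin (N - s.card) := by
    refine Fintype.equivFinOfCardEq ?_
    rw [Fintype.card_subtype_compl, Fintype.card_fin]
    congr 1
    simp [hp]
  have hGm : Measurable fun a : {i // p i} → X => G (Set.range a) := by
    have h1 : (fun a : {i // p i} → X => G (Set.range a)) =
        (fun a : Fin s.card → X => G (Set.range a)) ∘
          (MeasurableEquiv.piCongrLeft (fun _ : Fin s.card => X) e1) := by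
      funext a
      simp only [Function.comp, range_reindex]
    rw [h1]
    exact (hG _).comp (MeasurableEquiv.measurable _)
  have hstep : ∫⁻ x in {x | x ∈ Gd R (Fin N) (U ∪ D) ∧ ∀ i, x i ∈ U ↔ i ∈ s},
        G (Set.range x ∩ U) ∂(Measure.pi fun _ : Fin N => μ) =
      ∫⁻ x in (MeasurableEquiv.piEquivPiSubtypeProd (fun _ : Fin N => X) p) ⁻¹' T,
        G (Set.range (MeasurableEquiv.piEquivPiSubtypeProd (fun _ : Fin N => X) p x).1)
        ∂(Measure.pi fun _ : Fin N => μ) := by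
    rw [← hpre]
    refine setLIntegral_congr_fun hpartm fun x hx => ?_
    congr 1
    ext y
    simp only [Set.mem_inter_iff, Set.mem_range]
    constructor
    · rintro ⟨⟨i, hi⟩, hy⟩
      refine ⟨⟨i, (hx.2 i).1 (hi ▸ hy)⟩, hi⟩
    · rintro ⟨i, hi⟩
      refine ⟨⟨i.1, hi⟩, ?_⟩
      rw [← hi]
      exact (hx.2 i.1).2 i.2
  rw [hstep, hmp.setLIntegral_comp_preimage_emb (MeasurableEquiv.measurableEmbedding _)
    (fun q => G (Set.range q.1)) T]
  have hGp : Measurable fun q : ({i // p i} → X) × ({i // ¬ p i} → X) => G (Set.range q.1) :=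
    hGm.comp measurable_fst
  rw [← lintegral_indicator hTm, lintegral_prod _ (hGp.indicator hTm).aemeasurable]
  refine Eq.trans ?_ (lint_congr2 μ R e1 U D (fun A V => G A * Zn μ R (Fin (N - s.card)) V))
  rw [← lintegral_indicator (Gd_meas hR _ hU)]
  refine (lintegral_congr (g := fun a : {i // p i} → X => (Gd R {i // p i} U).indicator
    (fun a => G (Set.range a) * Zn μ R (Fin (N - s.card)) (away R a D)) a) fun a => ?_).trans
    (by congr 2; exact Subsingleton.elim _ _)
  by_cases ha : a ∈ Gd R {i // p i} U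
  · rw [Set.indicator_of_mem ha, ← Zn_congr μ R e2]
    have h1 : ∀ b, T.indicator (fun q : ({i // p i} → X) × ({i // ¬ p i} → X) =>
        G (Set.range q.1)) (a, b) = (Gd R {i // ¬ p i} (away R a D)).indicator
          (fun _ => G (Set.range a)) b := by
      intro b
      by_cases hb : b ∈ Gd R {i // ¬ p i} (away R a D)
      · rw [Set.indicator_of_mem hb, Set.indicator_of_mem]
        exact ⟨ha, hb⟩
      · rw [Set.indicator_of_notMem hb, Set.indicator_of_notMem]
        exact fun h => hb h.2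
    simp only [h1]
    rw [lintegral_indicator (Gd_meas hR _ (away_meas hR a hD)), setLIntegral_const]
    rfl
  · rw [Set.indicator_of_notMem ha]
    have h1 : ∀ b, T.indicator (fun q : ({i // p i} → X) × ({i // ¬ p i} → X) =>
        G (Set.range q.1)) (a, b) = 0 := by
      intro b
      rw [Set.indicator_of_notMem]
      exact fun h => ha h.1
    simp only [h1, lintegral_zero]

theorem lint_union_G (μ : Measure X) [SigmaFinite μ] {R : X → X → Prop}
    (hR : MeasurableSet {p : X × X | R p.1 p.2}) (hsymm : ∀ u v, R u v → R v u)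
    {U D : Set X} (hU : MeasurableSet U) (hD : MeasurableSet D) (hUD : Disjoint U D)
    (G : Set X → ℝ≥0∞) (hG : ∀ n : ℕ, Measurable fun a : Fin n → X => G (Set.range a)) (N : ℕ) :
    ∫⁻ x in Gd R (Fin N) (U ∪ D), G (Set.range x ∩ U) ∂(Measure.pi fun _ : Fin N => μ) =
      ∑ n ∈ range (N + 1), (N.choose n : ℝ≥0∞) *
      ∫⁻ a in Gd R (Fin n) U, G (Set.range a) * Zn μ R (Fin (N - n)) (away R a D)
        ∂(Measure.pi fun _ => μ) := by
  classical
  have h1 : Gd R (Fin N) (U ∪ D) = ⋃ s : Finset (Fin N),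
      {x | x ∈ Gd R (Fin N) (U ∪ D) ∧ ∀ i, x i ∈ U ↔ i ∈ s} := by
    ext x
    simp only [Set.mem_iUnion, Set.mem_ofPred_eq]
    constructor
    · intro hx
      exact ⟨univ.filter (fun i => x i ∈ U), hx, fun i => by simp⟩
    · rintro ⟨_, hx, _⟩
      exact hx
  have hmeas : ∀ s : Finset (Fin N), MeasurableSet
      {x | x ∈ Gd R (Fin N) (U ∪ D) ∧ ∀ i, x i ∈ U ↔ i ∈ s} := by
    intro s
    have h2 : {x | x ∈ Gd R (Fin N) (U ∪ D) ∧ ∀ i, x i ∈ U ↔ i ∈ s} =
        Gd R (Fin N) (U ∪ D) ∩ ⋂ i, {x : Fin N → X | x i ∈ U ↔ i ∈ s} := by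
      ext x; simp [Set.mem_iInter]
    rw [h2]
    refine (Gd_meas hR _ (hU.union hD)).inter (MeasurableSet.iInter fun i => ?_)
    by_cases hi : i ∈ s
    · have : {x : Fin N → X | x i ∈ U ↔ i ∈ s} = (fun x : Fin N → X => x i) ⁻¹' U := by
        ext x; simp [hi]
      rw [this]; exact measurable_pi_apply i hU
    · have : {x : Fin N → X | x i ∈ U ↔ i ∈ s} = (fun x : Fin N → X => x i) ⁻¹' Uᶜ := by
        ext x; simp [hi]
      rw [this]; exact measurable_pi_apply i hU.compl
  have hdis : Pairwise (Function.onFun Disjoint fun s : Finset (Fin N) =>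
      {x | x ∈ Gd R (Fin N) (U ∪ D) ∧ ∀ i, x i ∈ U ↔ i ∈ s}) := by
    intro s t hst
    rw [Function.onFun, Set.disjoint_left]
    rintro x ⟨_, hx⟩ ⟨_, hx'⟩
    apply hst
    ext i
    rw [← hx i, ← hx' i]
  conv_lhs => rw [h1]
  rw [lintegral_iUnion hmeas hdis, tsum_fintype]
  rw [sum_congr rfl fun s _ => part_eq_G μ hR hsymm hU hD hUD G hG N s]
  have h3 := Finset.sum_powerset_apply_card (x := (univ : Finset (Fin N)))
    (fun n => ∫⁻ a in Gd R (Fin n) U,
    G (Set.range a) * Zn μ R (Fin (N - n)) (away R a D) ∂(Measure.pi fun _ => μ))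
  rw [powerset_univ] at h3
  rw [h3, card_univ, Fintype.card_fin]
  refine sum_congr rfl fun n _ => ?_
  rw [nsmul_eq_mul]

/-- **Splitting of local functionals.** -/
theorem Ex_union (μ : Measure X) [SigmaFinite μ] {R : X → X → Prop}
    (hR : MeasurableSet {p : X × X | R p.1 p.2}) (hsymm : ∀ u v, R u v → R v u) (z : NNReal)
    {U D : Set X} (hU : MeasurableSet U) (hD : MeasurableSet D) (hUD : Disjoint U D)
    (G : Set X → ℝ≥0∞) (hG : ∀ n : ℕ, Measurable fun a : Fin n → X => G (Set.range a)) :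
    Ex μ R z (U ∪ D) (fun _ x => G (Set.range x ∩ U)) =
      Ex μ R z U (fun _ a => G (Set.range a) * Xi μ R z (away R a D)) := by
  unfold Ex
  set m : ℕ → ℕ → ℝ≥0∞ := fun n k => ∫⁻ a in Gd R (Fin n) U,
    G (Set.range a) * Zn μ R (Fin k) (away R a D) ∂(Measure.pi fun _ => μ) with hm
  set f : ℕ × ℕ → ℝ≥0∞ := fun p => ((z : ℝ≥0∞) ^ p.1 / (p.1.factorial : ℝ≥0∞)) *
    (((z : ℝ≥0∞) ^ p.2 / (p.2.factorial : ℝ≥0∞)) * m p.1 p.2) with hf
  have h1 : ∀ N : ℕ, ((z : ℝ≥0∞) ^ N / (N.factorial : ℝ≥0∞)) *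
      ∫⁻ x in Gd R (Fin N) (U ∪ D), G (Set.range x ∩ U) ∂(Measure.pi fun _ : Fin N => μ) =
      ∑ p ∈ antidiagonal N, f p := by
    intro N
    rw [lint_union_G μ hR hsymm hU hD hUD G hG N,
      Finset.Nat.sum_antidiagonal_eq_sum_range_succ_mk, mul_sum]
    refine sum_congr rfl fun n hn => ?_
    have hnN : n ≤ N := by
      have := mem_range.1 hn
      omega
    obtain ⟨k, rfl⟩ := Nat.exists_eq_add_of_le hnN
    rw [Nat.add_sub_cancel_left, ← mul_assoc, fact_split, hf]
    dsimp only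
    rw [mul_assoc]
  have h2 : ∑' N : ℕ, ∑ p ∈ antidiagonal N, f p = ∑' p : ℕ × ℕ, f p := by
    rw [← HasAntidiagonal.sigmaAntidiagonalEquivProd.tsum_eq, ENNReal.tsum_sigma']
    refine tsum_congr fun N => ?_
    rw [tsum_fintype, ← Finset.sum_coe_sort]
    rfl
  rw [tsum_congr h1, h2, ENNReal.tsum_prod']
  refine tsum_congr fun n => ?_
  rw [hf]
  dsimp only
  rw [ENNReal.tsum_mul_left]
  congr 1
  unfold Xi
  have hZ : ∀ k : ℕ, Measurable fun a : Fin n → X => Zn μ R (Fin k) (away R a D) := fun k =>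
    Zn_sec_meas μ hR (Fin k) (away_sec (ι := Fin n) hR hD)
  simp only [← ENNReal.tsum_mul_left]
  rw [lintegral_tsum]
  · refine tsum_congr fun k => ?_
    have hGZ : Measurable fun a : Fin n → X => G (Set.range a) *
        Zn μ R (Fin k) (away R a D) := (hG n).mul (hZ k)
    show _ * ∫⁻ a in Gd R (Fin n) U, G (Set.range a) * Zn μ R (Fin k) (away R a D)
      ∂(Measure.pi fun _ => μ) = _
    rw [← lintegral_const_mul _ hGZ]
    refine lintegral_congr fun a => ?_
    ring
  · intro k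
    exact ((hG n).mul ((hZ k).const_mul _)).aemeasurable

end Pool.Agent.U279.PG
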