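import Pool.Agent.U279.PG.Dens
import Pool.Agent.U279.PG.Loc

/-!
The density is close to the mean field density at most places.
-/

set_option autoImplicit false
set_option linter.unusedSectionVars false
open Filter Topology MeasureTheory

namespace Pool.Agent.U279.PG
open Pool.Agent.K4H61.HS
open Pool.Agent.U279.KT (cube cube_meas cube_vol cube_lt config_meas inner inner_vol)

variable {d : ℕ}

theorem phi_nonneg {s : ℝ} (hs : 0 ≤ s) : (1 - Real.exp (-s)) ^ 2 ≤ 2 * (Real.exp (-s) - 1 + s) := by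
  set φ : ℝ → ℝ := fun s => 2 * (Real.exp (-s) - 1 + s) - (1 - Real.exp (-s)) ^ 2 with hφ
  have hd : ∀ s, HasDerivAt φ (2 * (1 - Real.exp (-s)) ^ 2) s := by
    intro s
    have h1 : HasDerivAt (fun s : ℝ => Real.exp (-s)) (-Real.exp (-s)) s := by
      have := (hasDerivAt_neg s).exp
      simpa using this
    have h2 := (((h1.sub_const 1).add (hasDerivAt_id s)).const_mul 2).sub
      ((h1.const_sub 1).pow 2)
    refine h2.congr_deriv ?_
    push_cast
    ring
  have hmono : Monotone φ := by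
    refine monotone_of_deriv_nonneg (fun s => (hd s).differentiableAt) fun s => ?_
    rw [(hd s).deriv]
    positivity
  have h0 : φ 0 = 0 := by simp [hφ]
  have := hmono hs
  rw [h0] at this
  simp only [hφ] at this
  linarith

theorem pos_part_ineq {w s τ : ℝ} (hτ : 0 < τ) (hw : Real.exp (-s) ≤ w) :
    max (1 - w) 0 ≤ τ / 2 + (w - 1 + s) / τ := by
  have h0 : 0 ≤ w - 1 + s := by
    have := Real.add_one_le_exp (-s)
    linarith
  refine max_le ?_ (by positivity)
  rcases le_or_gt 1 w with h1 | h1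
  · have : 0 ≤ (w - 1 + s) / τ := by positivity
    linarith
  · have hs : 0 < s := by
      by_contra hcon
      push Not at hcon
      have : 1 ≤ Real.exp (-s) := Real.one_le_exp (by linarith)
      linarith
    have h2 := phi_nonneg hs.le
    set a := 1 - Real.exp (-s) with ha
    have h3 : 1 - w ≤ a := by rw [ha]; linarith
    have h4 : a ^ 2 ≤ 2 * (w - 1 + s) := by
      refine h2.trans ?_
      linarith
    have h5 : a * τ ≤ τ ^ 2 / 2 + a ^ 2 / 2 := by nlinarith [sq_nonneg (a - τ)]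
    have h6 : (1 - w) * τ ≤ τ ^ 2 / 2 + (w - 1 + s) := by
      have := mul_le_mul_of_nonneg_right h3 hτ.le
      linarith
    have h7 : 1 - w ≤ (τ ^ 2 / 2 + (w - 1 + s)) / τ := by
      rw [le_div_iff₀ hτ]
      exact h6
    refine h7.trans (le_of_eq ?_)
    field_simp

/-- lower bound for the density at a point -/
theorem rho_ge (r ρ : ℝ) (hr : 0 < r) (z : NNReal) (hz : (z : ℝ) = ρ * Real.exp (ρ * bv d r))
    {W : Set (Fin d → ℝ)} (hW : MeasurableSet W) (hWt : volume W ≠ ⊤) (σ : ℝ)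
    (hσ : σ = z * bv d (√(3 / 4) * r)) (hσ1 : 2 * σ < 1) (x : Fin d → ℝ) :
    ρ * Real.exp (-((1 - 2 * σ)⁻¹ *
      (∫⁻ w in W ∩ {y | cl d r x y}, rho volume (cl d r) z W w).toReal - ρ * bv d r)) ≤
      (rho volume (cl d r) z W x).toReal := by
  have hB : MeasurableSet {y | cl d r x y} := nb_meas (cl_meas r) x
  have hbv0 : 0 ≤ bv d (√(3 / 4) * r) := ENNReal.toReal_nonneg
  have h1 := hole (μ := volume) (cl_meas (d := d) r) (cl_symm r) z hW (hW.inter hB)
    Set.inter_subset_left hWt (κ := 2 * (1 : ℕ) * bv d (√(3 / 4) * r)) (δ := 2 * σ) (by positivity)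
    (by rw [hσ]; push_cast; linarith) hσ1 (fun F hF hFm => by
      refine sparse r hr (fun _ : Fin 1 => x) hFm fun y hy => ⟨0, ?_⟩
      exact (hF hy).2)
  rw [Set.sdiff_self_inter] at h1
  have hX := Xi_ne_top volume (cl d r) z hWt
  have hX1 := one_le_Xi volume (cl d r) z W
  have hX0 : Xi volume (cl d r) z W ≠ 0 := (lt_of_lt_of_le zero_lt_one hX1).ne'
  have hY : Xi volume (cl d r) z (W \ {y | cl d r x y}) ≠ ⊤ :=
    ne_top_of_le_ne_top hX (Xi_mono volume (cl d r) z Set.sdiff_subset)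
  set c := (1 - 2 * σ)⁻¹ *
      (∫⁻ w in W ∩ {y | cl d r x y}, rho volume (cl d r) z W w).toReal with hc
  have h2 := ENNReal.toReal_mono (ENNReal.mul_ne_top ENNReal.ofReal_ne_top hY) h1
  rw [ENNReal.toReal_mul, ENNReal.toReal_ofReal (Real.exp_pos _).le] at h2
  have hXr : 0 < (Xi volume (cl d r) z W).toReal := ENNReal.toReal_pos hX0 hX
  unfold rho
  rw [ENNReal.toReal_div, ENNReal.toReal_mul, ENNReal.coe_toReal, le_div_iff₀ hXr, hz]
  have h3 : Real.exp (-(c - ρ * bv d r)) = Real.exp (ρ * bv d r) * Real.exp (-c) := by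
    rw [← Real.exp_add]; congr 1; ring
  rw [h3]
  have hz0 : 0 ≤ ρ * Real.exp (ρ * bv d r) := by rw [← hz]; exact NNReal.coe_nonneg z
  have h4 : Real.exp (-c) * (Xi volume (cl d r) z W).toReal ≤
      (Xi volume (cl d r) z (W \ {y | cl d r x y})).toReal := by
    have := mul_le_mul_of_nonneg_left h2 (Real.exp_pos (-c)).le
    rwa [← mul_assoc, ← Real.exp_add, neg_add_cancel, Real.exp_zero, one_mul] at this
  have := mul_le_mul_of_nonneg_left h4 hz0
  linarith

theorem rho_meas (r : ℝ) (z : NNReal) {W : Set (Fin d → ℝ)} (hW : MeasurableSet W) :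
    Measurable (rho volume (cl d r) z W) := by
  have hsec : MeasurableSet {p : (Fin d → ℝ) × (Fin d → ℝ) | p.2 ∈ W \ {y | cl d r p.1 y}} := by
    have : {p : (Fin d → ℝ) × (Fin d → ℝ) | p.2 ∈ W \ {y | cl d r p.1 y}} =
        (Prod.snd ⁻¹' W) \ {p : (Fin d → ℝ) × (Fin d → ℝ) | cl d r p.1 p.2} := by
      ext p; simp
    rw [this]
    exact (measurable_snd hW).diff (cl_meas r)
  unfold rho
  exact ((Xi_sec_meas volume (cl_meas r) z hsec).const_mul _).div_const _

/-- averages over balls -/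
theorem avg_ball (r : ℝ) {f : (Fin d → ℝ) → ENNReal} (hf : Measurable f)
    {A W : Set (Fin d → ℝ)} (hW : MeasurableSet W) :
    ∫⁻ x in A, ∫⁻ w in W ∩ {y | cl d r x y}, f w ≤
      ENNReal.ofReal (bv d r) * ∫⁻ w in W, f w := by
  have h1 : ∀ x, ∫⁻ w in W ∩ {y | cl d r x y}, f w = ∫⁻ w in W,
      Set.indicator {p : (Fin d → ℝ) × (Fin d → ℝ) | cl d r p.1 p.2} (fun p => f p.2) (x, w) := by
    intro x
    have hB : MeasurableSet {y | cl d r x y} := nb_meas (cl_meas r) x
    have e : ∀ w, Set.indicator {p : (Fin d → ℝ) × (Fin d → ℝ) | cl d r p.1 p.2}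
        (fun p => f p.2) (x, w) = Set.indicator {y | cl d r x y} f w := by
      intro w
      simp only [Set.indicator, Set.mem_ofPred_eq]
    simp only [e]
    rw [setLIntegral_indicator hB, Set.inter_comm]
  simp only [h1]
  have hjm : Measurable (Set.indicator {p : (Fin d → ℝ) × (Fin d → ℝ) | cl d r p.1 p.2}
      (fun p => f p.2)) := (hf.comp measurable_snd).indicator (cl_meas r)
  rw [lintegral_lintegral_swap (f := fun x w => Set.indicator
    {p : (Fin d → ℝ) × (Fin d → ℝ) | cl d r p.1 p.2} (fun p => f p.2) (x, w)) hjm.aemeasurable,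
    ← lintegral_const_mul _ hf]
  refine lintegral_mono fun w => ?_
  have e : ∀ x, Set.indicator {p : (Fin d → ℝ) × (Fin d → ℝ) | cl d r p.1 p.2}
      (fun p => f p.2) (x, w) = Set.indicator {x | cl d r x w} (fun _ => f w) x := by
    intro x
    simp only [Set.indicator, Set.mem_ofPred_eq]
  simp only [e]
  have hB : MeasurableSet {x | cl d r x w} := measurable_prodMk_right (y := w) (cl_meas r)
  have hBe : {x | cl d r x w} = {x | cl d r w x} := by
    ext x
    exact ⟨fun h => cl_symm r _ _ h, fun h => cl_symm r _ _ h⟩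
  calc ∫⁻ x in A, Set.indicator {x | cl d r x w} (fun _ => f w) x
      ≤ ∫⁻ x, Set.indicator {x | cl d r x w} (fun _ => f w) x := setLIntegral_le_lintegral _ _
    _ = f w * volume {x | cl d r x w} := by
        rw [lintegral_indicator hB, setLIntegral_const]
    _ = _ := by rw [hBe, ball_vol, mul_comm]

/-- the density exceeds the mean field density at few places only -/
theorem excess (r ρ L t : ℝ) (hr : 0 < r) (hρ : 0 < ρ) (hL : 0 < L) (ht : 0 < t) (ht8 : t ≤ 1 / 8)
    (z : NNReal) (hz : (z : ℝ) = ρ * Real.exp (ρ * bv d r)) {W : Set (Fin d → ℝ)}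
    (hW : Region d r L W) (σ : ℝ) (hσ : σ = z * bv d (√(3 / 4) * r)) (hσt : 16 * σ ≤ t)
    (hI : ∫⁻ x in W, rho volume (cl d r) z W x ≤ ENNReal.ofReal (ρ * (1 + 2 * t) * L ^ d))
    (hvol : (1 - t) * L ^ d ≤ (volume W).toReal) :
    ∫⁻ x in W, (rho volume (cl d r) z W x - ENNReal.ofReal ρ) ≤
      ENNReal.ofReal (6 * (1 + ρ * bv d r) * √t * (ρ * L ^ d)) := by
  have hWt := W_lt hW
  have hB0 : 0 < bv d r := bv_pos d hr
  set B := bv d r with hB
  set lam := ρ * B with hlam
  have hlam0 : 0 < lam := by positivity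
  have hbv0 : 0 ≤ bv d (√(3 / 4) * r) := ENNReal.toReal_nonneg
  have hσ0 : 0 ≤ σ := by rw [hσ]; positivity
  have hLd : 0 < L ^ d := by positivity
  set τ := √t with hτ
  have hτ0 : 0 < τ := Real.sqrt_pos.2 ht
  have hτ2 : τ ^ 2 = t := Real.sq_sqrt ht.le
  have hτ1 : τ ≤ 3 / 8 := by nlinarith
  set f := rho volume (cl d r) z W with hf
  have hfm : Measurable f := rho_meas r z hW.1
  have hft : ∀ x, f x ≠ ⊤ := fun x => ne_top_of_le_ne_top ENNReal.coe_ne_top (rho_le r z hWt x)
  set I := ∫⁻ x in W, f x with hIdef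
  have hIt : I ≠ ⊤ := rho_int_ne_top r z hWt
  set g : (Fin d → ℝ) → ENNReal := fun x => ∫⁻ w in W ∩ {y | cl d r x y}, f w with hg
  have hgI : ∀ x, g x ≤ I := fun x => lintegral_mono_set Set.inter_subset_left
  have hgt : ∀ x, g x ≠ ⊤ := fun x => ne_top_of_le_ne_top hIt (hgI x)
  set γ := (1 - 2 * σ)⁻¹ with hγ
  have h12 : 0 < 1 - 2 * σ := by linarith
  have hγ1 : γ ≤ 1 + 4 * σ := by
    rw [hγ, inv_le_iff_one_le_mul₀ h12]
    nlinarith
  have hγ0 : 0 < γ := by positivity
  set P : (Fin d → ℝ) → ENNReal := fun x => ENNReal.ofReal (max (1 - (f x).toReal / ρ) 0) with hP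
  have hPm : Measurable P := by
    refine ENNReal.measurable_ofReal.comp ?_
    exact (measurable_const.sub ((hfm.ennreal_toReal).div_const ρ)).max measurable_const
  -- the pointwise inequality
  have hpt : ∀ x, P x + ENNReal.ofReal ((1 + lam) / τ) ≤ ENNReal.ofReal (τ / 2) +
      (ENNReal.ofReal (1 / (τ * ρ)) * f x + ENNReal.ofReal (γ / τ) * g x) := by
    intro x
    have h1 := rho_ge r ρ hr z hz hW.1 hWt σ hσ (by linarith) x
    rw [← hγ, ← hB, ← hlam, ← hf] at h1
    have h2 : Real.exp (-(γ * (g x).toReal - lam)) ≤ (f x).toReal / ρ := by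
      rw [le_div_iff₀ hρ, mul_comm]
      exact h1
    have h3 := pos_part_ineq hτ0 h2
    have h4 : ENNReal.ofReal (1 / (τ * ρ)) * f x + ENNReal.ofReal (γ / τ) * g x =
        ENNReal.ofReal (1 / (τ * ρ) * (f x).toReal + γ / τ * (g x).toReal) := by
      rw [ENNReal.ofReal_add (by positivity) (by positivity), ENNReal.ofReal_mul (by positivity),
        ENNReal.ofReal_mul (by positivity), ENNReal.ofReal_toReal (hft x),
        ENNReal.ofReal_toReal (hgt x)]
    rw [h4, ← ENNReal.ofReal_add (le_max_right _ _) (by positivity),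
      ← ENNReal.ofReal_add (by positivity) (by positivity)]
    refine ENNReal.ofReal_le_ofReal ?_
    have h5 : (((f x).toReal / ρ) - 1 + (γ * (g x).toReal - lam)) / τ + (1 + lam) / τ =
        1 / (τ * ρ) * (f x).toReal + γ / τ * (g x).toReal := by
      field_simp
      ring
    linarith
  have hgm : Measurable g := by
    have h1 : ∀ x, g x = ∫⁻ w in W,
      Set.indicator {p : (Fin d → ℝ) × (Fin d → ℝ) | cl d r p.1 p.2} (fun p => f p.2) (x, w) := by
      intro x
      have hBm : MeasurableSet {y | cl d r x y} := nb_meas (cl_meas r) x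
      have e : ∀ w, Set.indicator {p : (Fin d → ℝ) × (Fin d → ℝ) | cl d r p.1 p.2}
          (fun p => f p.2) (x, w) = Set.indicator {y | cl d r x y} f w := by
        intro w
        simp only [Set.indicator, Set.mem_ofPred_eq]
      simp only [e, hg]
      rw [setLIntegral_indicator hBm, Set.inter_comm]
    have h2 : g = fun x => ∫⁻ w in W,
      Set.indicator {p : (Fin d → ℝ) × (Fin d → ℝ) | cl d r p.1 p.2} (fun p => f p.2) (x, w) :=
      funext h1
    rw [h2]
    exact Measurable.lintegral_prod_right' ((hfm.comp measurable_snd).indicator (cl_meas r))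
  have hgint : ∫⁻ x in W, g x ≤ ENNReal.ofReal B * I := avg_ball r hfm hW.1
  -- integrate
  set J := ∫⁻ x in W, P x with hJ
  set V := volume W with hV
  have hJt : J ≠ ⊤ := by
    have h1 : J ≤ 1 * V := by
      rw [hJ, hV, ← setLIntegral_const]
      refine lintegral_mono fun x => ?_
      rw [hP]
      dsimp only
      rw [← ENNReal.ofReal_one]
      refine ENNReal.ofReal_le_ofReal (max_le ?_ zero_le_one)
      have : 0 ≤ (f x).toReal / ρ := by positivity
      linarith
    exact ne_top_of_le_ne_top (ENNReal.mul_ne_top ENNReal.one_ne_top hWt) h1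
  have hint : J + ENNReal.ofReal ((1 + lam) / τ) * V ≤ ENNReal.ofReal (τ / 2) * V +
      (ENNReal.ofReal (1 / (τ * ρ)) * I + ENNReal.ofReal (γ / τ) * (ENNReal.ofReal B * I)) := by
    calc J + ENNReal.ofReal ((1 + lam) / τ) * V =
        ∫⁻ x in W, (P x + ENNReal.ofReal ((1 + lam) / τ)) := by
          rw [lintegral_add_left hPm, setLIntegral_const]
      _ ≤ ∫⁻ x in W, (ENNReal.ofReal (τ / 2) +
          (ENNReal.ofReal (1 / (τ * ρ)) * f x + ENNReal.ofReal (γ / τ) * g x)) :=
          lintegral_mono hpt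
      _ = ENNReal.ofReal (τ / 2) * V + (ENNReal.ofReal (1 / (τ * ρ)) * I +
          ENNReal.ofReal (γ / τ) * ∫⁻ x in W, g x) := by
          rw [lintegral_add_left measurable_const, setLIntegral_const,
            lintegral_add_left (hfm.const_mul _), lintegral_const_mul _ hfm,
            lintegral_const_mul _ hgm]
      _ ≤ _ := by gcongr
  have hI' : I.toReal ≤ ρ * (1 + 2 * t) * L ^ d :=
    ENNReal.toReal_le_of_le_ofReal (by positivity) hI
  have hVL : V.toReal ≤ L ^ d := by
    refine ENNReal.toReal_le_of_le_ofReal hLd.le ?_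
    rw [← cube_vol d hL.le]
    exact measure_mono hW.2.2
  have hintr : J.toReal + (1 + lam) / τ * V.toReal ≤ τ / 2 * V.toReal +
      (1 / (τ * ρ) * I.toReal + γ / τ * (B * I.toReal)) := by
    have t1 : ENNReal.ofReal (1 / (τ * ρ)) * I ≠ ⊤ := ENNReal.mul_ne_top ENNReal.ofReal_ne_top hIt
    have t2 : ENNReal.ofReal (γ / τ) * (ENNReal.ofReal B * I) ≠ ⊤ :=
      ENNReal.mul_ne_top ENNReal.ofReal_ne_top (ENNReal.mul_ne_top ENNReal.ofReal_ne_top hIt)
    have t3 : ENNReal.ofReal (τ / 2) * V ≠ ⊤ := ENNReal.mul_ne_top ENNReal.ofReal_ne_top hWt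
    have t4 : ENNReal.ofReal ((1 + lam) / τ) * V ≠ ⊤ :=
      ENNReal.mul_ne_top ENNReal.ofReal_ne_top hWt
    have h1 := ENNReal.toReal_mono (ENNReal.add_ne_top.2 ⟨t3, ENNReal.add_ne_top.2 ⟨t1, t2⟩⟩) hint
    rw [ENNReal.toReal_add hJt t4, ENNReal.toReal_add t3 (ENNReal.add_ne_top.2 ⟨t1, t2⟩),
      ENNReal.toReal_add t1 t2, ENNReal.toReal_mul, ENNReal.toReal_mul, ENNReal.toReal_mul,
      ENNReal.toReal_mul, ENNReal.toReal_mul, ENNReal.toReal_ofReal (by positivity),
      ENNReal.toReal_ofReal (by positivity), ENNReal.toReal_ofReal (by positivity),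
      ENNReal.toReal_ofReal (by positivity), ENNReal.toReal_ofReal hB0.le] at h1
    exact h1
  -- numbers
  have hJ' : J.toReal ≤ (1 + lam) * (4 * τ) * L ^ d := by
    have e1 : 1 / (τ * ρ) * I.toReal + γ / τ * (B * I.toReal) ≤
        (1 + γ * lam) * (1 + 2 * t) * L ^ d / τ := by
      have e2 : 1 / (τ * ρ) * I.toReal + γ / τ * (B * I.toReal) =
          (1 / ρ + γ * B) / τ * I.toReal := by field_simp
      have e3 : (1 + γ * lam) * (1 + 2 * t) * L ^ d / τ =
          (1 / ρ + γ * B) / τ * (ρ * (1 + 2 * t) * L ^ d) := by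
        rw [hlam]; field_simp
      rw [e2, e3]
      gcongr
    have e4 : (1 + lam) / τ * ((1 - t) * L ^ d) ≤ (1 + lam) / τ * V.toReal := by gcongr
    have e5 : τ / 2 * V.toReal ≤ τ / 2 * L ^ d := by gcongr
    have e6 : J.toReal ≤ τ / 2 * L ^ d +
        ((1 + γ * lam) * (1 + 2 * t) - (1 + lam) * (1 - t)) * L ^ d / τ := by
      have : ((1 + γ * lam) * (1 + 2 * t) - (1 + lam) * (1 - t)) * L ^ d / τ =
          (1 + γ * lam) * (1 + 2 * t) * L ^ d / τ - (1 + lam) / τ * ((1 - t) * L ^ d) := by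
        field_simp
      linarith
    have e7 : (1 + γ * lam) * (1 + 2 * t) - (1 + lam) * (1 - t) ≤ (1 + lam) * (7 / 2 * t) := by
      have g1 : γ * lam ≤ (1 + t / 4) * lam := by
        refine mul_le_mul_of_nonneg_right ?_ hlam0.le
        linarith
      have g2 : (1 + γ * lam) * (1 + 2 * t) ≤ (1 + (1 + t / 4) * lam) * (1 + 2 * t) :=
        mul_le_mul_of_nonneg_right (by linarith) (by linarith)
      have g3 : t * t * lam ≤ t * lam * (1 / 8) := by
        have := mul_le_mul_of_nonneg_left ht8 (by positivity : 0 ≤ t * lam)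
        linarith
      have g4 : 0 ≤ t * lam := by positivity
      nlinarith
    have e8 : ((1 + γ * lam) * (1 + 2 * t) - (1 + lam) * (1 - t)) * L ^ d / τ ≤
        (1 + lam) * (7 / 2 * t) * L ^ d / τ := by gcongr
    have e9 : (1 + lam) * (7 / 2 * t) * L ^ d / τ = (1 + lam) * (7 / 2 * τ) * L ^ d := by
      rw [← hτ2]; field_simp
    have e10 : τ / 2 * L ^ d ≤ (1 + lam) * (τ / 2) * L ^ d := by
      have : 0 ≤ lam * (τ / 2) * L ^ d := by positivity
      nlinarith
    calc J.toReal ≤ (1 + lam) * (τ / 2) * L ^ d + (1 + lam) * (7 / 2 * τ) * L ^ d := by linarith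
      _ = _ := by ring
  -- the excess
  set E := ∫⁻ x in W, (f x - ENNReal.ofReal ρ) with hE
  have hEm : Measurable fun x => f x - ENNReal.ofReal ρ := hfm.sub_const _
  have hEt : E ≠ ⊤ := ne_top_of_le_ne_top hIt (lintegral_mono fun x => tsub_le_self)
  have hpt2 : ∀ x, (f x - ENNReal.ofReal ρ) + ENNReal.ofReal ρ ≤ f x + ENNReal.ofReal ρ * P x := by
    intro x
    have h1 : f x = ENNReal.ofReal (f x).toReal := (ENNReal.ofReal_toReal (hft x)).symm
    have h2 : ENNReal.ofReal ρ * P x = ENNReal.ofReal (ρ * max (1 - (f x).toReal / ρ) 0) := by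
      rw [hP, ENNReal.ofReal_mul hρ.le]
    rw [h2]
    rw [h1, ENNReal.toReal_ofReal ENNReal.toReal_nonneg,
      ← ENNReal.ofReal_sub _ hρ.le, ← ENNReal.ofReal_add ENNReal.toReal_nonneg (by positivity)]
    set w := (f x).toReal with hw
    have hw0 : 0 ≤ w := ENNReal.toReal_nonneg
    rcases le_or_gt ρ w with h | h
    · rw [← ENNReal.ofReal_add (by linarith) hρ.le]
      refine ENNReal.ofReal_le_ofReal ?_
      have : 0 ≤ ρ * max (1 - w / ρ) 0 := by positivity
      linarith
    · rw [ENNReal.ofReal_of_nonpos (by linarith : w - ρ ≤ 0), zero_add]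
      refine ENNReal.ofReal_le_ofReal ?_
      have h3 : 1 - w / ρ ≤ max (1 - w / ρ) 0 := le_max_left _ _
      have h4 := mul_le_mul_of_nonneg_left h3 hρ.le
      have h5 : ρ * (1 - w / ρ) = ρ - w := by field_simp
      linarith
  have hint2 : E + ENNReal.ofReal ρ * V ≤ I + ENNReal.ofReal ρ * J := by
    calc E + ENNReal.ofReal ρ * V = ∫⁻ x in W, ((f x - ENNReal.ofReal ρ) + ENNReal.ofReal ρ) := by
          rw [lintegral_add_left hEm, setLIntegral_const]
      _ ≤ ∫⁻ x in W, (f x + ENNReal.ofReal ρ * P x) := lintegral_mono hpt2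
      _ = _ := by rw [lintegral_add_left hfm, lintegral_const_mul _ hPm]
  have hint2r : E.toReal + ρ * V.toReal ≤ I.toReal + ρ * J.toReal := by
    have t1 : ENNReal.ofReal ρ * V ≠ ⊤ := ENNReal.mul_ne_top ENNReal.ofReal_ne_top hWt
    have t2 : ENNReal.ofReal ρ * J ≠ ⊤ := ENNReal.mul_ne_top ENNReal.ofReal_ne_top hJt
    have h1 := ENNReal.toReal_mono (ENNReal.add_ne_top.2 ⟨hIt, t2⟩) hint2
    rw [ENNReal.toReal_add hEt t1, ENNReal.toReal_add hIt t2, ENNReal.toReal_mul,
      ENNReal.toReal_mul, ENNReal.toReal_ofReal hρ.le] at h1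
    exact h1
  rw [← ENNReal.ofReal_toReal hEt]
  refine ENNReal.ofReal_le_ofReal ?_
  have h1 : ρ * ((1 - t) * L ^ d) ≤ ρ * V.toReal := by gcongr
  have h2 : ρ * J.toReal ≤ ρ * ((1 + lam) * (4 * τ) * L ^ d) := by gcongr
  have h3 : 3 * t ≤ 2 * τ * (1 + lam) := by
    have : 3 * t ≤ 2 * τ := by
      rw [← hτ2]
      nlinarith
    have h4 : 0 ≤ τ * lam := by positivity
    nlinarith
  have h4 : 3 * t * (ρ * L ^ d) ≤ 2 * τ * (1 + lam) * (ρ * L ^ d) := by gcongr
  calc E.toReal ≤ ρ * (1 + 2 * t) * L ^ d + ρ * ((1 + lam) * (4 * τ) * L ^ d) -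
        ρ * ((1 - t) * L ^ d) := by linarith
    _ = 3 * t * (ρ * L ^ d) + (1 + lam) * (4 * τ) * (ρ * L ^ d) := by ring
    _ ≤ 2 * τ * (1 + lam) * (ρ * L ^ d) + (1 + lam) * (4 * τ) * (ρ * L ^ d) := by linarith
    _ = _ := by ring

end Pool.Agent.U279.PG
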