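import Pool.Agent.U279.PG.Win

/-!
The local law of the hard sphere gas at most places.
-/

set_option autoImplicit false
set_option linter.unusedSectionVars false
open Filter Topology MeasureTheory ENNReal

namespace Pool.Agent.U279.PG
open Pool.Agent.K4H61.HS
open Pool.Agent.U279.KT (cube cube_meas cube_vol cube_lt)

theorem box_eq (d : ℕ) (s L : ℝ) : {x : Fin d → ℝ | ∀ k, x k ∈ Set.Icc s (L - s)} =
    Set.univ.pi fun _ => Set.Icc s (L - s) := by
  ext x
  rw [Set.mem_univ_pi]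
  rfl

theorem box_meas (d : ℕ) (s L : ℝ) : MeasurableSet {x : Fin d → ℝ | ∀ k, x k ∈ Set.Icc s (L - s)} := by
  rw [box_eq]
  exact MeasurableSet.univ_pi fun _ => measurableSet_Icc

theorem box_vol (d : ℕ) {s L : ℝ} (h : 2 * s ≤ L) :
    volume {x : Fin d → ℝ | ∀ k, x k ∈ Set.Icc s (L - s)} = ENNReal.ofReal ((L - 2 * s) ^ d) := by
  rw [box_eq, volume_pi_pi]
  simp only [Real.volume_Icc, Finset.prod_const, Finset.card_univ, Fintype.card_fin]
  rw [ENNReal.ofReal_pow (by linarith)]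
  congr 2
  ring

theorem ev_pow (c : ℝ) (hc : 0 ≤ c) (d : ℕ) (δ : ℝ) (hδ : 0 < δ) :
    ∀ᶠ L : ℝ in atTop, 0 < L ∧ c ≤ L ∧ (1 - δ) * L ^ d ≤ (L - c) ^ d := by
  filter_upwards [eventually_ge_atTop 1, eventually_ge_atTop c,
    eventually_ge_atTop (d * c / δ)] with L h1 h2 h3
  have hL : 0 < L := by linarith
  refine ⟨hL, h2, ?_⟩
  have h4 : c / L ≤ 1 := (div_le_one hL).2 h2
  have h5 := one_add_mul_le_pow (a := -(c / L)) (by linarith) d
  have h6 : d * (c / L) ≤ δ := by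
    rw [div_le_iff₀ hδ] at h3
    rw [← mul_div_assoc, div_le_iff₀ hL]
    linarith
  have h7 : (L - c) ^ d = (1 + -(c / L)) ^ d * L ^ d := by
    rw [← mul_pow]
    congr 1
    field_simp
    ring
  rw [h7]
  refine mul_le_mul_of_nonneg_right ?_ (by positivity)
  linarith

variable {d : ℕ}

theorem bad_exists {M : ℕ} (r ρ L θ : ℝ) (hr : 0 < r) (hρ : 0 < ρ) (hL : 0 < L) (hθ : 0 < θ)
    (z : NNReal) (hz : (z : ℝ) = ρ * Real.exp (ρ * bv d r)) {W : Set (Fin d → ℝ)}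
    (hW : Region d r L W) (R₀ : ℝ) (hR : 0 ≤ R₀) {D : Set (Fin d → ℝ)} (hD : MeasurableSet D)
    (hDR : ∀ x ∈ D, ∀ k, |x k| ≤ R₀) (c : Fin M → Fin d → ℝ)
    (hc : D ⊆ {y | ∃ j, cl d r (c j) y}) (σ lam : ℝ) (hσ : σ = z * bv d (√(3 / 4) * r))
    (hlam : lam = ρ * bv d r) (h1 : 20 * σ * (1 + lam) ^ 3 * M ^ 2 ≤ θ) (E : ℝ) (hE0 : 0 ≤ E)
    (hE : ∫⁻ x in W, exc d r ρ z W x ≤ ENNReal.ofReal E)
    (h2 : 8 * (M * bv d r) * (1 + lam) * E ≤ θ ^ 2 * L ^ d)
    (h3 : (1 - θ / 2) * L ^ d ≤ (L - 2 * (r + R₀)) ^ d) (h4 : 2 * (r + R₀) ≤ L) :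
    ∃ Bad : Set (Fin d → ℝ), MeasurableSet Bad ∧
      volume Bad ≤ ENNReal.ofReal (θ * L ^ d) ∧
      ∀ y ∈ cube d L, y ∉ Bad → ∀ A : Set (Set (Fin d → ℝ)),
        (∀ n : ℕ, MeasurableSet {a : Fin n → Fin d → ℝ | Set.range a ∈ A}) →
        |(pE d r z W {x | x - y ∈ D} {S | {u | u + y ∈ S} ∈ A}).toReal -
          (pP d ρ D A).toReal| ≤ θ := by
  have hB0 : 0 ≤ bv d r := ENNReal.toReal_nonneg
  have hlam0 : 0 ≤ lam := by rw [hlam]; positivity
  have hbv0 : 0 ≤ bv d (√(3 / 4) * r) := ENNReal.toReal_nonneg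
  have hσ0 : 0 ≤ σ := by rw [hσ]; positivity
  have hWt := W_lt hW
  have hLd : 0 < L ^ d := by positivity
  set Φ : (Fin d → ℝ) → ℝ≥0∞ := fun y =>
    (∫⁻ x in {x | x - y ∈ D}, W.indicator (exc d r ρ z W) x) +
      ENNReal.ofReal ρ * ∫⁻ x in {x | x - y ∈ D}, nbe d r ρ z W x with hΦ
  have hw1 := lint_window hD ((exc_meas r ρ z hW.1).indicator hW.1)
  have hw2 := lint_window hD (nbe_meas r ρ z hW.1)
  have hΦm : Measurable Φ := hw1.1.add (hw2.1.const_mul _)
  have hΦint : ∫⁻ y, Φ y ≤ ENNReal.ofReal (M * bv d r * (1 + lam) * E) := by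
    have e1 : ∫⁻ y, Φ y = volume D * (∫⁻ x in W, exc d r ρ z W x) +
        ENNReal.ofReal ρ * (volume D * ∫⁻ x, nbe d r ρ z W x) := by
      rw [hΦ]
      rw [lintegral_add_left hw1.1, lintegral_const_mul _ hw2.1, hw1.2, hw2.2,
        lintegral_indicator hW.1]
    have e2 : ∫⁻ x, nbe d r ρ z W x ≤
        ENNReal.ofReal (bv d r) * ∫⁻ x in W, exc d r ρ z W x := by
      have := avg_ball (A := Set.univ) r (exc_meas r ρ z hW.1) hW.1
      rwa [Measure.restrict_univ] at this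
    have e3 := vol_cover r c hc
    calc ∫⁻ y, Φ y ≤ ENNReal.ofReal (M * bv d r) * ENNReal.ofReal E +
          ENNReal.ofReal ρ * (ENNReal.ofReal (M * bv d r) *
            (ENNReal.ofReal (bv d r) * ENNReal.ofReal E)) := by
          rw [e1]
          have e4 := e2.trans (mul_le_mul_right hE (ENNReal.ofReal (bv d r)))
          gcongr
      _ = ENNReal.ofReal (M * bv d r * (1 + lam) * E) := by
          rw [← ENNReal.ofReal_mul (by positivity), ← ENNReal.ofReal_mul hB0,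
            ← ENNReal.ofReal_mul (by positivity), ← ENNReal.ofReal_mul hρ.le,
            ← ENNReal.ofReal_add (by positivity) (by positivity)]
          congr 1
          rw [hlam]
          ring
  set T : Set (Fin d → ℝ) := {y | ENNReal.ofReal (θ / 4) ≤ Φ y} with hT
  have hTm : MeasurableSet T := measurableSet_le measurable_const hΦm
  have hTv : volume T ≤ ENNReal.ofReal (θ / 2 * L ^ d) := by
    have hθ4 : ENNReal.ofReal (θ / 4) ≠ 0 := by
      rw [Ne, ENNReal.ofReal_eq_zero, not_le]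
      positivity
    refine (meas_ge_le_lintegral_div hΦm.aemeasurable hθ4 ENNReal.ofReal_ne_top).trans ?_
    rw [ENNReal.div_le_iff hθ4 ENNReal.ofReal_ne_top, ← ENNReal.ofReal_mul (by positivity)]
    refine hΦint.trans (ENNReal.ofReal_le_ofReal ?_)
    nlinarith
  set Y₀ : Set (Fin d → ℝ) := {y | ∀ k, y k ∈ Set.Icc (r + R₀) (L - (r + R₀))} with hY₀
  have hY₀m : MeasurableSet Y₀ := box_meas d (r + R₀) L
  have hY₀v : volume Y₀ = ENNReal.ofReal ((L - 2 * (r + R₀)) ^ d) := box_vol d h4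
  have hY₀c : Y₀ ⊆ cube d L := by
    intro y hy k
    have := hy k
    exact ⟨by linarith [this.1], by linarith [this.2]⟩
  have hcm : MeasurableSet (cube d L) := cube_meas d L
  refine ⟨T ∪ (cube d L \ Y₀), hTm.union (hcm.diff hY₀m), ?_, ?_⟩
  · refine (measure_union_le _ _).trans ?_
    have h5 : volume (cube d L \ Y₀) ≤ ENNReal.ofReal (θ / 2 * L ^ d) := by
      rw [measure_sdiff hY₀c hY₀m.nullMeasurableSet
        (by rw [hY₀v]; exact ENNReal.ofReal_ne_top), cube_vol d hL.le, hY₀v,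
        ← ENNReal.ofReal_sub _ (by
          refine pow_nonneg ?_ d
          linarith)]
      refine ENNReal.ofReal_le_ofReal ?_
      linarith
    refine (add_le_add hTv h5).trans (le_of_eq ?_)
    rw [← ENNReal.ofReal_add (by positivity) (by positivity)]
    congr 1
    ring
  · intro y hy hyB A hA
    rw [Set.mem_union, not_or] at hyB
    have hyT : Φ y < ENNReal.ofReal (θ / 4) := not_le.1 hyB.1
    have hyY : y ∈ Y₀ := by
      by_contra hcon
      exact hyB.2 ⟨hy, hcon⟩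
    have hUW : {x | x - y ∈ D} ⊆ W := by
      intro x hx
      refine hW.2.1 fun k => ?_
      have e1 := abs_le.1 (hDR _ hx k)
      have e2 := hyY k
      rw [Pi.sub_apply] at e1
      exact ⟨by linarith [e1.1, e2.1], by linarith [e1.2, e2.2]⟩
    have hUm : MeasurableSet {x : Fin d → ℝ | x - y ∈ D} := (measurable_id.sub_const y) hD
    have hUc : {x | x - y ∈ D} ⊆ {x | ∃ j, cl d r ((fun j => c j + y) j) x} := by
      intro x hx
      obtain ⟨j, hj⟩ := hc hx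
      refine ⟨j, ?_⟩
      unfold cl at hj ⊢
      refine lt_of_eq_of_lt (Finset.sum_congr rfl fun k _ => ?_) hj
      simp only [Pi.add_apply, Pi.sub_apply]
      ring
    have e5 : ∫⁻ x in {x | x - y ∈ D}, W.indicator (exc d r ρ z W) x =
        ∫⁻ x in {x | x - y ∈ D}, exc d r ρ z W x := by
      refine setLIntegral_congr_fun hUm fun x hx => ?_
      exact Set.indicator_of_mem (hUW hx) _
    rw [← pP_shift hD y A]
    refine tv_event r ρ hr hρ z hz hW.1 hWt hUm hUW (fun j => c j + y) hUc σ lam θ hσ hlam hθ.le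
      ?_ (shift_meas hA y)
    have e6 : Φ y = (∫⁻ x in {x | x - y ∈ D}, exc d r ρ z W x) +
        ENNReal.ofReal ρ * ∫⁻ x in {x | x - y ∈ D}, nbe d r ρ z W x := by
      rw [← e5]
    rw [← e6]
    calc ENNReal.ofReal (10 * σ * (1 + lam) ^ 3 * M ^ 2) + 2 * Φ y
        ≤ ENNReal.ofReal (θ / 2) + 2 * ENNReal.ofReal (θ / 4) := by
          refine add_le_add (ENNReal.ofReal_le_ofReal (by linarith)) ?_
          exact mul_le_mul_right hyT.le _
      _ = ENNReal.ofReal θ := by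
          have e7 : (2 : ℝ≥0∞) = ENNReal.ofReal 2 := by norm_num
          rw [e7, ← ENNReal.ofReal_mul (by norm_num), ← ENNReal.ofReal_add (by positivity)
            (by positivity)]
          congr 1
          ring

theorem sigma_le (d : ℕ) {ε r ρ : ℝ} (hr : 0 < r) (hρ : 0 < ρ)
    (hlam : ρ * bv d r ≤ (eta - ε) * d) (z : NNReal)
    (hz : (z : ℝ) = ρ * Real.exp (ρ * bv d r)) :
    z * bv d (√(3 / 4) * r) ≤ ρ * bv d r * Real.exp (-(ε * d)) := by
  have hB0 := bv_pos d hr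
  have h34 : 0 < √(3 / 4) := Real.sqrt_pos.2 (by norm_num)
  have h1 : bv d (√(3 / 4) * r) = Real.exp (-(eta * d)) * bv d r := by
    rw [bv_scale d (by positivity : 0 < √(3 / 4) * r), bv_scale d hr, mul_pow, ← eta_eq,
      ← Real.exp_nat_mul]
    have : (d : ℝ) * -eta = -(eta * d) := by ring
    rw [this]
    ring
  rw [h1, hz]
  have h2 : Real.exp (ρ * bv d r) * Real.exp (-(eta * d)) ≤ Real.exp (-(ε * d)) := by
    rw [← Real.exp_add]
    refine Real.exp_le_exp.2 ?_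
    linarith
  calc ρ * Real.exp (ρ * bv d r) * (Real.exp (-(eta * d)) * bv d r)
      = ρ * bv d r * (Real.exp (ρ * bv d r) * Real.exp (-(eta * d))) := by ring
    _ ≤ _ := by gcongr

/-- **The local law.** -/
theorem local_law (ε : ℝ) (hε : 0 < ε) : ∀ᶠ d : ℕ in atTop, ∀ r : ℝ, 0 < r → ∀ ρ : ℝ, 0 < ρ →
    ρ * bv d r ≤ (eta - ε) * d → ∀ z : NNReal, (z : ℝ) = ρ * Real.exp (ρ * bv d r) →
    ∀ R₀ : ℝ, ∀ᶠ L : ℝ in atTop, ∀ W, Region d r L W → ∀ D : Set (Fin d → ℝ),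
    MeasurableSet D → (∀ x ∈ D, ∀ k, |x k| ≤ R₀) → ∀ M : ℕ,
    (M : ℝ) ≤ Real.exp (ε / 100 * d) → ∀ c : Fin M → Fin d → ℝ,
    D ⊆ {y | ∃ j, cl d r (c j) y} → ∃ Bad : Set (Fin d → ℝ), MeasurableSet Bad ∧
      volume Bad ≤ ENNReal.ofReal (Real.exp (-(ε / 100 * d)) * L ^ d) ∧
      ∀ y ∈ cube d L, y ∉ Bad → ∀ A : Set (Set (Fin d → ℝ)),
        (∀ n : ℕ, MeasurableSet {a : Fin n → Fin d → ℝ | Set.range a ∈ A}) →
        |(pE d r z W {x | x - y ∈ D} {S | {u | u + y ∈ S} ∈ A}).toReal -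
          (pP d ρ D A).toReal| ≤ Real.exp (-(ε / 100 * d)) := by
  have heta := eta_le
  have heta0 := eta_pos
  filter_upwards [eventually_ge_atTop 1, dens_bound ε hε,
    exp_small 192 (ε / 24 - ε / 100) (ε / 50) 3 (by linarith),
    exp_small 160 (ε * (49 / 50)) (ε / 100) 4 (by linarith),
    exp_small 16 ε (ε / 12) 1 (by linarith),
    exp_small 8 (ε / 12) 0 0 (by linarith)] with d hd hDB E1 E2 E3 E4
  intro r hr ρ hρ hlam z hz R₁
  set R₀ := max R₁ 0 with hR₀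
  have hR0 : 0 ≤ R₀ := le_max_right _ _
  set θ := Real.exp (-(ε / 100 * (d : ℝ))) with hθ
  set t := Real.exp (-(ε / 12 * (d : ℝ))) with ht
  have hθ0 : 0 < θ := Real.exp_pos _
  have ht0 : 0 < t := Real.exp_pos _
  have hdr : (1 : ℝ) ≤ d := by exact_mod_cast hd
  have hB0 : 0 < bv d r := bv_pos d hr
  filter_upwards [hDB r hr ρ hρ hlam z hz, ev_pow (2 * (r + R₀)) (by positivity) d (θ / 2)
    (by positivity), ev_pow (2 * r) (by positivity) d t ht0] with L hI hL1 hL2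
  intro W hW D hD hDR M hM c hc
  obtain ⟨hL, h4, h3⟩ := hL1
  obtain ⟨-, h5, h6⟩ := hL2
  set lam := ρ * bv d r with hlamdef
  have hlam0 : 0 < lam := by positivity
  have hlamd : lam ≤ d := by
    have : (eta - ε) * (d : ℝ) ≤ 1 * d := by gcongr; linarith
    linarith
  have hlam1 : 1 + lam ≤ 2 * d := by linarith
  set σ := z * bv d (√(3 / 4) * r) with hσ
  have hσ1 : σ ≤ lam * Real.exp (-(ε * d)) := sigma_le d hr hρ hlam z hz
  have hσ2 : σ ≤ d * Real.exp (-(ε * d)) :=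
    hσ1.trans (mul_le_mul_of_nonneg_right hlamd (Real.exp_pos _).le)
  have hbv0 : 0 ≤ bv d (√(3 / 4) * r) := ENNReal.toReal_nonneg
  have hσ0 : 0 ≤ σ := by positivity
  rw [pow_one] at E3
  have ht8 : t ≤ 1 / 8 := by
    rw [pow_zero, zero_mul, neg_zero, Real.exp_zero] at E4
    linarith
  have hσt : 16 * σ ≤ t := by linarith
  have hLd : 0 < L ^ d := by positivity
  have hvol : (1 - t) * L ^ d ≤ (volume W).toReal := by
    refine h6.trans ?_
    have e1 : volume {x : Fin d → ℝ | ∀ k, x k ∈ Set.Icc r (L - r)} ≤ volume W :=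
      measure_mono hW.2.1
    rw [box_vol d h5] at e1
    exact (ENNReal.ofReal_le_iff_le_toReal (W_lt hW)).1 e1
  have hex := excess r ρ L t hr hρ hL ht0 ht8 z hz hW σ hσ hσt (hI W hW) hvol
  have hst : √t = Real.exp (-(ε / 24 * (d : ℝ))) := by
    rw [Real.sqrt_eq_iff_mul_self_eq (Real.exp_pos _).le (Real.exp_pos _).le, ← Real.exp_add]
    congr 1
    ring
  have hM0 : (0 : ℝ) ≤ M := Nat.cast_nonneg M
  refine bad_exists (M := M) r ρ L θ hr hρ hL hθ0 z hz hW R₀ hR0 hD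
    (fun x hx k => (hDR x hx k).trans (le_max_left _ _)) c hc σ lam hσ hlamdef ?_
    (6 * (1 + lam) * √t * (ρ * L ^ d)) (by positivity) hex ?_ h3 h4
  · -- the first constant
    have e1 : (M : ℝ) ^ 2 ≤ Real.exp (ε / 50 * d) := by
      calc (M : ℝ) ^ 2 ≤ (Real.exp (ε / 100 * d)) ^ 2 := by gcongr
        _ = _ := by rw [← Real.exp_nat_mul]; congr 1; push_cast; ring
    calc 20 * σ * (1 + lam) ^ 3 * M ^ 2
        ≤ 20 * (d * Real.exp (-(ε * d))) * (2 * d) ^ 3 * Real.exp (ε / 50 * d) := by gcongr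
      _ = 160 * (d : ℝ) ^ 4 * (Real.exp (-(ε * d)) * Real.exp (ε / 50 * d)) := by ring
      _ = 160 * (d : ℝ) ^ 4 * Real.exp (-(ε * (49 / 50) * d)) := by
          rw [← Real.exp_add]; congr 2; ring
      _ ≤ θ := E2
  · have e1 : θ ^ 2 = Real.exp (-(ε / 50 * d)) := by
      rw [hθ, ← Real.exp_nat_mul]; congr 1; push_cast; ring
    rw [e1, hst]
    calc 8 * (M * bv d r) * (1 + lam) * (6 * (1 + lam) * Real.exp (-(ε / 24 * d)) * (ρ * L ^ d))
        = 48 * M * Real.exp (-(ε / 24 * d)) * lam * (1 + lam) ^ 2 * L ^ d := by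
          rw [hlamdef]; ring
      _ ≤ 48 * Real.exp (ε / 100 * d) * Real.exp (-(ε / 24 * d)) * d * (2 * d) ^ 2 * L ^ d := by
          gcongr
      _ = 192 * (d : ℝ) ^ 3 * (Real.exp (ε / 100 * d) * Real.exp (-(ε / 24 * d))) * L ^ d := by
          ring
      _ = 192 * (d : ℝ) ^ 3 * Real.exp (-((ε / 24 - ε / 100) * d)) * L ^ d := by
          rw [← Real.exp_add]; congr 3; ring
      _ ≤ _ := by gcongr

end Pool.Agent.U279.PG
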