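import Pool.Agent.U279.PG.Hole

/-!
The expected number of points, and the lower bound for the partition function of a sparse region.
-/

set_option autoImplicit false
set_option linter.unusedSectionVars false
open MeasureTheory ENNReal Finset

namespace Pool.Agent.U279.PG

variable {X : Type} [MeasurableSpace X]
variable {μ : Measure X} [SigmaFinite μ] {R : X → X → Prop}

theorem Zn_succ (hR : MeasurableSet {p : X × X | R p.1 p.2}) (hsymm : ∀ u v, R u v → R v u)
    {W : Set X} (hW : MeasurableSet W) (n : ℕ) :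
    Zn μ R (Fin (n + 1)) W = ∫⁻ x in W, Zn μ R (Fin n) (W \ {y | R x y}) ∂μ := by
  have hmp := measurePreserving_piFinSuccAbove (fun _ : Fin (n + 1) => μ) 0
  set T : Set (X × (Fin n → X)) := {q | q.1 ∈ W ∧ q.2 ∈ Gd R (Fin n) (W \ {y | R q.1 y})} with hT
  have hsec : MeasurableSet {p : X × X | p.2 ∈ W \ {y | R p.1 y}} := by
    have : {p : X × X | p.2 ∈ W \ {y | R p.1 y}} = (Prod.snd ⁻¹' W) \ {p : X × X | R p.1 p.2} := by
      ext p; simp
    rw [this]
    exact (measurable_snd hW).diff hR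
  have hTm : MeasurableSet T := by
    have h1 := Gd_sec_meas hR (Fin n) hsec
    have h2 : T = (Prod.fst ⁻¹' W) ∩ {p : X × (Fin n → X) | p.2 ∈ Gd R (Fin n)
        {x | (p.1, x) ∈ {p : X × X | p.2 ∈ W \ {y | R p.1 y}}}} := rfl
    rw [h2]
    exact (measurable_fst hW).inter h1
  have hpre : Gd R (Fin (n + 1)) W =
      (MeasurableEquiv.piFinSuccAbove (fun _ : Fin (n + 1) => X) 0) ⁻¹' T := by
    ext x
    have e1 : (MeasurableEquiv.piFinSuccAbove (fun _ : Fin (n + 1) => X) 0) x =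
        (x 0, fun j => x j.succ) := by
      ext <;> simp [MeasurableEquiv.piFinSuccAbove, Fin.insertNthEquiv]
      rfl
    rw [Set.mem_preimage, e1]
    simp only [hT, Gd, Pk, Set.mem_ofPred_eq, Set.mem_sdiff]
    constructor
    · rintro ⟨h1, h2⟩
      refine ⟨h2 0, fun i j hij => h1 _ _ fun h => hij (Fin.succ_injective _ h), fun i =>
        ⟨h2 _, h1 0 i.succ (Fin.succ_ne_zero i).symm⟩⟩
    · rintro ⟨h1, h2, h3⟩
      refine ⟨fun i j hij => ?_, fun i => ?_⟩
      · induction i using Fin.cases with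
        | zero =>
          induction j using Fin.cases with
          | zero => exact absurd rfl hij
          | succ j => exact (h3 j).2
        | succ i =>
          induction j using Fin.cases with
          | zero => exact fun h => (h3 i).2 (hsymm _ _ h)
          | succ j => exact h2 i j fun h => hij (by rw [h])
      · induction i using Fin.cases with
        | zero => exact h1
        | succ i => exact (h3 i).1
  unfold Zn
  rw [hpre, hmp.measure_preimage_equiv, Measure.prod_apply hTm, ← lintegral_indicator hW]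
  refine lintegral_congr fun x => ?_
  by_cases hx : x ∈ W
  · rw [Set.indicator_of_mem hx]
    congr 1
    ext b
    simp [hT, hx]
  · rw [Set.indicator_of_notMem hx]
    have : (Prod.mk x ⁻¹' T) = ∅ := by
      ext b
      simp [hT, hx]
    rw [this, measure_empty]

theorem fact_succ (z : ℝ≥0∞) (n : ℕ) :
    ((n + 1 : ℕ) : ℝ≥0∞) * (z ^ (n + 1) / ((n + 1).factorial : ℝ≥0∞)) =
      z * (z ^ n / (n.factorial : ℝ≥0∞)) := by
  rw [Nat.factorial_succ]
  push_cast
  have h1 : ((n : ℝ≥0∞) + 1) ≠ 0 := by positivity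
  have h2 : ((n : ℝ≥0∞) + 1) ≠ ⊤ := by
    exact ENNReal.add_ne_top.2 ⟨natCast_ne_top n, one_ne_top⟩
  rw [div_eq_mul_inv, ENNReal.mul_inv (Or.inl h1) (Or.inl h2), div_eq_mul_inv, pow_succ]
  calc ((n : ℝ≥0∞) + 1) * (z ^ n * z * (((n : ℝ≥0∞) + 1)⁻¹ * (n.factorial : ℝ≥0∞)⁻¹))
      = (((n : ℝ≥0∞) + 1) * ((n : ℝ≥0∞) + 1)⁻¹) * (z ^ n * z * (n.factorial : ℝ≥0∞)⁻¹) := by ring
    _ = z * (z ^ n * (n.factorial : ℝ≥0∞)⁻¹) := by
        rw [ENNReal.mul_inv_cancel h1 h2]; ring

/-- the expected number of points (not normalised) -/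
theorem num_eq (hR : MeasurableSet {p : X × X | R p.1 p.2}) (hsymm : ∀ u v, R u v → R v u)
    (z : NNReal) {W : Set X} (hW : MeasurableSet W) :
    ∑' n : ℕ, (n : ℝ≥0∞) * (((z : ℝ≥0∞) ^ n / (n.factorial : ℝ≥0∞)) * Zn μ R (Fin n) W) =
      z * ∫⁻ x in W, Xi μ R z (W \ {y | R x y}) ∂μ := by
  have hsec : MeasurableSet {p : X × X | p.2 ∈ W \ {y | R p.1 y}} := by
    have : {p : X × X | p.2 ∈ W \ {y | R p.1 y}} = (Prod.snd ⁻¹' W) \ {p : X × X | R p.1 p.2} := by
      ext p; simp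
    rw [this]
    exact (measurable_snd hW).diff hR
  have hm : ∀ n : ℕ, Measurable fun x => Zn μ R (Fin n) (W \ {y | R x y}) := fun n =>
    Zn_sec_meas μ hR (Fin n) hsec
  rw [tsum_eq_zero_add' ENNReal.summable]
  simp only [Nat.cast_zero, zero_mul, zero_add]
  unfold Xi
  rw [lintegral_tsum fun n => ((hm n).const_mul _).aemeasurable, ← ENNReal.tsum_mul_left]
  refine tsum_congr fun n => ?_
  rw [lintegral_const_mul _ (hm n), ← mul_assoc, fact_succ, Zn_succ hR hsymm hW n, mul_assoc]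

/-- the expected number of points is controlled by the partition functions -/
theorem jensen_num (hR : MeasurableSet {p : X × X | R p.1 p.2}) (hsymm : ∀ u v, R u v → R v u)
    (z z' : NNReal) {t : ℝ} (ht : 0 ≤ t) (hz' : (z' : ℝ) = z * Real.exp t) {W : Set X}
    (hW : MeasurableSet W) (hWt : μ W ≠ ⊤) :
    ENNReal.ofReal (Real.exp (t * (∫⁻ x in W, rho μ R z W x ∂μ).toReal)) * Xi μ R z W ≤
      Xi μ R z' W := by
  have hX := Xi_ne_top μ R z hWt
  have hX1 := one_le_Xi μ R z W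
  have hX0 : Xi μ R z W ≠ 0 := (lt_of_lt_of_le zero_lt_one hX1).ne'
  have hsec : MeasurableSet {p : X × X | p.2 ∈ W \ {y | R p.1 y}} := by
    have : {p : X × X | p.2 ∈ W \ {y | R p.1 y}} = (Prod.snd ⁻¹' W) \ {p : X × X | R p.1 p.2} := by
      ext p; simp
    rw [this]
    exact (measurable_snd hW).diff hR
  have hm1 : Measurable fun x => Xi μ R z (W \ {y | R x y}) := Xi_sec_meas μ hR z hsec
  set I := ∫⁻ x in W, Xi μ R z (W \ {y | R x y}) ∂μ with hI
  have hIt : I ≠ ⊤ := by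
    have h1 : I ≤ Xi μ R z W * μ W := by
      rw [hI, ← setLIntegral_const]
      exact lintegral_mono fun x => Xi_mono μ R z Set.sdiff_subset
    exact ne_top_of_le_ne_top (ENNReal.mul_ne_top hX hWt) h1
  have hrho : ∫⁻ x in W, rho μ R z W x ∂μ = z * I / Xi μ R z W := by
    unfold rho
    rw [hI, ← lintegral_const_mul _ hm1]
    simp only [div_eq_mul_inv]
    rw [lintegral_mul_const _ (hm1.const_mul _)]
  rw [hrho]
  set m : ℝ := (z * I / Xi μ R z W).toReal with hmdef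
  have hm0 : 0 ≤ m := ENNReal.toReal_nonneg
  have hmX : ENNReal.ofReal m * Xi μ R z W = z * I := by
    rw [hmdef, ENNReal.ofReal_toReal
        (ENNReal.div_ne_top (ENNReal.mul_ne_top ENNReal.coe_ne_top hIt) hX0),
        ENNReal.div_mul_cancel hX0 hX]
  have hnum := num_eq (μ := μ) hR hsymm z hW
  rw [← hI, ← hmX] at hnum
  -- termwise
  have hterm : ∀ n : ℕ, ENNReal.ofReal (Real.exp (t * m)) *
      (((z : ℝ≥0∞) ^ n / (n.factorial : ℝ≥0∞)) * Zn μ R (Fin n) W) +
      ENNReal.ofReal (Real.exp (t * m) * t) *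
        ((n : ℝ≥0∞) * (((z : ℝ≥0∞) ^ n / (n.factorial : ℝ≥0∞)) * Zn μ R (Fin n) W)) ≤
      (((z' : ℝ≥0∞) ^ n / (n.factorial : ℝ≥0∞)) * Zn μ R (Fin n) W) +
      ENNReal.ofReal (Real.exp (t * m) * t * m) *
        (((z : ℝ≥0∞) ^ n / (n.factorial : ℝ≥0∞)) * Zn μ R (Fin n) W) := by
    intro n
    set Q := ((z : ℝ≥0∞) ^ n / (n.factorial : ℝ≥0∞)) * Zn μ R (Fin n) W with hQ
    have hz2 : (z' : ℝ≥0∞) ^ n / (n.factorial : ℝ≥0∞) * Zn μ R (Fin n) W =
        ENNReal.ofReal (Real.exp (t * n)) * Q := by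
      have h1 : (z' : ℝ≥0∞) = z * ENNReal.ofReal (Real.exp t) := by
        rw [← ENNReal.ofReal_coe_nnreal, hz', ENNReal.ofReal_mul (NNReal.coe_nonneg z),
          ENNReal.ofReal_coe_nnreal]
      rw [h1, mul_pow, ← ENNReal.ofReal_pow (Real.exp_pos t).le, ← Real.exp_nat_mul, hQ,
        mul_comm (n : ℝ) t, div_eq_mul_inv, div_eq_mul_inv]
      ring
    rw [hz2]
    have h2 : Real.exp (t * m) + Real.exp (t * m) * t * n ≤
        Real.exp (t * n) + Real.exp (t * m) * t * m := by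
      have h3 := Real.add_one_le_exp (t * n - t * m)
      have h4 := mul_le_mul_of_nonneg_left h3 (Real.exp_pos (t * m)).le
      rw [← Real.exp_add, add_sub_cancel] at h4
      linarith
    calc ENNReal.ofReal (Real.exp (t * m)) * Q +
          ENNReal.ofReal (Real.exp (t * m) * t) * ((n : ℝ≥0∞) * Q)
        = ENNReal.ofReal (Real.exp (t * m) + Real.exp (t * m) * t * n) * Q := by
          rw [ENNReal.ofReal_add (Real.exp_pos _).le (by positivity),
            ENNReal.ofReal_mul (by positivity : 0 ≤ Real.exp (t * m) * t),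
            ENNReal.ofReal_natCast]
          ring
      _ ≤ ENNReal.ofReal (Real.exp (t * n) + Real.exp (t * m) * t * m) * Q :=
          mul_le_mul_left (ENNReal.ofReal_le_ofReal h2) _
      _ = _ := by
          rw [ENNReal.ofReal_add (Real.exp_pos _).le (by positivity)]
          ring
  have hsum := ENNReal.tsum_le_tsum hterm
  rw [ENNReal.tsum_add, ENNReal.tsum_add, ENNReal.tsum_mul_left, ENNReal.tsum_mul_left,
    ENNReal.tsum_mul_left, hnum] at hsum
  have e1 : ENNReal.ofReal (Real.exp (t * m) * t) * (ENNReal.ofReal m * Xi μ R z W) =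
      ENNReal.ofReal (Real.exp (t * m) * t * m) * Xi μ R z W := by
    rw [ENNReal.ofReal_mul (by positivity : 0 ≤ Real.exp (t * m) * t)]
    ring
  rw [e1] at hsum
  exact (ENNReal.add_le_add_iff_right (ENNReal.mul_ne_top ENNReal.ofReal_ne_top hX)).1 hsum

theorem Zn_diff (n : ℕ) {D B : Set X} (hD : MeasurableSet D) (hB : MeasurableSet B) :
    Zn μ R (Fin n) D ≤ Zn μ R (Fin n) (D \ B) + n * (μ (D ∩ B) * μ D ^ (n - 1)) := by
  have h1 : Gd R (Fin n) D ⊆ Gd R (Fin n) (D \ B) ∪ ⋃ i : Fin n,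
      Set.pi Set.univ (fun j => if j = i then D ∩ B else D) := by
    intro x hx
    by_cases h : ∀ i, x i ∉ B
    · exact Or.inl ⟨hx.1, fun i => ⟨hx.2 i, h i⟩⟩
    · push Not at h
      obtain ⟨i, hi⟩ := h
      refine Or.inr (Set.mem_iUnion.2 ⟨i, ?_⟩)
      rw [Set.mem_univ_pi]
      intro j
      by_cases hj : j = i
      · rw [if_pos hj]
        exact ⟨hx.2 j, hj ▸ hi⟩
      · rw [if_neg hj]
        exact hx.2 j
  unfold Zn
  refine (measure_mono h1).trans ((measure_union_le _ _).trans (add_le_add le_rfl ?_))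
  refine (measure_iUnion_fintype_le _ _).trans ?_
  have h2 : ∀ i : Fin n, (Measure.pi fun _ : Fin n => μ)
      (Set.pi Set.univ (fun j => if j = i then D ∩ B else D)) = μ (D ∩ B) * μ D ^ (n - 1) := by
    intro i
    rw [Measure.pi_pi, ← mul_prod_erase univ _ (mem_univ i), if_pos rfl]
    congr 1
    rw [prod_congr rfl (g := fun _ => μ D) fun j hj => by rw [if_neg (mem_erase.1 hj).1],
      prod_const, card_erase_of_mem (mem_univ i), card_univ, Fintype.card_fin]
  rw [sum_congr rfl fun i _ => h2 i, sum_const, card_univ, Fintype.card_fin, nsmul_eq_mul]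

/-- most tuples of a sparse region are admissible -/
theorem Zn_lower (hR : MeasurableSet {p : X × X | R p.1 p.2}) (hsymm : ∀ u v, R u v → R v u)
    {D : Set X} (hD : MeasurableSet D) {κ : ℝ≥0∞}
    (hκ : ∫⁻ x in D, μ (D ∩ {y | R x y}) ∂μ ≤ κ * μ D) (n : ℕ) :
    μ D ^ n ≤ Zn μ R (Fin n) D + (n.choose 2 : ℕ) * (κ * μ D ^ (n - 1)) := by
  have hsec2 : MeasurableSet {p : X × X | p.2 ∈ D ∩ {y | R p.1 y}} := by
    have : {p : X × X | p.2 ∈ D ∩ {y | R p.1 y}} = (Prod.snd ⁻¹' D) ∩ {p : X × X | R p.1 p.2} := by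
      ext p; simp
    rw [this]
    exact (measurable_snd hD).inter hR
  have hm2 : Measurable fun x => μ (D ∩ {y | R x y}) := measurable_measure_prodMk_left hsec2
  have hsec : MeasurableSet {p : X × X | p.2 ∈ D \ {y | R p.1 y}} := by
    have : {p : X × X | p.2 ∈ D \ {y | R p.1 y}} = (Prod.snd ⁻¹' D) \ {p : X × X | R p.1 p.2} := by
      ext p; simp
    rw [this]
    exact (measurable_snd hD).diff hR
  have hm1 : ∀ n : ℕ, Measurable fun x => Zn μ R (Fin n) (D \ {y | R x y}) := fun n =>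
    Zn_sec_meas μ hR (Fin n) hsec
  induction n with
  | zero => rw [pow_zero, Zn_zero]; exact le_self_add
  | succ n ih =>
    have h1 : μ D * Zn μ R (Fin n) D ≤ Zn μ R (Fin (n + 1)) D + n * (κ * μ D ^ n) := by
      rcases Nat.eq_zero_or_pos n with rfl | hn
      · rw [Zn_zero, Zn_succ hR hsymm hD, mul_one]
        simp only [Zn_zero, CharP.cast_eq_zero, zero_mul, add_zero]
        rw [setLIntegral_one]
      calc μ D * Zn μ R (Fin n) D = ∫⁻ _ in D, Zn μ R (Fin n) D ∂μ := by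
            rw [setLIntegral_const, mul_comm]
        _ ≤ ∫⁻ x in D, (Zn μ R (Fin n) (D \ {y | R x y}) +
              n * (μ (D ∩ {y | R x y}) * μ D ^ (n - 1))) ∂μ :=
            lintegral_mono fun x => Zn_diff n hD (nb_meas hR x)
        _ = Zn μ R (Fin (n + 1)) D + n * ((∫⁻ x in D, μ (D ∩ {y | R x y}) ∂μ) *
              μ D ^ (n - 1)) := by
            rw [lintegral_add_left (hm1 n), Zn_succ hR hsymm hD n]
            congr 1
            rw [lintegral_const_mul _ (hm2.mul_const _), lintegral_mul_const _ hm2]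
        _ ≤ Zn μ R (Fin (n + 1)) D + n * ((κ * μ D) * μ D ^ (n - 1)) := by gcongr
        _ = _ := by
            congr 2
            rw [mul_assoc, ← pow_succ', Nat.sub_add_cancel hn]
    have h2 : ((n.choose 2 : ℕ) : ℝ≥0∞) * (κ * μ D ^ (n - 1)) * μ D =
        ((n.choose 2 : ℕ) : ℝ≥0∞) * (κ * μ D ^ n) := by
      rcases Nat.eq_zero_or_pos n with rfl | hn
      · simp
      · rw [mul_assoc, mul_assoc, ← pow_succ, Nat.sub_add_cancel hn]
    calc μ D ^ (n + 1) = μ D ^ n * μ D := pow_succ _ _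
      _ ≤ (Zn μ R (Fin n) D + (n.choose 2 : ℕ) * (κ * μ D ^ (n - 1))) * μ D :=
          mul_le_mul_left ih _
      _ = μ D * Zn μ R (Fin n) D + (n.choose 2 : ℕ) * (κ * μ D ^ n) := by
          rw [add_mul, h2, mul_comm]
      _ ≤ Zn μ R (Fin (n + 1)) D + n * (κ * μ D ^ n) + (n.choose 2 : ℕ) * (κ * μ D ^ n) :=
          add_le_add h1 le_rfl
      _ = Zn μ R (Fin (n + 1)) D + ((n + 1).choose 2 : ℕ) * (κ * μ D ^ (n + 1 - 1)) := by
          rw [Nat.add_sub_cancel, Nat.choose_succ_succ' n 1, Nat.choose_one_right]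
          push_cast
          ring

theorem choose_term (z κ u : ℝ≥0∞) (n : ℕ) :
    z ^ (n + 2) / ((n + 2).factorial : ℝ≥0∞) * (((n + 2).choose 2 : ℕ) * (κ * u ^ (n + 1))) ≤
      κ * z * (z * u) * ((z * u) ^ n / (n.factorial : ℝ≥0∞)) := by
  have h1 : ((n + 2).choose 2 : ℕ) * n.factorial ≤ (n + 2).factorial := by
    have := Nat.choose_mul_factorial_mul_factorial (show 2 ≤ n + 2 by omega)
    rw [Nat.add_sub_cancel] at this
    rw [← this, Nat.mul_assoc]
    refine Nat.mul_le_mul_left _ ?_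
    have : 1 ≤ Nat.factorial 2 := Nat.factorial_pos 2
    calc n.factorial = 1 * n.factorial := (one_mul _).symm
      _ ≤ _ := Nat.mul_le_mul_right _ this
  have h2 : ((n + 2).factorial : ℝ≥0∞)⁻¹ * ((n + 2).choose 2 : ℕ) ≤ (n.factorial : ℝ≥0∞)⁻¹ := by
    have h0 : ((n + 2).factorial : ℝ≥0∞) ≠ 0 := by exact_mod_cast (n + 2).factorial_ne_zero
    have h0' : ((n + 2).factorial : ℝ≥0∞) ≠ ⊤ := natCast_ne_top _
    have g0 : (n.factorial : ℝ≥0∞) ≠ 0 := by exact_mod_cast n.factorial_ne_zero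
    have g0' : (n.factorial : ℝ≥0∞) ≠ ⊤ := natCast_ne_top _
    rw [mul_comm, ← div_eq_mul_inv, ENNReal.div_le_iff h0 h0', mul_comm, ← div_eq_mul_inv,
      ENNReal.le_div_iff_mul_le (Or.inl g0) (Or.inl g0')]
    exact_mod_cast h1
  calc z ^ (n + 2) / ((n + 2).factorial : ℝ≥0∞) * (((n + 2).choose 2 : ℕ) * (κ * u ^ (n + 1)))
      = z ^ (n + 2) * κ * u ^ (n + 1) *
        (((n + 2).factorial : ℝ≥0∞)⁻¹ * ((n + 2).choose 2 : ℕ)) := by
          rw [div_eq_mul_inv]; ring
    _ ≤ z ^ (n + 2) * κ * u ^ (n + 1) * (n.factorial : ℝ≥0∞)⁻¹ := by gcongr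
    _ = _ := by rw [div_eq_mul_inv, mul_pow]; ring

/-- the partition function of a sparse region -/
theorem Xi_lower (hR : MeasurableSet {p : X × X | R p.1 p.2}) (hsymm : ∀ u v, R u v → R v u)
    (z : NNReal) {D : Set X} (hD : MeasurableSet D) (hDt : μ D ≠ ⊤) {κ : ℝ≥0∞}
    (hκ : ∫⁻ x in D, μ (D ∩ {y | R x y}) ∂μ ≤ κ * μ D) :
    ENNReal.ofReal (Real.exp (z * (μ D).toReal)) ≤ Xi μ R z D +
      κ * z * (z * μ D) * ENNReal.ofReal (Real.exp (z * (μ D).toReal)) := by
  have h2 : ENNReal.ofReal (z * (μ D).toReal) = z * μ D := by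
    rw [ENNReal.ofReal_mul (NNReal.coe_nonneg z), ENNReal.ofReal_coe_nnreal,
      ENNReal.ofReal_toReal hDt]
  have h3 := tsum_exp (z * (μ D).toReal) (by positivity)
  rw [h2] at h3
  have h4 : ∀ n : ℕ, (z * μ D) ^ n / (n.factorial : ℝ≥0∞) ≤
      (z : ℝ≥0∞) ^ n / (n.factorial : ℝ≥0∞) * Zn μ R (Fin n) D +
      (z : ℝ≥0∞) ^ n / (n.factorial : ℝ≥0∞) * ((n.choose 2 : ℕ) * (κ * μ D ^ (n - 1))) := by
    intro n
    rw [← mul_add]
    refine le_trans (le_of_eq ?_) (mul_le_mul_right (Zn_lower hR hsymm hD hκ n) _)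
    rw [mul_pow, div_eq_mul_inv, div_eq_mul_inv]
    ring
  have h5 : ∑' n : ℕ, (z : ℝ≥0∞) ^ n / (n.factorial : ℝ≥0∞) *
      ((n.choose 2 : ℕ) * (κ * μ D ^ (n - 1))) ≤
      κ * z * (z * μ D) * ENNReal.ofReal (Real.exp (z * (μ D).toReal)) := by
    rw [← h3, ← ENNReal.tsum_mul_left, tsum_eq_zero_add' ENNReal.summable,
      tsum_eq_zero_add' ENNReal.summable]
    have e0 : ((Nat.choose 0 2 : ℕ) : ℝ≥0∞) = 0 := by norm_num [Nat.choose]
    have e1 : ((Nat.choose (0 + 1) 2 : ℕ) : ℝ≥0∞) = 0 := by norm_num [Nat.choose]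
    rw [e0, e1]
    simp only [zero_mul, mul_zero, zero_add]
    exact ENNReal.tsum_le_tsum fun n => choose_term _ _ _ n
  rw [← h3]
  refine (ENNReal.tsum_le_tsum h4).trans ?_
  rw [ENNReal.tsum_add, h3]
  exact add_le_add le_rfl h5

end Pool.Agent.U279.PG
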