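import Pool.Agent.U279.PG.Main

/-!
Random boundary conditions.
-/

set_option autoImplicit false
set_option linter.unusedSectionVars false
open Filter Topology MeasureTheory ENNReal

namespace Pool.Agent.U279.PG
open Pool.Agent.K4H61.HS
open Pool.Agent.U279.KT (cube cube_meas cube_vol cube_lt)

variable {d : ℕ}

/-- the bound for the distance to the Poisson process, without the constant term -/
noncomputable def Phi (d : ℕ) (r ρ : ℝ) (z : NNReal) (W D : Set (Fin d → ℝ)) (y : Fin d → ℝ) :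
    ℝ≥0∞ :=
  (∫⁻ x in {x | x - y ∈ D}, W.indicator (exc d r ρ z W) x) +
    ENNReal.ofReal ρ * ∫⁻ x in {x | x - y ∈ D}, nbe d r ρ z W x

section joint
variable {Ω : Type} [MeasurableSpace Ω]

theorem rho_joint (r : ℝ) (z : NNReal) {V : Set (Ω × (Fin d → ℝ))} (hV : MeasurableSet V) :
    Measurable fun p : Ω × (Fin d → ℝ) => rho volume (cl d r) z {x | (p.1, x) ∈ V} p.2 := by
  have h1 : MeasurableSet {q : (Ω × (Fin d → ℝ)) × (Fin d → ℝ) |
      q.2 ∈ {x | (q.1.1, x) ∈ V} \ {y | cl d r q.1.2 y}} := by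
    have e : {q : (Ω × (Fin d → ℝ)) × (Fin d → ℝ) |
        q.2 ∈ {x | (q.1.1, x) ∈ V} \ {y | cl d r q.1.2 y}} =
        ((fun q : (Ω × (Fin d → ℝ)) × (Fin d → ℝ) => (q.1.1, q.2)) ⁻¹' V) \
        ((fun q : (Ω × (Fin d → ℝ)) × (Fin d → ℝ) => (q.1.2, q.2)) ⁻¹'
          {p : (Fin d → ℝ) × (Fin d → ℝ) | cl d r p.1 p.2}) := by
      ext q
      rfl
    rw [e]
    refine ((measurable_fst.comp measurable_fst).prodMk measurable_snd hV).diff ?_
    exact (measurable_snd.comp measurable_fst).prodMk measurable_snd (cl_meas r)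
  have h2 := Xi_sec_meas volume (cl_meas (d := d) r) z h1
  have h3 : Measurable fun p : Ω × (Fin d → ℝ) =>
      Xi volume (cl d r) z {x | (p.1, x) ∈ V} :=
    (Xi_sec_meas volume (cl_meas (d := d) r) z hV).comp measurable_fst
  exact (h2.const_mul _).div h3

theorem exc_joint (r ρ : ℝ) (z : NNReal) {V : Set (Ω × (Fin d → ℝ))} (hV : MeasurableSet V) :
    Measurable fun p : Ω × (Fin d → ℝ) => exc d r ρ z {x | (p.1, x) ∈ V} p.2 :=
  (rho_joint r z hV).sub_const _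

theorem par_lint {Y Z : Type} [MeasurableSpace Y] [MeasurableSpace Z] (μ : Measure Z) [SFinite μ]
    {T : Set (Y × Z)} (hT : MeasurableSet T) {f : Y × Z → ℝ≥0∞} (hf : Measurable f) :
    Measurable fun y => ∫⁻ x in {x | (y, x) ∈ T}, f (y, x) ∂μ := by
  have h1 : (fun y => ∫⁻ x in {x | (y, x) ∈ T}, f (y, x) ∂μ) =
      fun y => ∫⁻ x, T.indicator f (y, x) ∂μ := by
    funext y
    have hm : MeasurableSet {x | (y, x) ∈ T} := measurable_prodMk_left (x := y) hT
    rw [← lintegral_indicator hm]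
    refine lintegral_congr fun w => ?_
    by_cases h : (y, w) ∈ T
    · rw [Set.indicator_of_mem h, Set.indicator_of_mem (show w ∈ {x | (y, x) ∈ T} from h)]
    · rw [Set.indicator_of_notMem h, Set.indicator_of_notMem (show w ∉ {x | (y, x) ∈ T} from h)]
  rw [h1]
  exact Measurable.lintegral_prod_right' (hf.indicator hT)

theorem nbe_joint (r ρ : ℝ) (z : NNReal) {V : Set (Ω × (Fin d → ℝ))} (hV : MeasurableSet V) :
    Measurable fun p : Ω × (Fin d → ℝ) => nbe d r ρ z {x | (p.1, x) ∈ V} p.2 := by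
  have hpr : Measurable fun q : (Ω × (Fin d → ℝ)) × (Fin d → ℝ) => (q.1.1, q.2) :=
    (measurable_fst.comp measurable_fst).prodMk measurable_snd
  have hpr2 : Measurable fun q : (Ω × (Fin d → ℝ)) × (Fin d → ℝ) => (q.1.2, q.2) :=
    (measurable_snd.comp measurable_fst).prodMk measurable_snd
  have hT := (hpr hV).inter (hpr2 (cl_meas (d := d) r))
  exact par_lint volume hT ((exc_joint r ρ z hV).comp hpr)

theorem Phi_joint (r ρ : ℝ) (z : NNReal) {V : Set (Ω × (Fin d → ℝ))} (hV : MeasurableSet V)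
    {D : Set (Fin d → ℝ)} (hD : MeasurableSet D) :
    Measurable fun p : Ω × (Fin d → ℝ) => Phi d r ρ z {x | (p.1, x) ∈ V} D p.2 := by
  have hpr : Measurable fun q : (Ω × (Fin d → ℝ)) × (Fin d → ℝ) => (q.1.1, q.2) :=
    (measurable_fst.comp measurable_fst).prodMk measurable_snd
  have hsub : Measurable fun q : (Ω × (Fin d → ℝ)) × (Fin d → ℝ) => q.2 - q.1.2 :=
    measurable_snd.sub (measurable_snd.comp measurable_fst)
  have hT := hsub hD
  have hf := (exc_joint r ρ z hV).comp hpr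
  have h1 := par_lint volume hT (hf.indicator (hpr hV))
  have h2 := par_lint volume hT ((nbe_joint r ρ z hV).comp hpr)
  exact h1.add (h2.const_mul _)

end joint

theorem Phi_int {M : ℕ} (r ρ L : ℝ) (hρ : 0 < ρ)
    (z : NNReal) {W : Set (Fin d → ℝ)} (hW : Region d r L W) {D : Set (Fin d → ℝ)}
    (hD : MeasurableSet D) (c : Fin M → Fin d → ℝ)
    (hc : D ⊆ {y | ∃ j, cl d r (c j) y}) (lam : ℝ)
    (hlam : lam = ρ * bv d r) (E : ℝ) (hE0 : 0 ≤ E)
    (hE : ∫⁻ x in W, exc d r ρ z W x ≤ ENNReal.ofReal E) :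
    ∫⁻ y, Phi d r ρ z W D y ≤ ENNReal.ofReal (M * bv d r * (1 + lam) * E) := by
  have hB0 : 0 ≤ bv d r := ENNReal.toReal_nonneg
  have hlam0 : 0 ≤ lam := by rw [hlam]; positivity
  have hw1 := lint_window hD ((exc_meas r ρ z hW.1).indicator hW.1)
  have hw2 := lint_window hD (nbe_meas r ρ z hW.1)
  have e1 : ∫⁻ y, Phi d r ρ z W D y = volume D * (∫⁻ x in W, exc d r ρ z W x) +
      ENNReal.ofReal ρ * (volume D * ∫⁻ x, nbe d r ρ z W x) := by
    unfold Phi
    rw [lintegral_add_left hw1.1, lintegral_const_mul _ hw2.1, hw1.2, hw2.2,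
      lintegral_indicator hW.1]
  have e2 : ∫⁻ x, nbe d r ρ z W x ≤
      ENNReal.ofReal (bv d r) * ∫⁻ x in W, exc d r ρ z W x := by
    have := avg_ball (A := Set.univ) r (exc_meas r ρ z hW.1) hW.1
    rwa [Measure.restrict_univ] at this
  have e3 := vol_cover r c hc
  calc ∫⁻ y, Phi d r ρ z W D y ≤ ENNReal.ofReal (M * bv d r) * ENNReal.ofReal E +
        ENNReal.ofReal ρ * (ENNReal.ofReal (M * bv d r) *
          (ENNReal.ofReal (bv d r) * ENNReal.ofReal E)) := by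
        rw [e1]
        have e4 := e2.trans (mul_le_mul_right hE (ENNReal.ofReal (bv d r)))
        gcongr
    _ = ENNReal.ofReal (M * bv d r * (1 + lam) * E) := by
        rw [← ENNReal.ofReal_mul (by positivity), ← ENNReal.ofReal_mul hB0,
          ← ENNReal.ofReal_mul (by positivity), ← ENNReal.ofReal_mul hρ.le,
          ← ENNReal.ofReal_add (by positivity) (by positivity)]
        congr 1
        rw [hlam]
        ring

/-- the two sided bound in a window far from the boundary -/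
theorem tv_phi {M : ℕ} (r ρ L : ℝ) (hr : 0 < r) (hρ : 0 < ρ)
    (z : NNReal) (hz : (z : ℝ) = ρ * Real.exp (ρ * bv d r)) {W : Set (Fin d → ℝ)}
    (hW : Region d r L W) (R₀ : ℝ) {D : Set (Fin d → ℝ)} (hD : MeasurableSet D)
    (hDR : ∀ x ∈ D, ∀ k, |x k| ≤ R₀) (c : Fin M → Fin d → ℝ)
    (hc : D ⊆ {y | ∃ j, cl d r (c j) y}) (σ lam : ℝ) (hσ : σ = z * bv d (√(3 / 4) * r))
    (hlam : lam = ρ * bv d r) (y : Fin d → ℝ) (hy : ∀ k, y k ∈ Set.Icc (r + R₀) (L - (r + R₀)))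
    {A : Set (Set (Fin d → ℝ))}
    (hA : ∀ n : ℕ, MeasurableSet {a : Fin n → Fin d → ℝ | Set.range a ∈ A}) :
    pP d ρ D A ≤ pE d r z W {x | x - y ∈ D} {S | {u | u + y ∈ S} ∈ A} +
        (ENNReal.ofReal (10 * σ * (1 + lam) ^ 3 * M ^ 2) + 2 * Phi d r ρ z W D y) ∧
      pE d r z W {x | x - y ∈ D} {S | {u | u + y ∈ S} ∈ A} ≤ pP d ρ D A +
        (ENNReal.ofReal (10 * σ * (1 + lam) ^ 3 * M ^ 2) + 2 * Phi d r ρ z W D y) := by
  have hWt := W_lt hW
  have hUW : {x | x - y ∈ D} ⊆ W := by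
    intro x hx
    refine hW.2.1 fun k => ?_
    have e1 := abs_le.1 (hDR _ hx k)
    have e2 := hy k
    rw [Pi.sub_apply] at e1
    exact ⟨by linarith [e1.1, e2.1], by linarith [e1.2, e2.2]⟩
  have hUm : MeasurableSet {x : Fin d → ℝ | x - y ∈ D} := (measurable_id.sub_const y) hD
  have hUt : volume {x : Fin d → ℝ | x - y ∈ D} ≠ ⊤ := ne_top_of_le_ne_top hWt (measure_mono hUW)
  have hUc : {x | x - y ∈ D} ⊆ {x | ∃ j, cl d r ((fun j => c j + y) j) x} := by
    intro x hx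
    obtain ⟨j, hj⟩ := hc hx
    refine ⟨j, ?_⟩
    unfold cl at hj ⊢
    refine lt_of_eq_of_lt (Finset.sum_congr rfl fun k _ => ?_) hj
    simp only [Pi.add_apply, Pi.sub_apply]
    ring
  have e5 : ∫⁻ x in {x | x - y ∈ D}, W.indicator (exc d r ρ z W) x =
      ∫⁻ x in {x | x - y ∈ D}, exc d r ρ z W x := by
    refine setLIntegral_congr_fun hUm fun x hx => ?_
    exact Set.indicator_of_mem (hUW hx) _
  have e6 : Phi d r ρ z W D y = (∫⁻ x in {x | x - y ∈ D}, exc d r ρ z W x) +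
      ENNReal.ofReal ρ * ∫⁻ x in {x | x - y ∈ D}, nbe d r ρ z W x := by
    unfold Phi
    rw [e5]
  set A' : Set (Set (Fin d → ℝ)) := {S | {u | u + y ∈ S} ∈ A} with hA'
  have hAm := shift_meas hA y
  have hAm' : ∀ n : ℕ, MeasurableSet {a : Fin n → Fin d → ℝ | Set.range a ∈ A'ᶜ} := fun n =>
    (hAm n).compl
  have hle : ∀ (B : Set (Set (Fin d → ℝ))) (S : Set (Fin d → ℝ)),
      B.indicator (1 : Set (Fin d → ℝ) → ℝ≥0∞) S ≤ 1 := fun B S => by
    rw [← ind_add B S]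
    exact le_self_add
  rw [← pP_shift hD y A, e6]
  set err := ENNReal.ofReal (10 * σ * (1 + lam) ^ 3 * M ^ 2) +
    2 * ((∫⁻ x in {x | x - y ∈ D}, exc d r ρ z W x) +
      ENNReal.ofReal ρ * ∫⁻ x in {x | x - y ∈ D}, nbe d r ρ z W x) with herr
  have h1 : pP d ρ {x | x - y ∈ D} A' ≤ pE d r z W {x | x - y ∈ D} A' + err :=
    tv_one r ρ hr hρ z hz hW.1 hWt hUm hUW (fun j => c j + y) hUc σ lam hσ hlam
      (A'.indicator 1) (hle A') fun n => meas_ind (hAm n)
  have h2 : pP d ρ {x | x - y ∈ D} A'ᶜ ≤ pE d r z W {x | x - y ∈ D} A'ᶜ + err :=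
    tv_one r ρ hr hρ z hz hW.1 hWt hUm hUW (fun j => c j + y) hUc σ lam hσ hlam
      (A'ᶜ.indicator 1) (hle A'ᶜ) fun n => meas_ind (hAm' n)
  refine ⟨h1, ?_⟩
  have e1 := pE_add r z hW.1 hWt hUm hUW hAm
  have e2 := pP_add hρ.le hUt hAm
  have f2 : pE d r z W {x | x - y ∈ D} A'ᶜ ≠ ⊤ := by
    refine ne_top_of_le_ne_top ENNReal.one_ne_top ?_
    rw [← e1]; exact le_add_self
  refine (ENNReal.add_le_add_iff_right f2).1 ?_
  calc pE d r z W {x | x - y ∈ D} A' + pE d r z W {x | x - y ∈ D} A'ᶜ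
      = pP d ρ {x | x - y ∈ D} A' + pP d ρ {x | x - y ∈ D} A'ᶜ := by rw [e1, e2]
    _ ≤ pP d ρ {x | x - y ∈ D} A' + (pE d r z W {x | x - y ∈ D} A'ᶜ + err) :=
        add_le_add le_rfl h2
    _ = _ := by ring

end Pool.Agent.U279.PG
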