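import Pool.Agent.U279.PG.Geo
import Pool.Agent.U279.KT.Final

/-!
Upper bound for the grand canonical partition function of hard spheres in a cube.
-/

set_option autoImplicit false
set_option linter.unusedSectionVars false
open Filter Topology MeasureTheory

namespace Pool.Agent.U279.PG
open Pool.Agent.K4H61.HS
open Pool.Agent.U279.KT (cube cube_meas cube_vol cube_lt config_meas inner inner_vol)

variable {d : ℕ}

theorem Gd_cube (r L : ℝ) (N : ℕ) : Gd (cl d r) (Fin N) (cube d L) = config d r L N := by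
  ext x
  simp only [Gd, Pk, cl, config, cube, Set.mem_ofPred_eq, not_lt]
  exact and_comm

theorem Zn_cube (r L : ℝ) (N : ℕ) :
    Zn volume (cl d r) (Fin N) (cube d L) = volume (config d r L N) := by
  unfold Zn
  rw [Gd_cube]
  rfl

theorem choose_id (j N : ℕ) : j * N ≤ (if N ≤ j then N.choose 2 else j.choose 2 + j * (N - j)) +
    (j + 1).choose 2 := by
  have h1 : ∀ n : ℕ, n.choose 2 + (n + 1).choose 2 = n * n := by
    intro n
    have h2 := Nat.choose_succ_succ' n 1
    rw [Nat.choose_one_right] at h2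
    have h3 := Nat.triangle_succ n
    induction n with
    | zero => simp
    | succ n ih =>
      have e1 := Nat.choose_succ_succ' n 1
      have e2 := Nat.choose_succ_succ' (n + 1) 1
      rw [Nat.choose_one_right] at e1 e2
      have ih' := ih e1 (Nat.triangle_succ n)
      norm_num at *
      nlinarith
  split_ifs with h
  · obtain ⟨k, rfl⟩ := Nat.exists_eq_add_of_le h
    have h2 : ((N : ℝ) + k) * N ≤ ((N.choose 2 : ℕ) : ℝ) + (((N + k + 1).choose 2 : ℕ) : ℝ) := by
      rw [Nat.cast_choose_two, Nat.cast_choose_two]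
      push_cast
      have : (0 : ℝ) ≤ k := Nat.cast_nonneg k
      nlinarith
    exact_mod_cast h2
  · push Not at h
    obtain ⟨k, rfl⟩ := Nat.exists_eq_add_of_le h.le
    rw [Nat.add_sub_cancel_left]
    have := h1 j
    nlinarith

/-- the upper bound -/
theorem Xi_cube_le (hd : 1 ≤ d) (r L h : ℝ) (m j : ℕ) (hh : 0 < h) (hL : 0 < L) (hm : L < m * h)
    (hr : 2 * (√d * h) < r) (z : NNReal)
    (κ s : ℝ) (hκ : κ = bv d (r - 2 * (√d * h)) / (m * h + 2 * (r - √d * h)) ^ d) (hκ1 : κ < 1)
    (hs : s = bv d (r - 2 * (√d * h)) * eps d / h ^ d) :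
    Xi volume (cl d r) z (cube d L) ≤ ENNReal.ofReal ((1 / (1 - κ)) ^ ((j + 1).choose 2) *
      Real.exp (z * (((m : ℝ) ^ d + th (1 - κ) s j) * h ^ d) * (1 - κ) ^ j)) := by
  classical
  have hdh : 0 ≤ √d * h := by positivity
  have hr0 : 0 < r := by linarith
  have hmh : 0 < m * h := by linarith
  have hb2 : 0 < bv d (r - 2 * (√d * h)) := bv_pos d (by linarith)
  have hκ0 : 0 < κ := by
    rw [hκ]
    have : 0 < m * h + 2 * (r - √d * h) := by nlinarith
    positivity
  have hhd : 0 < h ^ d := by positivity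
  have hs0 : 0 ≤ s := by
    rw [hs]
    have := eps_pos d
    positivity
  set q := 1 - κ with hq
  have hq0 : 0 < q := by linarith
  have hq1 : q < 1 := by linarith
  have hss : (r - √d * h) - √d * h = r - 2 * (√d * h) := by ring
  have hKW := kw (near (d := d) (m := m) h (r - √d * h)) (near_refl _ _) q s hq0 hs0 Finset.univ
    (fun U _ hU => by
      obtain ⟨v, hv, h1⟩ := KW_near hd (r - √d * h) h hh (by linarith) U hU
      refine ⟨v, hv, ?_⟩
      rw [hss, ← hκ, ← hs] at h1
      convert h1 using 2)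
  set A : ℝ := ((m : ℝ) ^ d + th q s j) * h ^ d with hA
  have hth0 := th_nonneg hq0 hs0 j
  have hA0 : 0 ≤ A := by positivity
  -- every term
  have hterm : ∀ N : ℕ, (ic (near (d := d) (m := m) h (r - √d * h)) Finset.univ N : ℝ) *
      (h ^ d) ^ N ≤ (1 / q) ^ ((j + 1).choose 2) * ((A * q ^ j) ^ N / N.factorial) := by
    intro N
    set E := (if N ≤ j then N.choose 2 else j.choose 2 + j * (N - j)) with hE
    have h1 : (ic (near (d := d) (m := m) h (r - √d * h)) Finset.univ N : ℝ) ≤
        q ^ E * ((m : ℝ) ^ d + th q s j) ^ N / (N.factorial : ℝ) := by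
      rw [hE]
      split_ifs with hNj
      · have h2 := hKW N 0 Finset.univ (Finset.Subset.refl _)
        rw [mul_zero, add_zero, add_zero, Finset.card_univ, card_cells] at h2
        refine h2.trans ?_
        have h3 := th_mono hq0 hq1.le hs0 hNj
        have h4 := th_nonneg hq0 hs0 N
        gcongr
      · push Not at hNj
        have h2 := hKW j (N - j) Finset.univ (Finset.Subset.refl _)
        rw [Nat.add_sub_cancel' hNj.le, Finset.card_univ, card_cells] at h2
        exact h2
    have h5 : q ^ E ≤ (1 / q) ^ ((j + 1).choose 2) * q ^ (j * N) := by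
      rw [one_div, inv_pow, inv_mul_eq_div, le_div_iff₀ (by positivity), ← pow_add]
      exact pow_le_pow_of_le_one hq0.le hq1.le (choose_id j N)
    calc (ic (near (d := d) (m := m) h (r - √d * h)) Finset.univ N : ℝ) * (h ^ d) ^ N
        ≤ (q ^ E * ((m : ℝ) ^ d + th q s j) ^ N / (N.factorial : ℝ)) * (h ^ d) ^ N := by gcongr
      _ ≤ (((1 / q) ^ ((j + 1).choose 2) * q ^ (j * N)) * ((m : ℝ) ^ d + th q s j) ^ N /
            (N.factorial : ℝ)) * (h ^ d) ^ N := by gcongr
      _ = _ := by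
          rw [hA, mul_pow, mul_pow, ← pow_mul]
          ring
  have hvol : ∀ N : ℕ, ((z : ENNReal) ^ N / (N.factorial : ENNReal)) *
      Zn volume (cl d r) (Fin N) (cube d L) ≤
      ENNReal.ofReal ((1 / q) ^ ((j + 1).choose 2) * ((z * A * q ^ j) ^ N / N.factorial)) := by
    intro N
    rw [Zn_cube]
    have h1 := config_le (d := d) (m := m) r L h N hh hm (by linarith)
    have hlt := config_lt_top (d := d) r L N
    have h2 : (z : ENNReal) ^ N / (N.factorial : ENNReal) * volume (config d r L N) =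
        ENNReal.ofReal ((z : ℝ) ^ N / N.factorial * (volume (config d r L N)).toReal) := by
      rw [ENNReal.ofReal_mul (by positivity), ENNReal.ofReal_toReal hlt.ne,
        ENNReal.ofReal_div_of_pos (by positivity), ENNReal.ofReal_pow (NNReal.coe_nonneg z),
        ENNReal.ofReal_coe_nnreal, ENNReal.ofReal_natCast]
    rw [h2]
    refine ENNReal.ofReal_le_ofReal ?_
    have hfac : (0 : ℝ) < N.factorial := by positivity
    calc (z : ℝ) ^ N / N.factorial * (volume (config d r L N)).toReal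
        ≤ (z : ℝ) ^ N / N.factorial * ((N.factorial : ℝ) *
          (ic (near (d := d) (m := m) h (r - √d * h)) Finset.univ N : ℝ) * (h ^ d) ^ N) := by
          gcongr
      _ = (z : ℝ) ^ N * ((ic (near (d := d) (m := m) h (r - √d * h)) Finset.univ N : ℝ) *
          (h ^ d) ^ N) := by field_simp
      _ ≤ (z : ℝ) ^ N * ((1 / q) ^ ((j + 1).choose 2) * ((A * q ^ j) ^ N / N.factorial)) := by
          exact mul_le_mul_of_nonneg_left (hterm N) (by positivity)
      _ = _ := by
          have e : ((z : ℝ) * A * q ^ j) ^ N = (z : ℝ) ^ N * (A * q ^ j) ^ N := by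
            rw [mul_assoc, mul_pow]
          rw [e]
          ring
  unfold Xi
  refine (ENNReal.tsum_le_tsum hvol).trans ?_
  have hs1 := (hasSum_exp' (z * A * q ^ j)).mul_left ((1 / q) ^ ((j + 1).choose 2))
  rw [← ENNReal.ofReal_tsum_of_nonneg (fun N => by positivity) hs1.summable, hs1.tsum_eq]

/-- the asymptotic form of the upper bound -/
theorem asym_press (hd : 1 ≤ d) (r h ρ C : ℝ) (hh : 0 < h) (hρ : 0 < ρ)
    (hrh : 2 * (√d * h) < r) (z : NNReal) {L : ℕ → ℝ} (hL : Tendsto L atTop atTop)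
    (hC : ρ ^ 2 * bv d (r - 2 * (√d * h)) / 2 +
      z * (1 + (h ^ d / bv d (r - 2 * (√d * h)) + eps d) *
        Real.exp (ρ * bv d (r - 2 * (√d * h)))) *
        Real.exp (-(ρ * bv d (r - 2 * (√d * h)))) < C) :
    ∀ᶠ k in atTop, Xi volume (cl d r) z (cube d (L k)) ≤
      ENNReal.ofReal (Real.exp (C * L k ^ d)) := by
  have hdh : 0 ≤ √d * h := by positivity
  have hr : 0 < r := by linarith
  set B := bv d (r - 2 * (√d * h)) with hB
  have hB0 : 0 < B := bv_pos d (by linarith)
  set s := r - √d * h with hs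
  have hs0 : 0 < s := by linarith
  set m : ℕ → ℕ := fun k => ⌊L k / h⌋₊ + 1 with hm
  set N : ℕ → ℕ := fun k => ⌊ρ * L k ^ d⌋₊ with hNdef
  have hmL : Tendsto (fun k => (m k : ℝ) * h / L k) atTop (𝓝 1) := lim_floor' hh hL
  have hminf := lim_m hh hL hmL
  have hLd : Tendsto (fun k => L k ^ d) atTop atTop := (tendsto_pow_atTop (by omega)).comp hL
  have hN : Tendsto (fun k => (N k : ℝ) / L k ^ d) atTop (𝓝 ρ) := by
    have h1 : Tendsto (fun x : ℝ => (⌊ρ * x⌋₊ : ℝ) / x) atTop (𝓝 ρ) :=
      tendsto_nat_floor_mul_div_atTop hρ.le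
    exact h1.comp hLd
  have hhd : 0 < h ^ d := by positivity
  set sK : ℝ := B * eps d / h ^ d with hsK
  have hsK0 : 0 ≤ sK := by rw [hsK]; have := eps_pos d; positivity
  set κ : ℕ → ℝ := fun k => B / (m k * h + 2 * s) ^ d with hκ
  have hNinf : Tendsto (fun k => (N k : ℝ)) atTop atTop := lim_N hd hρ hL hN
  have hκ0 : Tendsto κ atTop (𝓝 0) := lim_k hd B hh hminf
  have hκn : Tendsto (fun k => κ k * (m k : ℝ) ^ d) atTop (𝓝 (B / h ^ d)) :=
    lim_kn B hh hs0.le hminf
  have c1 : ∀ᶠ k in atTop, 0 < m k := by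
    filter_upwards [hminf.eventually_gt_atTop 0] with k hk
    exact_mod_cast hk
  have hκN : Tendsto (fun k => κ k * N k) atTop (𝓝 (ρ * B)) := by
    have h1 := hκn.mul (lim_Nn hh hL hmL hN)
    have h2 : B / h ^ d * (ρ * h ^ d) = ρ * B := by field_simp
    rw [h2] at h1
    refine h1.congr' ?_
    filter_upwards [c1] with k hk
    have hmk : (0 : ℝ) < m k := by exact_mod_cast hk
    field_simp
  have hκL : Tendsto (fun k => κ k * L k ^ d) atTop (𝓝 B) := by
    have h1 := (hκn.div (lim_n (d := d) hmL) one_ne_zero).mul_const (h ^ d)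
    have h2 : B / h ^ d / 1 * h ^ d = B := by field_simp
    rw [h2] at h1
    refine h1.congr' ?_
    filter_upwards [c1, hL.eventually_gt_atTop 0] with k hk hLk
    have hmk : (0 : ℝ) < m k := by exact_mod_cast hk
    simp only [Pi.div_apply]
    field_simp
  have c3 : ∀ᶠ k in atTop, κ k < 1 := hκ0.eventually_lt_const one_pos
  -- the quotient
  have hκq : Tendsto (fun k => κ k * N k / (1 - κ k)) atTop (𝓝 (ρ * B)) := by
    have h1 := hκN.div (hκ0.const_sub 1) (by norm_num)
    rw [sub_zero, div_one] at h1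
    exact h1
  have hNL : Tendsto (fun k => (N k + 1) / L k ^ d) atTop (𝓝 ρ) := by
    have h1 : Tendsto (fun k => 1 / L k ^ d) atTop (𝓝 0) := hLd.const_div_atTop 1
    have h2 := hN.add h1
    rw [add_zero] at h2
    refine h2.congr fun k => ?_
    rw [add_div]
  have e1 : Tendsto (fun k => (κ k * N k / (1 - κ k)) * ((N k + 1) / L k ^ d) / 2) atTop
      (𝓝 (ρ * B * ρ / 2)) := (hκq.mul hNL).div_const 2
  have e2 : Tendsto (fun k => (m k : ℝ) ^ d * h ^ d / L k ^ d) atTop (𝓝 1) := lim_n hmL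
  have e3 : Tendsto (fun k => (1 + sK) * h ^ d / (κ k * L k ^ d) *
      Real.exp (κ k * N k / (1 - κ k))) atTop
      (𝓝 ((1 + sK) * h ^ d / B * Real.exp (ρ * B))) :=
    (tendsto_const_nhds.div hκL hB0.ne').mul ((Real.continuous_exp.tendsto _).comp hκq)
  have e4 : Tendsto (fun k => Real.exp (-(κ k * N k))) atTop (𝓝 (Real.exp (-(ρ * B)))) :=
    (Real.continuous_exp.tendsto _).comp hκN.neg
  have e5 : Tendsto (fun k => (κ k * N k / (1 - κ k)) * ((N k + 1) / L k ^ d) / 2 +
      z * ((m k : ℝ) ^ d * h ^ d / L k ^ d + (1 + sK) * h ^ d / (κ k * L k ^ d) *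
      Real.exp (κ k * N k / (1 - κ k))) * Real.exp (-(κ k * N k))) atTop
      (𝓝 (ρ * B * ρ / 2 + z * (1 + (1 + sK) * h ^ d / B * Real.exp (ρ * B)) *
        Real.exp (-(ρ * B)))) :=
    e1.add ((tendsto_const_nhds.mul (e2.add e3)).mul e4)
  have e6 : ρ * B * ρ / 2 + z * (1 + (1 + sK) * h ^ d / B * Real.exp (ρ * B)) *
        Real.exp (-(ρ * B)) < C := by
    refine lt_of_eq_of_lt ?_ hC
    have : (1 + sK) * h ^ d / B = h ^ d / B + eps d := by rw [hsK]; field_simp
    rw [this]
    ring
  filter_upwards [c1, c3, hL.eventually_gt_atTop 0, e5.eventually_lt_const e6] with k k1 k3 k4 k5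
  have hmk : (0 : ℝ) < m k := by exact_mod_cast k1
  have hLm : L k < m k * h := by
    have := Nat.lt_floor_add_one (L k / h)
    rw [div_lt_iff₀ hh] at this
    simp only [hm]
    push_cast
    exact this
  have hκ0' : 0 < κ k := by
    simp only [hκ]
    positivity
  refine (Xi_cube_le hd r (L k) h (m k) (N k) hh k4 hLm hrh z (κ k) sK rfl k3 rfl).trans ?_
  refine ENNReal.ofReal_le_ofReal ?_
  have hq0 : 0 < 1 - κ k := by linarith
  have hLk : 0 < L k ^ d := by positivity
  have f1 : 1 / (1 - κ k) ≤ Real.exp (κ k / (1 - κ k)) := by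
    have := Real.add_one_le_exp (κ k / (1 - κ k))
    refine le_trans (le_of_eq ?_) this
    field_simp
    ring
  have f2 : (1 / (1 - κ k)) ^ ((N k + 1).choose 2) ≤
      Real.exp ((κ k * N k / (1 - κ k)) * ((N k + 1) / L k ^ d) / 2 * L k ^ d) := by
    calc (1 / (1 - κ k)) ^ ((N k + 1).choose 2) ≤
        Real.exp (κ k / (1 - κ k)) ^ ((N k + 1).choose 2) :=
          pow_le_pow_left₀ (by positivity) f1 _
      _ = Real.exp ((((N k + 1).choose 2 : ℕ) : ℝ) * (κ k / (1 - κ k))) := by
          rw [Real.exp_nat_mul]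
      _ = _ := by
          rw [Nat.cast_choose_two]
          congr 1
          push_cast
          field_simp
          ring
  have f3 : (1 - κ k) ^ N k ≤ Real.exp (-(κ k * N k)) := by
    have h1 : 1 - κ k ≤ Real.exp (-κ k) := by
      have := Real.add_one_le_exp (-κ k)
      linarith
    calc (1 - κ k) ^ N k ≤ Real.exp (-κ k) ^ N k := pow_le_pow_left₀ hq0.le h1 _
      _ = Real.exp ((N k : ℝ) * (-κ k)) := by rw [Real.exp_nat_mul]
      _ = _ := by congr 1; ring
  have f4 : th (1 - κ k) sK (N k) ≤ (1 + sK) / κ k * Real.exp (κ k * N k / (1 - κ k)) := by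
    rw [th_eq hq0 (by linarith)]
    have h1 : (1 / (1 - κ k)) ^ N k ≤ Real.exp (κ k * N k / (1 - κ k)) := by
      calc (1 / (1 - κ k)) ^ N k ≤ Real.exp (κ k / (1 - κ k)) ^ N k :=
            pow_le_pow_left₀ (by positivity) f1 _
        _ = Real.exp ((N k : ℝ) * (κ k / (1 - κ k))) := by rw [Real.exp_nat_mul]
        _ = _ := by congr 1; ring
    have h2 : 1 - (1 - κ k) = κ k := by ring
    rw [h2, mul_div_assoc, div_mul_eq_mul_div, mul_div_assoc]
    have h3 : ((1 / (1 - κ k)) ^ N k - 1) / κ k ≤ Real.exp (κ k * N k / (1 - κ k)) / κ k := by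
      gcongr
      linarith
    have h4 : 0 ≤ ((1 / (1 - κ k)) ^ N k - 1) / κ k := by
      refine div_nonneg ?_ hκ0'.le
      have : 1 ≤ (1 / (1 - κ k)) ^ N k := one_le_pow₀ (by
        rw [le_div_iff₀ hq0]; linarith)
      linarith
    exact mul_le_mul (by linarith) h3 h4 (by positivity)
  have hth0 := th_nonneg hq0 hsK0 (N k)
  have f5 : z * (((m k : ℝ) ^ d + th (1 - κ k) sK (N k)) * h ^ d) * (1 - κ k) ^ N k ≤
      z * ((m k : ℝ) ^ d * h ^ d / L k ^ d + (1 + sK) * h ^ d / (κ k * L k ^ d) *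
      Real.exp (κ k * N k / (1 - κ k))) * Real.exp (-(κ k * N k)) * L k ^ d := by
    calc z * (((m k : ℝ) ^ d + th (1 - κ k) sK (N k)) * h ^ d) * (1 - κ k) ^ N k
        ≤ z * (((m k : ℝ) ^ d + (1 + sK) / κ k * Real.exp (κ k * N k / (1 - κ k))) * h ^ d) *
          Real.exp (-(κ k * N k)) := by gcongr
      _ = _ := by field_simp
  calc (1 / (1 - κ k)) ^ ((N k + 1).choose 2) *
      Real.exp (z * (((m k : ℝ) ^ d + th (1 - κ k) sK (N k)) * h ^ d) * (1 - κ k) ^ N k)
      ≤ Real.exp ((κ k * N k / (1 - κ k)) * ((N k + 1) / L k ^ d) / 2 * L k ^ d) *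
        Real.exp (z * ((m k : ℝ) ^ d * h ^ d / L k ^ d + (1 + sK) * h ^ d / (κ k * L k ^ d) *
      Real.exp (κ k * N k / (1 - κ k))) * Real.exp (-(κ k * N k)) * L k ^ d) := by gcongr
    _ ≤ Real.exp (C * L k ^ d) := by
        rw [← Real.exp_add]
        refine Real.exp_le_exp.2 ?_
        have := mul_le_mul_of_nonneg_right k5.le hLk.le
        linarith

end Pool.Agent.U279.PG
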