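import Mathlib

/-!
Grand canonical partition functions of a hard core gas on a measure space: the splitting of the
configurations of a union of two regions.
-/

set_option autoImplicit false
open MeasureTheory ENNReal Finset

namespace Pool.Agent.U279.PG

variable {X : Type} [MeasurableSpace X]

/-- the points of the tuple `x` are pairwise compatible -/
def Pk (R : X → X → Prop) {ι : Type} (x : ι → X) : Prop := ∀ i j, i ≠ j → ¬ R (x i) (x j)

/-- the admissible configurations in `U` indexed by `ι` -/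
def Gd (R : X → X → Prop) (ι : Type) (U : Set X) : Set (ι → X) := {x | Pk R x ∧ ∀ i, x i ∈ U}

/-- the points of `D` which are compatible with all points of `a` -/
def away (R : X → X → Prop) {ι : Type} (a : ι → X) (D : Set X) : Set X :=
  {y | y ∈ D ∧ ∀ i, ¬ R (a i) y}

/-- the volume of the set of admissible configurations -/
noncomputable def Zn (μ : Measure X) (R : X → X → Prop) (ι : Type) [Fintype ι] (U : Set X) :
    ℝ≥0∞ := (Measure.pi fun _ : ι => μ) (Gd R ι U)

/-- the grand canonical partition function of the region `U` at activity `z` -/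
noncomputable def Xi (μ : Measure X) (R : X → X → Prop) (z : NNReal) (U : Set X) : ℝ≥0∞ :=
  ∑' n : ℕ, ((z : ℝ≥0∞) ^ n / (n.factorial : ℝ≥0∞)) * Zn μ R (Fin n) U

theorem Gd_meas {R : X → X → Prop} (hR : MeasurableSet {p : X × X | R p.1 p.2}) (ι : Type)
    [Fintype ι] {U : Set X} (hU : MeasurableSet U) : MeasurableSet (Gd R ι U) := by
  have h1 : Gd R ι U = (⋂ i : ι, ⋂ j : ι, {x : ι → X | i ≠ j → ¬ R (x i) (x j)}) ∩
      ⋂ i : ι, {x : ι → X | x i ∈ U} := by
    ext x
    simp only [Gd, Pk, Set.mem_ofPred_eq, Set.mem_inter_iff, Set.mem_iInter]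
  rw [h1]
  refine MeasurableSet.inter (MeasurableSet.iInter fun i => MeasurableSet.iInter fun j => ?_)
    (MeasurableSet.iInter fun i => measurable_pi_apply i hU)
  by_cases hij : i = j
  · have : {x : ι → X | i ≠ j → ¬ R (x i) (x j)} = Set.univ := by
      ext x; simp [hij]
    rw [this]
    exact MeasurableSet.univ
  · have : {x : ι → X | i ≠ j → ¬ R (x i) (x j)} =
        (fun x : ι → X => (x i, x j)) ⁻¹' {p : X × X | R p.1 p.2}ᶜ := by
      ext x; simp [hij]
    rw [this]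
    exact ((measurable_pi_apply i).prodMk (measurable_pi_apply j)) hR.compl

/-- sections of a measurable set -/
theorem Gd_sec_meas {R : X → X → Prop} (hR : MeasurableSet {p : X × X | R p.1 p.2}) {Y : Type}
    [MeasurableSpace Y] (ι : Type) [Fintype ι] {S : Set (Y × X)} (hS : MeasurableSet S) :
    MeasurableSet {p : Y × (ι → X) | p.2 ∈ Gd R ι {x | (p.1, x) ∈ S}} := by
  have h1 : {p : Y × (ι → X) | p.2 ∈ Gd R ι {x | (p.1, x) ∈ S}} =
      (Prod.snd ⁻¹' Gd R ι Set.univ) ∩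
      ⋂ i : ι, (fun p : Y × (ι → X) => (p.1, p.2 i)) ⁻¹' S := by
    ext x
    simp [Gd, Set.mem_iInter]
  rw [h1]
  refine MeasurableSet.inter (measurable_snd (Gd_meas hR ι MeasurableSet.univ))
    (MeasurableSet.iInter fun i => ?_)
  exact (measurable_fst.prodMk ((measurable_pi_apply i).comp measurable_snd)) hS

theorem Zn_sec_meas (μ : Measure X) [SigmaFinite μ] {R : X → X → Prop}
    (hR : MeasurableSet {p : X × X | R p.1 p.2}) {Y : Type}
    [MeasurableSpace Y] (ι : Type) [Fintype ι] {S : Set (Y × X)} (hS : MeasurableSet S) :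
    Measurable fun y : Y => Zn μ R ι {x | (y, x) ∈ S} :=
  measurable_measure_prodMk_left (ν := Measure.pi fun _ : ι => μ) (Gd_sec_meas hR ι hS)

theorem Xi_sec_meas (μ : Measure X) [SigmaFinite μ] {R : X → X → Prop}
    (hR : MeasurableSet {p : X × X | R p.1 p.2}) (z : NNReal) {Y : Type}
    [MeasurableSpace Y] {S : Set (Y × X)} (hS : MeasurableSet S) :
    Measurable fun y : Y => Xi μ R z {x | (y, x) ∈ S} := by
  unfold Xi
  exact Measurable.tsum fun n => (Zn_sec_meas μ hR (Fin n) hS).const_mul _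

theorem away_sec {R : X → X → Prop} (hR : MeasurableSet {p : X × X | R p.1 p.2}) {ι : Type}
    [Fintype ι] {D : Set X} (hD : MeasurableSet D) :
    MeasurableSet {p : (ι → X) × X | p.2 ∈ away R p.1 D} := by
  have h1 : {p : (ι → X) × X | p.2 ∈ away R p.1 D} = (Prod.snd ⁻¹' D) ∩
      ⋂ i : ι, (fun p : (ι → X) × X => (p.1 i, p.2)) ⁻¹' {p : X × X | R p.1 p.2}ᶜ := by
    ext p
    simp [away, Set.mem_iInter]
  rw [h1]
  refine MeasurableSet.inter (measurable_snd hD) (MeasurableSet.iInter fun i => ?_)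
  exact (((measurable_pi_apply i).comp measurable_fst).prodMk measurable_snd) hR.compl

theorem away_meas {R : X → X → Prop} (hR : MeasurableSet {p : X × X | R p.1 p.2}) {ι : Type}
    [Fintype ι] (a : ι → X) {D : Set X} (hD : MeasurableSet D) : MeasurableSet (away R a D) :=
  measurable_prodMk_left (x := a) (away_sec hR hD)

theorem piCL_apply {ι κ : Type} (e : ι ≃ κ) (x : ι → X) (j : κ) :
    (MeasurableEquiv.piCongrLeft (fun _ : κ => X) e) x j = x (e.symm j) := by
  obtain ⟨i, rfl⟩ := e.surjective j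
  rw [MeasurableEquiv.coe_piCongrLeft, Equiv.piCongrLeft_apply_apply, e.symm_apply_apply]

theorem Gd_reindex (R : X → X → Prop) {ι κ : Type} (e : ι ≃ κ) (U : Set X) :
    (MeasurableEquiv.piCongrLeft (fun _ : κ => X) e) ⁻¹' Gd R κ U = Gd R ι U := by
  ext x
  simp only [Set.mem_preimage, Gd, Pk, Set.mem_ofPred_eq, piCL_apply]
  constructor
  · rintro ⟨h1, h2⟩
    refine ⟨fun i j hij => ?_, fun i => ?_⟩
    · have := h1 (e i) (e j) (fun h => hij (e.injective h))
      simpa using this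
    · simpa using h2 (e i)
  · rintro ⟨h1, h2⟩
    exact ⟨fun i j hij => h1 _ _ (fun h => hij (e.symm.injective h)), fun i => h2 _⟩

theorem Zn_congr (μ : Measure X) [SigmaFinite μ] (R : X → X → Prop) {ι κ : Type} [Fintype ι]
    [Fintype κ] (e : ι ≃ κ) (U : Set X) : Zn μ R ι U = Zn μ R κ U := by
  unfold Zn
  have h1 := measurePreserving_piCongrLeft (fun _ : κ => μ) e
  rw [← Gd_reindex R e U]
  exact h1.measure_preimage_equiv _

theorem away_reindex (R : X → X → Prop) {ι κ : Type} (e : ι ≃ κ) (x : ι → X) (D : Set X) :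
    away R ((MeasurableEquiv.piCongrLeft (fun _ : κ => X) e) x) D = away R x D := by
  ext y
  simp only [away, Set.mem_ofPred_eq, piCL_apply]
  refine and_congr_right fun _ => ⟨fun h i => ?_, fun h i => h _⟩
  simpa using h (e i)

theorem lint_congr (μ : Measure X) [SigmaFinite μ] (R : X → X → Prop) {ι κ : Type} [Fintype ι]
    [Fintype κ] (e : ι ≃ κ) (U D : Set X) (F : Set X → ℝ≥0∞) :
    ∫⁻ a in Gd R ι U, F (away R a D) ∂(Measure.pi fun _ : ι => μ) =
      ∫⁻ a in Gd R κ U, F (away R a D) ∂(Measure.pi fun _ : κ => μ) := by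
  have h1 := measurePreserving_piCongrLeft (fun _ : κ => μ) e
  have h2 := h1.restrict_preimage_emb (MeasurableEquiv.measurableEmbedding _) (Gd R κ U)
  rw [Gd_reindex R e U] at h2
  rw [← h2.lintegral_comp_emb (MeasurableEquiv.measurableEmbedding _)]
  simp only [away_reindex]

/-- the part of the configurations where exactly the points with index in `s` are in `U` -/
theorem part_eq (μ : Measure X) [SigmaFinite μ] {R : X → X → Prop}
    (hR : MeasurableSet {p : X × X | R p.1 p.2}) (hsymm : ∀ u v, R u v → R v u)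
    {U D : Set X} (hU : MeasurableSet U) (hD : MeasurableSet D) (hUD : Disjoint U D) (N : ℕ)
    (s : Finset (Fin N)) :
    (Measure.pi fun _ : Fin N => μ) {x | x ∈ Gd R (Fin N) (U ∪ D) ∧ ∀ i, x i ∈ U ↔ i ∈ s} =
      ∫⁻ a in Gd R (Fin s.card) U, Zn μ R (Fin (N - s.card)) (away R a D)
        ∂(Measure.pi fun _ => μ) := by
  classical
  set p : Fin N → Prop := fun i => i ∈ s with hp
  have hmp := measurePreserving_piEquivPiSubtypeProd (fun _ : Fin N => μ) p
  set T : Set (({i // p i} → X) × ({i // ¬ p i} → X)) :=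
    {q | q.1 ∈ Gd R _ U ∧ q.2 ∈ Gd R _ (away R q.1 D)} with hT
  have hTm : MeasurableSet T := by
    have h1 := Gd_sec_meas hR {i // ¬ p i} (away_sec (ι := {i // p i}) hR hD)
    have h2 : T = (Prod.fst ⁻¹' Gd R _ U) ∩
        {q : ({i // p i} → X) × ({i // ¬ p i} → X) | q.2 ∈ Gd R {i // ¬ p i}
          {x | (q.1, x) ∈ {p : ({i // p i} → X) × X | p.2 ∈ away R p.1 D}}} := by
      ext q
      simp [hT]
    rw [h2]
    exact (measurable_fst (Gd_meas hR _ hU)).inter h1
  have hpre : {x | x ∈ Gd R (Fin N) (U ∪ D) ∧ ∀ i, x i ∈ U ↔ i ∈ s} =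
      (MeasurableEquiv.piEquivPiSubtypeProd (fun _ : Fin N => X) p) ⁻¹' T := by
    ext x
    simp only [hT, Set.mem_preimage, Set.mem_ofPred_eq, Gd, Pk, away,
      MeasurableEquiv.piEquivPiSubtypeProd, MeasurableEquiv.coe_mk, Equiv.piEquivPiSubtypeProd,
      Equiv.coe_fn_mk]
    constructor
    · rintro ⟨⟨h1, h2⟩, h3⟩
      refine ⟨⟨fun i j hij => h1 _ _ fun h => hij (Subtype.ext h), fun i => (h3 i).2 i.2⟩,
        fun i j hij => h1 _ _ fun h => hij (Subtype.ext h), fun j => ⟨?_, fun i => ?_⟩⟩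
      · rcases h2 j with h | h
        · exact absurd ((h3 j).1 h) j.2
        · exact h
      · exact h1 _ _ fun h => j.2 (h ▸ i.2)
    · rintro ⟨⟨h1, h2⟩, h3, h4⟩
      have h5 : ∀ i, x i ∈ U ↔ i ∈ s := by
        intro i
        constructor
        · intro h
          by_contra hi
          exact Set.disjoint_left.1 hUD h (h4 ⟨i, hi⟩).1
        · intro h
          exact h2 ⟨i, h⟩
      refine ⟨⟨fun i j hij => ?_, fun i => ?_⟩, h5⟩
      · by_cases hi : i ∈ s
        · by_cases hj : j ∈ s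
          · exact h1 ⟨i, hi⟩ ⟨j, hj⟩ fun h => hij (congrArg Subtype.val h)
          · exact (h4 ⟨j, hj⟩).2 ⟨i, hi⟩
        · by_cases hj : j ∈ s
          · exact fun h => (h4 ⟨i, hi⟩).2 ⟨j, hj⟩ (hsymm _ _ h)
          · exact h3 ⟨i, hi⟩ ⟨j, hj⟩ fun h => hij (congrArg Subtype.val h)
      · by_cases hi : i ∈ s
        · exact Or.inl ((h5 i).2 hi)
        · exact Or.inr (h4 ⟨i, hi⟩).1
  rw [hpre, hmp.measure_preimage_equiv, Measure.prod_apply hTm]
  have e1 : {i // p i} ≃ Fin s.card := s.equivFin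
  have e2 : {i // ¬ p i} ≃ Fin (N - s.card) := by
    refine Fintype.equivFinOfCardEq ?_
    rw [Fintype.card_subtype_compl, Fintype.card_fin]
    congr 1
    simp [hp]
  refine Eq.trans ?_ (lint_congr μ R e1 U D (fun V => Zn μ R (Fin (N - s.card)) V))
  rw [← lintegral_indicator (Gd_meas hR _ hU)]
  refine (lintegral_congr (g := fun a : {i // p i} → X => (Gd R {i // p i} U).indicator
    (fun a => Zn μ R (Fin (N - s.card)) (away R a D)) a) fun a => ?_).trans (by congr 2; exact Subsingleton.elim _ _)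
  by_cases ha : a ∈ Gd R {i // p i} U
  · rw [Set.indicator_of_mem ha, ← Zn_congr μ R e2]
    unfold Zn
    congr 1
    ext b
    simp [hT, ha]
  · rw [Set.indicator_of_notMem ha]
    have : (Prod.mk a ⁻¹' T) = ∅ := by
      ext b
      simp [hT, ha]
    rw [this, measure_empty]

theorem Zn_union (μ : Measure X) [SigmaFinite μ] {R : X → X → Prop}
    (hR : MeasurableSet {p : X × X | R p.1 p.2}) (hsymm : ∀ u v, R u v → R v u)
    {U D : Set X} (hU : MeasurableSet U) (hD : MeasurableSet D) (hUD : Disjoint U D) (N : ℕ) :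
    Zn μ R (Fin N) (U ∪ D) = ∑ n ∈ range (N + 1), (N.choose n : ℝ≥0∞) *
      ∫⁻ a in Gd R (Fin n) U, Zn μ R (Fin (N - n)) (away R a D) ∂(Measure.pi fun _ => μ) := by
  classical
  have h1 : Gd R (Fin N) (U ∪ D) = ⋃ s : Finset (Fin N),
      {x | x ∈ Gd R (Fin N) (U ∪ D) ∧ ∀ i, x i ∈ U ↔ i ∈ s} := by
    ext x
    simp only [Set.mem_iUnion, Set.mem_ofPred_eq]
    constructor
    · intro hx
      exact ⟨univ.filter (fun i => x i ∈ U), hx, fun i => by simp⟩
    · rintro ⟨_, hx, _⟩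
      exact hx
  have hmeas : ∀ s : Finset (Fin N), MeasurableSet
      {x | x ∈ Gd R (Fin N) (U ∪ D) ∧ ∀ i, x i ∈ U ↔ i ∈ s} := by
    intro s
    have h2 : {x | x ∈ Gd R (Fin N) (U ∪ D) ∧ ∀ i, x i ∈ U ↔ i ∈ s} =
        Gd R (Fin N) (U ∪ D) ∩ ⋂ i, {x : Fin N → X | x i ∈ U ↔ i ∈ s} := by
      ext x; simp [Set.mem_iInter]
    rw [h2]
    refine (Gd_meas hR _ (hU.union hD)).inter (MeasurableSet.iInter fun i => ?_)
    by_cases hi : i ∈ s
    · have : {x : Fin N → X | x i ∈ U ↔ i ∈ s} = (fun x : Fin N → X => x i) ⁻¹' U := by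
        ext x; simp [hi]
      rw [this]; exact measurable_pi_apply i hU
    · have : {x : Fin N → X | x i ∈ U ↔ i ∈ s} = (fun x : Fin N → X => x i) ⁻¹' Uᶜ := by
        ext x; simp [hi]
      rw [this]; exact measurable_pi_apply i hU.compl
  have hdis : Pairwise (Function.onFun Disjoint fun s : Finset (Fin N) =>
      {x | x ∈ Gd R (Fin N) (U ∪ D) ∧ ∀ i, x i ∈ U ↔ i ∈ s}) := by
    intro s t hst
    rw [Function.onFun, Set.disjoint_left]
    rintro x ⟨_, hx⟩ ⟨_, hx'⟩
    apply hst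
    ext i
    rw [← hx i, ← hx' i]
  unfold Zn
  conv_lhs => rw [h1]
  rw [measure_iUnion hdis hmeas, tsum_fintype]
  rw [sum_congr rfl fun s _ => part_eq μ hR hsymm hU hD hUD N s]
  have h3 := Finset.sum_powerset_apply_card (x := (univ : Finset (Fin N)))
    (fun n => ∫⁻ a in Gd R (Fin n) U,
    Zn μ R (Fin (N - n)) (away R a D) ∂(Measure.pi fun _ => μ))
  rw [powerset_univ] at h3
  rw [h3, card_univ, Fintype.card_fin]
  refine sum_congr rfl fun n _ => ?_
  rw [nsmul_eq_mul]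
  rfl

/-- the expectation functional of the region `U` (not normalised) -/
noncomputable def Ex (μ : Measure X) (R : X → X → Prop) (z : NNReal) (U : Set X)
    (F : ∀ n : ℕ, (Fin n → X) → ℝ≥0∞) : ℝ≥0∞ :=
  ∑' n : ℕ, ((z : ℝ≥0∞) ^ n / (n.factorial : ℝ≥0∞)) *
    ∫⁻ a in Gd R (Fin n) U, F n a ∂(Measure.pi fun _ => μ)

theorem Ex_one (μ : Measure X) (R : X → X → Prop) (z : NNReal) (U : Set X) :
    Ex μ R z U (fun _ _ => 1) = Xi μ R z U := by
  unfold Ex Xi Zn
  simp

theorem fact_split (z : ℝ≥0∞) (n k : ℕ) :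
    z ^ (n + k) / ((n + k).factorial : ℝ≥0∞) * ((n + k).choose n : ℝ≥0∞) =
      z ^ n / (n.factorial : ℝ≥0∞) * (z ^ k / (k.factorial : ℝ≥0∞)) := by
  have h1 : ((n + k).choose n : ℝ≥0∞) * ((n.factorial : ℝ≥0∞) * (k.factorial : ℝ≥0∞)) =
      ((n + k).factorial : ℝ≥0∞) := by
    have := Nat.add_choose_mul_factorial_mul_factorial n k
    rw [← Nat.choose_symm_add] at this
    rw [← mul_assoc]
    exact_mod_cast this
  have hn : (n.factorial : ℝ≥0∞) ≠ 0 := by exact_mod_cast n.factorial_ne_zero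
  have hk : (k.factorial : ℝ≥0∞) ≠ 0 := by exact_mod_cast k.factorial_ne_zero
  have hnk : ((n + k).factorial : ℝ≥0∞) ≠ 0 := by exact_mod_cast (n + k).factorial_ne_zero
  have hn' : (n.factorial : ℝ≥0∞) ≠ ⊤ := natCast_ne_top _
  have hk' : (k.factorial : ℝ≥0∞) ≠ ⊤ := natCast_ne_top _
  have hnk' : ((n + k).factorial : ℝ≥0∞) ≠ ⊤ := natCast_ne_top _
  have h2 : (((n + k).factorial : ℝ≥0∞))⁻¹ * ((n + k).choose n : ℝ≥0∞) =
      ((n.factorial : ℝ≥0∞))⁻¹ * ((k.factorial : ℝ≥0∞))⁻¹ := by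
    rw [← ENNReal.mul_inv (Or.inl hn) (Or.inl hn')]
    have hprod0 : (n.factorial : ℝ≥0∞) * (k.factorial : ℝ≥0∞) ≠ 0 := mul_ne_zero hn hk
    have hprodt : (n.factorial : ℝ≥0∞) * (k.factorial : ℝ≥0∞) ≠ ⊤ := ENNReal.mul_ne_top hn' hk'
    rw [← h1]
    rw [ENNReal.mul_inv (Or.inr hprodt) (Or.inl (natCast_ne_top _))]
    have hc : ((n + k).choose n : ℝ≥0∞) ≠ 0 := by
      have := Nat.choose_pos (Nat.le_add_right n k)
      exact_mod_cast this.ne'
    rw [mul_comm, ← mul_assoc, ENNReal.mul_inv_cancel hc (natCast_ne_top _), one_mul]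
  rw [pow_add, div_eq_mul_inv, div_eq_mul_inv, div_eq_mul_inv]
  calc z ^ n * z ^ k * ((n + k).factorial : ℝ≥0∞)⁻¹ * ((n + k).choose n : ℝ≥0∞)
      = z ^ n * z ^ k * (((n + k).factorial : ℝ≥0∞)⁻¹ * ((n + k).choose n : ℝ≥0∞)) := by ring
    _ = z ^ n * z ^ k * (((n.factorial : ℝ≥0∞))⁻¹ * ((k.factorial : ℝ≥0∞))⁻¹) := by rw [h2]
    _ = _ := by ring

/-- **Splitting.** -/
theorem Xi_union (μ : Measure X) [SigmaFinite μ] {R : X → X → Prop}
    (hR : MeasurableSet {p : X × X | R p.1 p.2}) (hsymm : ∀ u v, R u v → R v u) (z : NNReal)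
    {U D : Set X} (hU : MeasurableSet U) (hD : MeasurableSet D) (hUD : Disjoint U D) :
    Xi μ R z (U ∪ D) = Ex μ R z U (fun _ a => Xi μ R z (away R a D)) := by
  unfold Ex
  conv_lhs => unfold Xi
  set m : ℕ → ℕ → ℝ≥0∞ := fun n k =>
    ∫⁻ a in Gd R (Fin n) U, Zn μ R (Fin k) (away R a D) ∂(Measure.pi fun _ => μ) with hm
  set f : ℕ × ℕ → ℝ≥0∞ := fun p => ((z : ℝ≥0∞) ^ p.1 / (p.1.factorial : ℝ≥0∞)) *
    (((z : ℝ≥0∞) ^ p.2 / (p.2.factorial : ℝ≥0∞)) * m p.1 p.2) with hf
  have h1 : ∀ N : ℕ, ((z : ℝ≥0∞) ^ N / (N.factorial : ℝ≥0∞)) * Zn μ R (Fin N) (U ∪ D) =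
      ∑ p ∈ antidiagonal N, f p := by
    intro N
    rw [Zn_union μ hR hsymm hU hD hUD N, Finset.Nat.sum_antidiagonal_eq_sum_range_succ_mk, mul_sum]
    refine sum_congr rfl fun n hn => ?_
    have hnN : n ≤ N := by
      have := mem_range.1 hn
      omega
    obtain ⟨k, rfl⟩ := Nat.exists_eq_add_of_le hnN
    rw [Nat.add_sub_cancel_left, ← mul_assoc, fact_split, hf]
    dsimp only
    rw [mul_assoc]
  have h2 : ∑' N : ℕ, ∑ p ∈ antidiagonal N, f p = ∑' p : ℕ × ℕ, f p := by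
    rw [← HasAntidiagonal.sigmaAntidiagonalEquivProd.tsum_eq, ENNReal.tsum_sigma']
    refine tsum_congr fun N => ?_
    rw [tsum_fintype, ← Finset.sum_coe_sort]
    rfl
  rw [tsum_congr h1, h2, ENNReal.tsum_prod']
  refine tsum_congr fun n => ?_
  rw [hf]
  dsimp only
  rw [ENNReal.tsum_mul_left]
  congr 1
  unfold Xi
  rw [lintegral_tsum]
  · refine tsum_congr fun k => ?_
    rw [lintegral_const_mul]
    exact Zn_sec_meas μ hR (Fin k) (away_sec (ι := Fin n) hR hD)
  · intro k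
    exact ((Zn_sec_meas μ hR (Fin k) (away_sec (ι := Fin n) hR hD)).const_mul _).aemeasurable

end Pool.Agent.U279.PG
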