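import Pool.Agent.U279.PG.Num

/-!
Sums over the number of points of a Poisson process.
-/

set_option autoImplicit false
set_option linter.unusedSectionVars false
open MeasureTheory ENNReal Finset

namespace Pool.Agent.U279.PG

variable {X : Type} [MeasurableSpace X]

theorem tsum_first (v : ℝ) (hv : 0 ≤ v) :
    ∑' n : ℕ, (n : ℝ≥0∞) * ((ENNReal.ofReal v) ^ n / (n.factorial : ℝ≥0∞)) =
      ENNReal.ofReal v * ENNReal.ofReal (Real.exp v) := by
  rw [tsum_eq_zero_add' ENNReal.summable]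
  simp only [Nat.cast_zero, zero_mul, zero_add]
  simp only [fact_succ]
  rw [ENNReal.tsum_mul_left, tsum_exp v hv]

theorem tsum_second (v : ℝ) (hv : 0 ≤ v) :
    ∑' n : ℕ, (n : ℝ≥0∞) * ((n : ℝ≥0∞) * ((ENNReal.ofReal v) ^ n / (n.factorial : ℝ≥0∞))) =
      ENNReal.ofReal v * (ENNReal.ofReal v + 1) * ENNReal.ofReal (Real.exp v) := by
  rw [tsum_eq_zero_add' ENNReal.summable]
  simp only [Nat.cast_zero, zero_mul, zero_add]
  have h : ∀ n : ℕ, ((n + 1 : ℕ) : ℝ≥0∞) * (((n + 1 : ℕ) : ℝ≥0∞) *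
      ((ENNReal.ofReal v) ^ (n + 1) / ((n + 1).factorial : ℝ≥0∞))) =
      ENNReal.ofReal v * ((n : ℝ≥0∞) * ((ENNReal.ofReal v) ^ n / (n.factorial : ℝ≥0∞)) +
        (ENNReal.ofReal v) ^ n / (n.factorial : ℝ≥0∞)) := by
    intro n
    rw [fact_succ]
    push_cast
    ring
  simp only [h]
  rw [ENNReal.tsum_mul_left, ENNReal.tsum_add, tsum_first v hv, tsum_exp v hv]
  ring

theorem tsum_shift (v : ℝ) (hv : 0 ≤ v) (M : ℝ≥0∞) :
    ∑' n : ℕ, (M + n) ^ 2 * ((ENNReal.ofReal v) ^ n / (n.factorial : ℝ≥0∞)) =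
      (M ^ 2 + 2 * M * ENNReal.ofReal v + ENNReal.ofReal v * (ENNReal.ofReal v + 1)) *
        ENNReal.ofReal (Real.exp v) := by
  have h : ∀ n : ℕ, (M + n) ^ 2 * ((ENNReal.ofReal v) ^ n / (n.factorial : ℝ≥0∞)) =
      M ^ 2 * ((ENNReal.ofReal v) ^ n / (n.factorial : ℝ≥0∞)) +
      (2 * M * ((n : ℝ≥0∞) * ((ENNReal.ofReal v) ^ n / (n.factorial : ℝ≥0∞))) +
      (n : ℝ≥0∞) * ((n : ℝ≥0∞) * ((ENNReal.ofReal v) ^ n / (n.factorial : ℝ≥0∞)))) := by
    intro n
    ring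
  simp only [h]
  rw [ENNReal.tsum_add, ENNReal.tsum_add, ENNReal.tsum_mul_left, ENNReal.tsum_mul_left,
    tsum_exp v hv, tsum_first v hv, tsum_second v hv]
  ring

/-- the integral of a function of one coordinate -/
theorem lint_coord {n : ℕ} (μ : Measure X) [SigmaFinite μ] {U : Set X} {φ : X → ℝ≥0∞}
    (hφ : Measurable φ) (i : Fin (n + 1)) :
    ∫⁻ a in Set.univ.pi (fun _ : Fin (n + 1) => U), φ (a i) ∂(Measure.pi fun _ => μ) =
      μ U ^ n * ∫⁻ x in U, φ x ∂μ := by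
  have hmp := measurePreserving_piFinSuccAbove (fun _ : Fin (n + 1) => μ) i
  have e1 : ∀ x : Fin (n + 1) → X, (MeasurableEquiv.piFinSuccAbove (fun _ => X) i) x =
      (x i, fun j => x (i.succAbove j)) := by
    intro x
    rfl
  have hpre : Set.univ.pi (fun _ : Fin (n + 1) => U) =
      (MeasurableEquiv.piFinSuccAbove (fun _ => X) i) ⁻¹'
        (U ×ˢ Set.univ.pi (fun _ : Fin n => U)) := by
    ext x
    rw [Set.mem_preimage, e1]
    simp only [Set.mem_univ_pi, Set.mem_prod]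
    exact Fin.forall_iff_succAbove i
  have h2 := hmp.setLIntegral_comp_preimage_emb (MeasurableEquiv.measurableEmbedding _)
    (fun q : X × (Fin n → X) => φ q.1) (U ×ˢ Set.univ.pi (fun _ : Fin n => U))
  rw [← hpre] at h2
  simp only [e1] at h2
  rw [h2, ← Measure.prod_restrict]
  have h3 := lintegral_prod_mul (μ := μ.restrict U)
    (ν := (Measure.pi fun _ : Fin n => μ).restrict (Set.univ.pi fun _ => U)) (f := φ)
    (g := fun _ => 1) hφ.aemeasurable aemeasurable_const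
  simp only [mul_one] at h3
  rw [h3, lintegral_one, Measure.restrict_apply_univ, Measure.pi_pi, prod_const, card_univ,
    Fintype.card_fin, mul_comm]

/-- the sum over all numbers of points of the integral of a functional over the points of `U` -/
noncomputable def Pz (μ : Measure X) (q : ℝ≥0∞) (U : Set X)
    (F : ∀ n : ℕ, (Fin n → X) → ℝ≥0∞) : ℝ≥0∞ :=
  ∑' n : ℕ, (q ^ n / (n.factorial : ℝ≥0∞)) *
    ∫⁻ a in Set.univ.pi (fun _ : Fin n => U), F n a ∂(Measure.pi fun _ => μ)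

section
variable {μ : Measure X} [SigmaFinite μ]

theorem Pz_mono (q : ℝ≥0∞) {U : Set X} {F G : ∀ n : ℕ, (Fin n → X) → ℝ≥0∞}
    (h : ∀ n a, F n a ≤ G n a) : Pz μ q U F ≤ Pz μ q U G :=
  ENNReal.tsum_le_tsum fun n => mul_le_mul_right (lintegral_mono fun a => h n a) _

theorem Pz_add (q : ℝ≥0∞) {U : Set X} {F G : ∀ n : ℕ, (Fin n → X) → ℝ≥0∞}
    (hF : ∀ n, Measurable (F n)) :
    Pz μ q U (fun n a => F n a + G n a) = Pz μ q U F + Pz μ q U G := by
  unfold Pz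
  rw [← ENNReal.tsum_add]
  refine tsum_congr fun n => ?_
  rw [lintegral_add_left (hF n), mul_add]

theorem Pz_mul (q : ℝ≥0∞) {U : Set X} {F : ∀ n : ℕ, (Fin n → X) → ℝ≥0∞}
    (hF : ∀ n, Measurable (F n)) (c : ℝ≥0∞) :
    Pz μ q U (fun n a => c * F n a) = c * Pz μ q U F := by
  unfold Pz
  rw [← ENNReal.tsum_mul_left]
  refine tsum_congr fun n => ?_
  rw [lintegral_const_mul _ (hF n)]
  ring

theorem Pz_fun (q : ℝ≥0∞) {U : Set X} (f : ℕ → ℝ≥0∞) :
    Pz μ q U (fun n _ => f n) = ∑' n : ℕ, f n * ((q * μ U) ^ n / (n.factorial : ℝ≥0∞)) := by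
  unfold Pz
  refine tsum_congr fun n => ?_
  rw [setLIntegral_const, Measure.pi_pi, prod_const, card_univ, Fintype.card_fin, mul_pow,
    div_eq_mul_inv, div_eq_mul_inv]
  ring

theorem Pz_one {ρ : ℝ} (hρ : 0 ≤ ρ) {U : Set X} (hUt : μ U ≠ ⊤) :
    Pz μ (ENNReal.ofReal ρ) U (fun _ _ => 1) = ENNReal.ofReal (Real.exp (ρ * (μ U).toReal)) := by
  rw [Pz_fun]
  simp only [one_mul]
  rw [← tsum_exp _ (by positivity), ENNReal.ofReal_mul hρ, ENNReal.ofReal_toReal hUt]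

theorem Pz_sum {ρ : ℝ} (hρ : 0 ≤ ρ) {U : Set X} (hUt : μ U ≠ ⊤) {φ : X → ℝ≥0∞}
    (hφ : Measurable φ) :
    Pz μ (ENNReal.ofReal ρ) U (fun n a => ∑ i : Fin n, φ (a i)) =
      ENNReal.ofReal ρ * (∫⁻ x in U, φ x ∂μ) * ENNReal.ofReal (Real.exp (ρ * (μ U).toReal)) := by
  have hm : ∀ n : ℕ, ∫⁻ a in Set.univ.pi (fun _ : Fin (n + 1) => U), ∑ i, φ (a i)
      ∂(Measure.pi fun _ => μ) = ((n + 1 : ℕ) : ℝ≥0∞) * (μ U ^ n * ∫⁻ x in U, φ x ∂μ) := by
    intro n
    have hi : ∀ i : Fin (n + 1), Measurable fun a : Fin (n + 1) → X => φ (a i) := fun i =>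
      hφ.comp (measurable_pi_apply i)
    rw [lintegral_finsetSum _ fun i _ => hi i,
      sum_congr rfl fun i _ => lint_coord μ hφ i, sum_const, card_univ, Fintype.card_fin,
      nsmul_eq_mul]
  unfold Pz
  rw [tsum_eq_zero_add' ENNReal.summable]
  simp only [univ_eq_empty, sum_empty, lintegral_zero, mul_zero, zero_add]
  simp only [hm]
  have h2 : ENNReal.ofReal (ρ * (μ U).toReal) = ENNReal.ofReal ρ * μ U := by
    rw [ENNReal.ofReal_mul hρ, ENNReal.ofReal_toReal hUt]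
  rw [← tsum_exp _ (by positivity), h2, ← ENNReal.tsum_mul_left]
  refine tsum_congr fun n => ?_
  have h3 := fact_succ (ENNReal.ofReal ρ) n
  calc ENNReal.ofReal ρ ^ (n + 1) / ((n + 1).factorial : ℝ≥0∞) *
        (((n + 1 : ℕ) : ℝ≥0∞) * (μ U ^ n * ∫⁻ x in U, φ x ∂μ))
      = (((n + 1 : ℕ) : ℝ≥0∞) * (ENNReal.ofReal ρ ^ (n + 1) / ((n + 1).factorial : ℝ≥0∞))) *
        (μ U ^ n * ∫⁻ x in U, φ x ∂μ) := by ring
    _ = _ := by
        rw [h3, mul_pow, div_eq_mul_inv, div_eq_mul_inv]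
        ring

/-- the sum over all numbers of points of the integral over the admissible tuples -/
noncomputable def Pg (μ : Measure X) (R : X → X → Prop) (q : ℝ≥0∞) (U : Set X)
    (F : ∀ n : ℕ, (Fin n → X) → ℝ≥0∞) : ℝ≥0∞ :=
  ∑' n : ℕ, (q ^ n / (n.factorial : ℝ≥0∞)) *
    ∫⁻ a in Gd R (Fin n) U, F n a ∂(Measure.pi fun _ => μ)

/-- the tuples which are not admissible can be discarded -/
theorem Pz_le {R : X → X → Prop} (hR : MeasurableSet {p : X × X | R p.1 p.2})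
    (hsymm : ∀ u v, R u v → R v u) {ρ : ℝ} (hρ : 0 ≤ ρ) {U : Set X} (hU : MeasurableSet U)
    (hUt : μ U ≠ ⊤) {κ : ℝ≥0∞}
    (hκ : ∫⁻ x in U, μ (U ∩ {y | R x y}) ∂μ ≤ κ * μ U)
    {F : ∀ n : ℕ, (Fin n → X) → ℝ≥0∞} (hF : ∀ n a, F n a ≤ 1) :
    Pz μ (ENNReal.ofReal ρ) U F ≤ Pg μ R (ENNReal.ofReal ρ) U F +
      κ * ENNReal.ofReal ρ * (ENNReal.ofReal ρ * μ U) *
        ENNReal.ofReal (Real.exp (ρ * (μ U).toReal)) := by
  set q := ENNReal.ofReal ρ with hq
  have h2 : ENNReal.ofReal (ρ * (μ U).toReal) = q * μ U := by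
    rw [ENNReal.ofReal_mul hρ, ENNReal.ofReal_toReal hUt]
  have h3 := tsum_exp (ρ * (μ U).toReal) (by positivity)
  rw [h2] at h3
  have h4 : ∀ n : ℕ, ∫⁻ a in Set.univ.pi (fun _ : Fin n => U), F n a ∂(Measure.pi fun _ => μ) ≤
      (∫⁻ a in Gd R (Fin n) U, F n a ∂(Measure.pi fun _ => μ)) +
        (n.choose 2 : ℕ) * (κ * μ U ^ (n - 1)) := by
    intro n
    have hsub : Gd R (Fin n) U ⊆ Set.univ.pi fun _ : Fin n => U := fun x hx => by
      rw [Set.mem_univ_pi]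
      exact hx.2
    have hpi : (Measure.pi fun _ : Fin n => μ) (Set.univ.pi fun _ : Fin n => U) = μ U ^ n := by
      rw [Measure.pi_pi, prod_const, card_univ, Fintype.card_fin]
    have hcov : (Set.univ.pi fun _ : Fin n => U) ⊆ Gd R (Fin n) U ∪
        ((Set.univ.pi fun _ : Fin n => U) \ Gd R (Fin n) U) := by
      rw [Set.union_sdiff_cancel hsub]
    refine (lintegral_mono_set hcov).trans ((lintegral_union_le _ _ _).trans ?_)
    refine add_le_add le_rfl ?_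
    calc ∫⁻ a in (Set.univ.pi fun _ : Fin n => U) \ Gd R (Fin n) U, F n a
          ∂(Measure.pi fun _ => μ)
        ≤ ∫⁻ _ in (Set.univ.pi fun _ : Fin n => U) \ Gd R (Fin n) U, 1
          ∂(Measure.pi fun _ => μ) := lintegral_mono fun a => hF n a
      _ = μ U ^ n - Zn μ R (Fin n) U := by
          rw [setLIntegral_one, measure_sdiff hsub (Gd_meas hR _ hU).nullMeasurableSet, hpi]
          · rfl
          · refine ne_top_of_le_ne_top ?_ (measure_mono hsub)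
            rw [hpi]
            exact ENNReal.pow_ne_top hUt
      _ ≤ _ := tsub_le_iff_left.2 (Zn_lower hR hsymm hU hκ n)
  have h5 : ∑' n : ℕ, q ^ n / (n.factorial : ℝ≥0∞) *
      ((n.choose 2 : ℕ) * (κ * μ U ^ (n - 1))) ≤
      κ * q * (q * μ U) * ENNReal.ofReal (Real.exp (ρ * (μ U).toReal)) := by
    rw [← h3, ← ENNReal.tsum_mul_left, tsum_eq_zero_add' ENNReal.summable,
      tsum_eq_zero_add' ENNReal.summable]
    have e0 : ((Nat.choose 0 2 : ℕ) : ℝ≥0∞) = 0 := by norm_num [Nat.choose]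
    have e1 : ((Nat.choose (0 + 1) 2 : ℕ) : ℝ≥0∞) = 0 := by norm_num [Nat.choose]
    rw [e0, e1]
    simp only [zero_mul, mul_zero, zero_add]
    exact ENNReal.tsum_le_tsum fun n => choose_term _ _ _ n
  unfold Pz Pg
  calc ∑' n : ℕ, (q ^ n / (n.factorial : ℝ≥0∞)) *
        ∫⁻ a in Set.univ.pi (fun _ : Fin n => U), F n a ∂(Measure.pi fun _ => μ)
      ≤ ∑' n : ℕ, ((q ^ n / (n.factorial : ℝ≥0∞)) *
        (∫⁻ a in Gd R (Fin n) U, F n a ∂(Measure.pi fun _ => μ)) +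
        (q ^ n / (n.factorial : ℝ≥0∞)) * ((n.choose 2 : ℕ) * (κ * μ U ^ (n - 1)))) := by
        refine ENNReal.tsum_le_tsum fun n => ?_
        rw [← mul_add]
        exact mul_le_mul_right (h4 n) _
    _ ≤ _ := by
        rw [ENNReal.tsum_add]
        exact add_le_add le_rfl h5

end

end Pool.Agent.U279.PG
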