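import Pool.Agent.U279.PG.Low
import Pool.Agent.U279.PG.Sum

/-!
The law of the configuration in a window is close to a Poisson process.
-/

set_option autoImplicit false
set_option linter.unusedSectionVars false
open Filter Topology MeasureTheory ENNReal

namespace Pool.Agent.U279.PG
open Pool.Agent.K4H61.HS

variable {d : ℕ}

/-- the excess of the density over `ρ` -/
noncomputable def exc (d : ℕ) (r ρ : ℝ) (z : NNReal) (W : Set (Fin d → ℝ)) (x : Fin d → ℝ) :
    ℝ≥0∞ := rho volume (cl d r) z W x - ENNReal.ofReal ρ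

/-- the integral of the excess over the neighbourhood -/
noncomputable def nbe (d : ℕ) (r ρ : ℝ) (z : NNReal) (W : Set (Fin d → ℝ)) (x : Fin d → ℝ) :
    ℝ≥0∞ := ∫⁻ w in W ∩ {y | cl d r x y}, exc d r ρ z W w

theorem exc_meas (r ρ : ℝ) (z : NNReal) {W : Set (Fin d → ℝ)} (hW : MeasurableSet W) :
    Measurable (exc d r ρ z W) := (rho_meas r z hW).sub_const _

theorem nbe_meas (r ρ : ℝ) (z : NNReal) {W : Set (Fin d → ℝ)} (hW : MeasurableSet W) :
    Measurable (nbe d r ρ z W) := by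
  have hfm := exc_meas r ρ z hW
  have h1 : ∀ x, nbe d r ρ z W x = ∫⁻ w in W,
      Set.indicator {p : (Fin d → ℝ) × (Fin d → ℝ) | cl d r p.1 p.2}
        (fun p => exc d r ρ z W p.2) (x, w) := by
    intro x
    have hBm : MeasurableSet {y | cl d r x y} := nb_meas (cl_meas r) x
    have e : ∀ w, Set.indicator {p : (Fin d → ℝ) × (Fin d → ℝ) | cl d r p.1 p.2}
        (fun p => exc d r ρ z W p.2) (x, w) =
          Set.indicator {y | cl d r x y} (exc d r ρ z W) w := by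
      intro w
      simp only [Set.indicator, Set.mem_ofPred_eq]
    simp only [e, nbe]
    rw [setLIntegral_indicator hBm, Set.inter_comm]
  rw [show nbe d r ρ z W = _ from funext h1]
  exact Measurable.lintegral_prod_right' ((hfm.comp measurable_snd).indicator (cl_meas r))

theorem exc_int_ne_top (r ρ : ℝ) (z : NNReal) {W U : Set (Fin d → ℝ)} (hWt : volume W ≠ ⊤)
    (hUW : U ⊆ W) : ∫⁻ x in U, exc d r ρ z W x ≠ ⊤ := by
  refine ne_top_of_le_ne_top (rho_int_ne_top r z hWt) ?_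
  exact (lintegral_mono_set hUW).trans (lintegral_mono fun x => tsub_le_self)

theorem hole_away {M n : ℕ} (r : ℝ) (hr : 0 < r) (z : NNReal) {W U : Set (Fin d → ℝ)}
    (hW : MeasurableSet W) (hWt : volume W ≠ ⊤) (hU : MeasurableSet U) (hUW : U ⊆ W)
    (c : Fin M → Fin d → ℝ) (hc : U ⊆ {y | ∃ j, cl d r (c j) y}) (a : Fin n → Fin d → ℝ)
    (σ : ℝ) (hσ : σ = z * bv d (√(3 / 4) * r)) (hδ : 2 * (M + n) * σ < 1) :
    Xi volume (cl d r) z W ≤ ENNReal.ofReal (Real.exp ((1 - 2 * (M + n) * σ)⁻¹ *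
      (∫⁻ x in U ∪ ⋃ i, (W ∩ {y | cl d r (a i) y}), rho volume (cl d r) z W x).toReal)) *
      Xi volume (cl d r) z (away (cl d r) a (W \ U)) := by
  have hbv0 : 0 ≤ bv d (√(3 / 4) * r) := ENNReal.toReal_nonneg
  have hD : MeasurableSet (U ∪ ⋃ i, (W ∩ {y | cl d r (a i) y})) :=
    hU.union (MeasurableSet.iUnion fun i => hW.inter (nb_meas (cl_meas r) (a i)))
  have hDW : (U ∪ ⋃ i, (W ∩ {y | cl d r (a i) y})) ⊆ W :=
    Set.union_subset hUW (Set.iUnion_subset fun i => Set.inter_subset_left)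
  have h1 := hole (μ := volume) (cl_meas (d := d) r) (cl_symm r) z hW hD hDW hWt
    (κ := 2 * (M + n : ℕ) * bv d (√(3 / 4) * r)) (δ := 2 * (M + n) * σ) (by positivity)
    (by rw [hσ]; push_cast; linarith) hδ (fun F hF hFm => by
      refine sparse r hr (Fin.append c a) hFm fun y hy => ?_
      rcases hF hy with h | h
      · obtain ⟨j, hj⟩ := hc h
        exact ⟨Fin.castAdd n j, by rw [Fin.append_left]; exact hj⟩
      · obtain ⟨i, hi⟩ := Set.mem_iUnion.1 h
        exact ⟨Fin.natAdd M i, by rw [Fin.append_right]; exact hi.2⟩)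
  have h2 : W \ (U ∪ ⋃ i, (W ∩ {y | cl d r (a i) y})) = away (cl d r) a (W \ U) := by
    ext y
    simp only [away, Set.mem_sdiff, Set.mem_union, Set.mem_iUnion, Set.mem_inter_iff,
      Set.mem_ofPred_eq, not_or, not_exists, not_and]
    constructor
    · rintro ⟨h1, h2, h3⟩
      exact ⟨⟨h1, h2⟩, fun i => h3 i h1⟩
    · rintro ⟨⟨h1, h2⟩, h3⟩
      exact ⟨h1, h2, fun i _ => h3 i⟩
  rwa [h2] at h1

theorem vol_cover {M : ℕ} (r : ℝ) {U : Set (Fin d → ℝ)} (c : Fin M → Fin d → ℝ)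
    (hc : U ⊆ {y | ∃ j, cl d r (c j) y}) : volume U ≤ ENNReal.ofReal (M * bv d r) := by
  have h1 : U ⊆ ⋃ j : Fin M, {y | cl d r (c j) y} := fun y hy => by
    obtain ⟨j, hj⟩ := hc hy
    exact Set.mem_iUnion.2 ⟨j, hj⟩
  refine (measure_mono h1).trans ((measure_iUnion_fintype_le _ _).trans ?_)
  simp only [ball_vol]
  rw [Finset.sum_const, Finset.card_univ, Fintype.card_fin, nsmul_eq_mul,
    ENNReal.ofReal_mul (Nat.cast_nonneg M), ENNReal.ofReal_natCast]

theorem rho_hole_int {n : ℕ} (r ρ : ℝ) (hρ : 0 < ρ) (z : NNReal) {W U : Set (Fin d → ℝ)}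
    (a : Fin n → Fin d → ℝ) :
    ∫⁻ x in U ∪ ⋃ i, (W ∩ {y | cl d r (a i) y}), rho volume (cl d r) z W x ≤
      ENNReal.ofReal ρ * (volume U + n * ENNReal.ofReal (bv d r)) +
        ((∫⁻ x in U, exc d r ρ z W x) + ∑ i, nbe d r ρ z W (a i)) := by
  have h1 : ∀ x, rho volume (cl d r) z W x ≤ ENNReal.ofReal ρ + exc d r ρ z W x := fun x =>
    le_add_tsub
  have h2 : volume (U ∪ ⋃ i, (W ∩ {y | cl d r (a i) y})) ≤
      volume U + n * ENNReal.ofReal (bv d r) := by
    refine (measure_union_le _ _).trans (add_le_add le_rfl ?_)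
    refine (measure_iUnion_fintype_le _ _).trans ?_
    calc ∑ i : Fin n, volume (W ∩ {y | cl d r (a i) y})
        ≤ ∑ _i : Fin n, ENNReal.ofReal (bv d r) := Finset.sum_le_sum fun i _ => by
          rw [← ball_vol r (a i)]
          exact measure_mono Set.inter_subset_right
      _ = _ := by rw [Finset.sum_const, Finset.card_univ, Fintype.card_fin, nsmul_eq_mul]
  have h3 : ∫⁻ x in U ∪ ⋃ i, (W ∩ {y | cl d r (a i) y}), exc d r ρ z W x ≤
      (∫⁻ x in U, exc d r ρ z W x) + ∑ i, nbe d r ρ z W (a i) := by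
    refine (lintegral_union_le _ _ _).trans (add_le_add le_rfl ?_)
    refine (lintegral_iUnion_le _ _).trans ?_
    rw [tsum_fintype]
    exact le_refl _
  calc ∫⁻ x in U ∪ ⋃ i, (W ∩ {y | cl d r (a i) y}), rho volume (cl d r) z W x
      ≤ ∫⁻ x in U ∪ ⋃ i, (W ∩ {y | cl d r (a i) y}), (ENNReal.ofReal ρ + exc d r ρ z W x) :=
        lintegral_mono h1
    _ = ENNReal.ofReal ρ * volume (U ∪ ⋃ i, (W ∩ {y | cl d r (a i) y})) +
        ∫⁻ x in U ∪ ⋃ i, (W ∩ {y | cl d r (a i) y}), exc d r ρ z W x := by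
        rw [lintegral_add_left measurable_const, setLIntegral_const]
    _ ≤ _ := by gcongr

/-- comparison of the densities of the two processes -/
theorem pt_tv {M n : ℕ} (r ρ : ℝ) (hr : 0 < r) (hρ : 0 < ρ) (z : NNReal)
    (hz : (z : ℝ) = ρ * Real.exp (ρ * bv d r)) {W U : Set (Fin d → ℝ)}
    (hW : MeasurableSet W) (hWt : volume W ≠ ⊤) (hU : MeasurableSet U) (hUW : U ⊆ W)
    (c : Fin M → Fin d → ℝ) (hc : U ⊆ {y | ∃ j, cl d r (c j) y}) (a : Fin n → Fin d → ℝ)
    (σ lam : ℝ) (hσ : σ = z * bv d (√(3 / 4) * r)) (hlam : lam = ρ * bv d r) :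
    ENNReal.ofReal (Real.exp (-(ρ * (volume U).toReal))) * ENNReal.ofReal ρ ^ n ≤
      (z : ℝ≥0∞) ^ n * (Xi volume (cl d r) z (away (cl d r) a (W \ U)) /
        Xi volume (cl d r) z W) +
      ENNReal.ofReal (Real.exp (-(ρ * (volume U).toReal))) * ENNReal.ofReal ρ ^ n *
        (ENNReal.ofReal (4 * σ * (1 + lam)) * (M + n) ^ 2 +
          2 * ((∫⁻ x in U, exc d r ρ z W x) + ∑ i, nbe d r ρ z W (a i))) := by
  have hB0 : 0 ≤ bv d r := ENNReal.toReal_nonneg
  have hbv0 : 0 ≤ bv d (√(3 / 4) * r) := ENNReal.toReal_nonneg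
  have hσ0 : 0 ≤ σ := by rw [hσ]; positivity
  have hlam0 : 0 ≤ lam := by rw [hlam]; positivity
  have hUt : volume U ≠ ⊤ := ne_top_of_le_ne_top hWt (measure_mono hUW)
  set ν := ρ * (volume U).toReal with hν
  have hν0 : 0 ≤ ν := by positivity
  have hνM : ν ≤ M * lam := by
    have h1 := ENNReal.toReal_mono ENNReal.ofReal_ne_top (vol_cover r c hc)
    rw [ENNReal.toReal_ofReal (by positivity)] at h1
    have := mul_le_mul_of_nonneg_left h1 hρ.le
    rw [hν, hlam]
    linarith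
  have hcast : ((M : ℝ≥0∞) + n) = ENNReal.ofReal ((M : ℝ) + n) := by
    rw [ENNReal.ofReal_add (by positivity) (by positivity), ENNReal.ofReal_natCast,
      ENNReal.ofReal_natCast]
  have hmain : ENNReal.ofReal (4 * σ * (1 + lam)) * ((M : ℝ≥0∞) + n) ^ 2 =
      ENNReal.ofReal (4 * σ * (1 + lam) * (M + n) ^ 2) := by
    rw [ENNReal.ofReal_mul (p := 4 * σ * (1 + lam)) (by positivity),
      ENNReal.ofReal_pow (by positivity), hcast]
  rw [hmain]
  set S := (∫⁻ x in U, exc d r ρ z W x) + ∑ i, nbe d r ρ z W (a i) with hS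
  have hSt : S ≠ ⊤ := by
    refine ENNReal.add_ne_top.2 ⟨exc_int_ne_top r ρ z hWt hUW, ?_⟩
    refine ENNReal.sum_ne_top.2 fun i _ => ?_
    exact exc_int_ne_top r ρ z hWt Set.inter_subset_left
  rcases le_or_gt (4 * (M + n) * σ) 1 with h1 | h1
  swap
  · have h2 : (1 : ℝ) ≤ (M : ℝ) + n := by
      have h3 : 0 < M + n := by
        by_contra hcon
        have h4 : M = 0 := by omega
        have h5 : n = 0 := by omega
        rw [h4, h5] at h1
        norm_num at h1
      exact_mod_cast h3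
    have h3 : (1 : ℝ) ≤ 4 * σ * (1 + lam) * (M + n) ^ 2 := by
      calc (1 : ℝ) ≤ 4 * (M + n) * σ := h1.le
        _ = 4 * σ * 1 * ((M + n) * 1) := by ring
        _ ≤ 4 * σ * (1 + lam) * ((M + n) * (M + n)) := by
            gcongr
            linarith
        _ = _ := by ring
    refine le_trans ?_ le_add_self
    calc ENNReal.ofReal (Real.exp (-ν)) * ENNReal.ofReal ρ ^ n
        = ENNReal.ofReal (Real.exp (-ν)) * ENNReal.ofReal ρ ^ n * 1 := (mul_one _).symm
      _ ≤ _ := by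
          refine mul_le_mul_right (le_trans ?_ le_self_add) _
          rw [← ENNReal.ofReal_one]
          exact ENNReal.ofReal_le_ofReal h3
  -- the main case
  have hδ : 2 * (M + n) * σ < 1 := by linarith
  have h2 := hole_away r hr z hW hWt hU hUW c hc a σ hσ hδ
  have h3 := rho_hole_int (W := W) (U := U) r ρ hρ z a
  rw [← hS] at h3
  set I := ∫⁻ x in U ∪ ⋃ i, (W ∩ {y | cl d r (a i) y}), rho volume (cl d r) z W x with hI
  set q := I.toReal with hq
  have hq0 : 0 ≤ q := ENNReal.toReal_nonneg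
  have hq1 : q ≤ ν + n * lam + S.toReal := by
    have t1 : ENNReal.ofReal ρ * (volume U + n * ENNReal.ofReal (bv d r)) ≠ ⊤ :=
      ENNReal.mul_ne_top ENNReal.ofReal_ne_top (ENNReal.add_ne_top.2
        ⟨hUt, ENNReal.mul_ne_top (ENNReal.natCast_ne_top n) ENNReal.ofReal_ne_top⟩)
    have h4 := ENNReal.toReal_mono (ENNReal.add_ne_top.2 ⟨t1, hSt⟩) h3
    rw [ENNReal.toReal_add t1 hSt, ENNReal.toReal_mul, ENNReal.toReal_ofReal hρ.le,
      ENNReal.toReal_add hUt
        (ENNReal.mul_ne_top (ENNReal.natCast_ne_top n) ENNReal.ofReal_ne_top),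
      ENNReal.toReal_mul, ENNReal.toReal_natCast, ENNReal.toReal_ofReal hB0] at h4
    refine h4.trans (le_of_eq ?_)
    rw [hν, hlam]
    ring
  have hX := Xi_ne_top volume (cl d r) z hWt
  have hX1 := one_le_Xi volume (cl d r) z W
  have hX0 : Xi volume (cl d r) z W ≠ 0 := (lt_of_lt_of_le zero_lt_one hX1).ne'
  have hY : Xi volume (cl d r) z (away (cl d r) a (W \ U)) ≠ ⊤ :=
    ne_top_of_le_ne_top hX (Xi_mono volume (cl d r) z fun y hy => hy.1.1)
  set Y := Xi volume (cl d r) z (away (cl d r) a (W \ U)) with hYdef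
  set V := Xi volume (cl d r) z W with hV
  have hVr : 0 < V.toReal := ENNReal.toReal_pos hX0 hX
  set γ := (1 - 2 * (M + n) * σ)⁻¹ with hγ
  have h4 : V.toReal ≤ Real.exp (γ * q) * Y.toReal := by
    have := ENNReal.toReal_mono (ENNReal.mul_ne_top ENNReal.ofReal_ne_top hY) h2
    rwa [ENNReal.toReal_mul, ENNReal.toReal_ofReal (Real.exp_pos _).le] at this
  have hδ2 : 0 < 1 - 2 * (M + n) * σ := by linarith
  have hγ0 : 0 < γ := by positivity
  have hδ0 : 0 ≤ (M + n) * σ := by positivity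
  have hγ1 : γ ≤ 1 + 4 * ((M + n) * σ) := by
    rw [hγ, inv_le_iff_one_le_mul₀ hδ2]
    have h5 : (M + n) * σ ≤ 1 / 4 := by linarith
    nlinarith
  have hγ2 : γ ≤ 2 := by linarith
  have h5 : Real.exp (-(γ * q)) ≤ Y.toReal / V.toReal := by
    rw [le_div_iff₀ hVr]
    have := mul_le_mul_of_nonneg_left h4 (Real.exp_pos (-(γ * q))).le
    rwa [← mul_assoc, ← Real.exp_add, neg_add_cancel, Real.exp_zero, one_mul] at this
  have h6 : γ * q - ν - n * lam ≤ 4 * σ * (1 + lam) * (M + n) ^ 2 + 2 * S.toReal := by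
    have e1 : γ * q ≤ γ * (ν + n * lam) + γ * S.toReal := by
      have := mul_le_mul_of_nonneg_left hq1 hγ0.le
      linarith
    have e2 : γ * S.toReal ≤ 2 * S.toReal :=
      mul_le_mul_of_nonneg_right hγ2 ENNReal.toReal_nonneg
    have e3 : (γ - 1) * (ν + n * lam) ≤ 4 * ((M + n) * σ) * ((M + n) * lam) := by
      have e4 : ν + n * lam ≤ (M + n) * lam := by linarith
      have e5 : 0 ≤ ν + n * lam := by positivity
      calc (γ - 1) * (ν + n * lam) ≤ (4 * ((M + n) * σ)) * (ν + n * lam) :=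
            mul_le_mul_of_nonneg_right (by linarith) e5
        _ ≤ _ := mul_le_mul_of_nonneg_left e4 (by positivity)
    have e6 : 4 * ((M + n) * σ) * ((M + n) * lam) ≤ 4 * σ * (1 + lam) * (M + n) ^ 2 := by
      have : 0 ≤ 4 * σ * ((M : ℝ) + n) ^ 2 := by positivity
      nlinarith
    nlinarith
  have h7 : (1 : ℝ) ≤ Real.exp (ν + n * lam - γ * q) +
      (4 * σ * (1 + lam) * (M + n) ^ 2 + 2 * S.toReal) := by
    have := Real.add_one_le_exp (ν + n * lam - γ * q)
    linarith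
  have h8 : Real.exp (-ν) * ρ ^ n ≤ (z : ℝ) ^ n * (Y.toReal / V.toReal) +
      Real.exp (-ν) * ρ ^ n * (4 * σ * (1 + lam) * (M + n) ^ 2 + 2 * S.toReal) := by
    have e1 : (z : ℝ) ^ n = ρ ^ n * Real.exp (n * lam) := by
      rw [hz, mul_pow, ← Real.exp_nat_mul, hlam]
    have e2 : (z : ℝ) ^ n * Real.exp (-(γ * q)) =
        Real.exp (-ν) * ρ ^ n * Real.exp (ν + n * lam - γ * q) := by
      rw [e1]
      have : Real.exp (n * lam) * Real.exp (-(γ * q)) =
          Real.exp (-ν) * Real.exp (ν + n * lam - γ * q) := by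
        rw [← Real.exp_add, ← Real.exp_add]; congr 1; ring
      calc ρ ^ n * Real.exp (n * lam) * Real.exp (-(γ * q))
          = ρ ^ n * (Real.exp (n * lam) * Real.exp (-(γ * q))) := by ring
        _ = _ := by rw [this]; ring
    have e3 : (z : ℝ) ^ n * Real.exp (-(γ * q)) ≤ (z : ℝ) ^ n * (Y.toReal / V.toReal) := by
      gcongr
    have e4 := mul_le_mul_of_nonneg_left h7 (by positivity : 0 ≤ Real.exp (-ν) * ρ ^ n)
    rw [mul_one, mul_add, ← e2] at e4
    linarith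
  have hL : ENNReal.ofReal (Real.exp (-ν)) * ENNReal.ofReal ρ ^ n ≠ ⊤ :=
    ENNReal.mul_ne_top ENNReal.ofReal_ne_top (ENNReal.pow_ne_top ENNReal.ofReal_ne_top)
  have t1 : (z : ℝ≥0∞) ^ n * (Y / V) ≠ ⊤ :=
    ENNReal.mul_ne_top (ENNReal.pow_ne_top ENNReal.coe_ne_top) (ENNReal.div_ne_top hY hX0)
  have t3 : ENNReal.ofReal (4 * σ * (1 + lam) * (M + n) ^ 2) + 2 * S ≠ ⊤ :=
    ENNReal.add_ne_top.2 ⟨ENNReal.ofReal_ne_top, ENNReal.mul_ne_top (by norm_num) hSt⟩
  have t2 : ENNReal.ofReal (Real.exp (-ν)) * ENNReal.ofReal ρ ^ n *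
      (ENNReal.ofReal (4 * σ * (1 + lam) * (M + n) ^ 2) + 2 * S) ≠ ⊤ := ENNReal.mul_ne_top hL t3
  rw [← ENNReal.toReal_le_toReal hL (ENNReal.add_ne_top.2 ⟨t1, t2⟩), ENNReal.toReal_add t1 t2,
    ENNReal.toReal_mul, ENNReal.toReal_mul, ENNReal.toReal_mul, ENNReal.toReal_mul,
    ENNReal.toReal_add ENNReal.ofReal_ne_top (ENNReal.mul_ne_top (by norm_num) hSt),
    ENNReal.toReal_pow, ENNReal.toReal_pow, ENNReal.toReal_div, ENNReal.toReal_mul,
    ENNReal.toReal_ofReal (Real.exp_pos _).le, ENNReal.toReal_ofReal hρ.le,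
    ENNReal.toReal_ofReal (by positivity), ENNReal.coe_toReal]
  exact h8

end Pool.Agent.U279.PG
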