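import Pool.Agent.U279.PG.TV

/-!
The one sided bound between the Gibbs measure and the Poisson process in a window.
-/

set_option autoImplicit false
set_option linter.unusedSectionVars false
open Filter Topology MeasureTheory ENNReal

namespace Pool.Agent.U279.PG
open Pool.Agent.K4H61.HS

theorem Pg_le_Pz {X : Type} [MeasurableSpace X] (μ : Measure X) [SigmaFinite μ] (R : X → X → Prop)
    (q : ℝ≥0∞) (U : Set X) (F : ∀ n : ℕ, (Fin n → X) → ℝ≥0∞) : Pg μ R q U F ≤ Pz μ q U F :=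
  ENNReal.tsum_le_tsum fun n => mul_le_mul_right (lintegral_mono_set fun x hx => by
    rw [Set.mem_univ_pi]; exact hx.2) _

theorem coe_aux (a ν : ℝ) (ha : 0 ≤ a) (hν : 0 ≤ ν) (M : ℕ) :
    ENNReal.ofReal a * ((M : ℝ≥0∞) ^ 2 + 2 * M * ENNReal.ofReal ν +
      ENNReal.ofReal ν * (ENNReal.ofReal ν + 1)) =
      ENNReal.ofReal (a * (M ^ 2 + 2 * M * ν + ν * (ν + 1))) := by
  lift a to NNReal using ha
  lift ν to NNReal using hν
  have h : (a : ℝ) * ((M : ℝ) ^ 2 + 2 * M * ν + ν * (ν + 1)) =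
      ((a * ((M : NNReal) ^ 2 + 2 * M * ν + ν * (ν + 1)) : NNReal) : ℝ) := by
    push_cast
    ring
  rw [h, ENNReal.ofReal_coe_nnreal, ENNReal.ofReal_coe_nnreal, ENNReal.ofReal_coe_nnreal]
  push_cast
  ring

variable {d : ℕ}

theorem tv_one {M : ℕ} (r ρ : ℝ) (hr : 0 < r) (hρ : 0 < ρ) (z : NNReal)
    (hz : (z : ℝ) = ρ * Real.exp (ρ * bv d r)) {W U : Set (Fin d → ℝ)}
    (hW : MeasurableSet W) (hWt : volume W ≠ ⊤) (hU : MeasurableSet U) (hUW : U ⊆ W)
    (c : Fin M → Fin d → ℝ) (hc : U ⊆ {y | ∃ j, cl d r (c j) y})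
    (σ lam : ℝ) (hσ : σ = z * bv d (√(3 / 4) * r)) (hlam : lam = ρ * bv d r)
    (G : Set (Fin d → ℝ) → ℝ≥0∞) (hG1 : ∀ S, G S ≤ 1)
    (hG : ∀ n : ℕ, Measurable fun a : Fin n → Fin d → ℝ => G (Set.range a)) :
    ENNReal.ofReal (Real.exp (-(ρ * (volume U).toReal))) *
        Pz volume (ENNReal.ofReal ρ) U (fun _ a => G (Set.range a)) ≤
      Ex volume (cl d r) z W (fun _ x => G (Set.range x ∩ U)) / Xi volume (cl d r) z W +
      (ENNReal.ofReal (10 * σ * (1 + lam) ^ 3 * M ^ 2) +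
        2 * ((∫⁻ x in U, exc d r ρ z W x) +
          ENNReal.ofReal ρ * ∫⁻ x in U, nbe d r ρ z W x)) := by
  have hB0 : 0 ≤ bv d r := ENNReal.toReal_nonneg
  have hbv0 : 0 ≤ bv d (√(3 / 4) * r) := ENNReal.toReal_nonneg
  have hσ0 : 0 ≤ σ := by rw [hσ]; positivity
  have hlam0 : 0 ≤ lam := by rw [hlam]; positivity
  have hUt : volume U ≠ ⊤ := ne_top_of_le_ne_top hWt (measure_mono hUW)
  have hpt := fun (n : ℕ) (a : Fin n → Fin d → ℝ) =>
    pt_tv r ρ hr hρ z hz hW hWt hU hUW c hc a σ lam hσ hlam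
  set ν := ρ * (volume U).toReal with hν
  have hν0 : 0 ≤ ν := by positivity
  have hνM : ν ≤ M * lam := by
    have h1 := ENNReal.toReal_mono ENNReal.ofReal_ne_top (vol_cover r c hc)
    rw [ENNReal.toReal_ofReal (by positivity)] at h1
    have := mul_le_mul_of_nonneg_left h1 hρ.le
    rw [hν, hlam]
    linarith
  set c0 := ENNReal.ofReal (Real.exp (-ν)) with hc0
  set E0 := ENNReal.ofReal (Real.exp ν) with hE0
  have hcE : c0 * E0 = 1 := by
    rw [hc0, hE0, ← ENNReal.ofReal_mul (Real.exp_pos _).le, ← Real.exp_add, neg_add_cancel,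
      Real.exp_zero, ENNReal.ofReal_one]
  set q := ENNReal.ofReal ρ with hq
  set V := Xi volume (cl d r) z W with hV
  set φ0 := ∫⁻ x in U, exc d r ρ z W x with hφ0
  set κ := ENNReal.ofReal (2 * M * bv d (√(3 / 4) * r)) with hκ
  set A := ENNReal.ofReal (4 * σ * (1 + lam)) with hA
  have hqν : q * volume U = ENNReal.ofReal ν := by
    rw [hν, ENNReal.ofReal_mul hρ.le, ENNReal.ofReal_toReal hUt]
  -- the three steps
  have s1 : Pz volume q U (fun _ a => G (Set.range a)) ≤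
      Pg volume (cl d r) q U (fun _ a => G (Set.range a)) + κ * q * (q * volume U) * E0 :=
    Pz_le (cl_meas r) (cl_symm r) hρ.le hU hUt (sparse r hr c hU hc) fun n a => hG1 _
  set Er : ∀ n : ℕ, (Fin n → Fin d → ℝ) → ℝ≥0∞ := fun n a => A * (M + n) ^ 2 +
    2 * (φ0 + ∑ i, nbe d r ρ z W (a i)) with hEr
  have hnb : ∀ n : ℕ, Measurable fun a : Fin n → Fin d → ℝ => ∑ i, nbe d r ρ z W (a i) := by
    intro n
    exact Finset.measurable_fun_sum _ fun i _ => (nbe_meas r ρ z hW).comp (measurable_pi_apply i)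
  have hErm : ∀ n, Measurable (Er n) := by
    intro n
    exact measurable_const.add (((measurable_const).add (hnb n)).const_mul _)
  have s2 : c0 * Pg volume (cl d r) q U (fun _ a => G (Set.range a)) ≤
      Ex volume (cl d r) z W (fun _ x => G (Set.range x ∩ U)) / V +
        c0 * Pg volume (cl d r) q U Er := by
    have hun : U ∪ (W \ U) = W := Set.union_sdiff_cancel hUW
    have h1 := Ex_union volume (cl_meas (d := d) r) (cl_symm r) z hU (hW.diff hU)
      Set.disjoint_sdiff_right G hG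
    rw [hun] at h1
    rw [h1]
    unfold Ex Pg
    rw [div_eq_mul_inv, ← ENNReal.tsum_mul_right, ← ENNReal.tsum_mul_left,
      ← ENNReal.tsum_mul_left, ← ENNReal.tsum_add]
    refine ENNReal.tsum_le_tsum fun n => ?_
    have hX : Measurable fun a : Fin n → Fin d → ℝ =>
        Xi volume (cl d r) z (away (cl d r) a (W \ U)) :=
      Xi_sec_meas volume (cl_meas r) z (away_sec (ι := Fin n) (cl_meas r) (hW.diff hU))
    have hGX : Measurable fun a : Fin n → Fin d → ℝ => G (Set.range a) *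
        Xi volume (cl d r) z (away (cl d r) a (W \ U)) := (hG n).mul hX
    calc c0 * (q ^ n / (n.factorial : ℝ≥0∞) * ∫⁻ a in Gd (cl d r) (Fin n) U, G (Set.range a)
          ∂(Measure.pi fun _ => volume))
        = (n.factorial : ℝ≥0∞)⁻¹ * ∫⁻ a in Gd (cl d r) (Fin n) U, (c0 * q ^ n) * G (Set.range a)
          ∂(Measure.pi fun _ => volume) := by
          rw [lintegral_const_mul _ (hG n), div_eq_mul_inv]
          ring
      _ ≤ (n.factorial : ℝ≥0∞)⁻¹ * ∫⁻ a in Gd (cl d r) (Fin n) U,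
          (((z : ℝ≥0∞) ^ n * V⁻¹) * (G (Set.range a) *
            Xi volume (cl d r) z (away (cl d r) a (W \ U))) + (c0 * q ^ n) * Er n a)
          ∂(Measure.pi fun _ => volume) := by
          refine mul_le_mul_right (lintegral_mono fun a => ?_) _
          have h2 := mul_le_mul_left (hpt n a) (G (Set.range a))
          refine h2.trans ?_
          rw [add_mul]
          refine add_le_add (le_of_eq ?_) ?_
          · rw [div_eq_mul_inv]; ring
          · calc c0 * q ^ n * Er n a * G (Set.range a) ≤ c0 * q ^ n * Er n a * 1 :=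
                  mul_le_mul_right (hG1 _) _
              _ = _ := mul_one _
      _ = _ := by
          rw [lintegral_add_left (hGX.const_mul _), lintegral_const_mul _ hGX,
            lintegral_const_mul _ (hErm n), div_eq_mul_inv, div_eq_mul_inv]
          ring
  have s3 : Pz volume q U Er = (A * (M ^ 2 + 2 * M * ENNReal.ofReal ν +
      ENNReal.ofReal ν * (ENNReal.ofReal ν + 1)) +
      2 * (φ0 + q * ∫⁻ x in U, nbe d r ρ z W x)) * E0 := by
    have h1 : Pz volume q U Er = Pz volume q U (fun n _ => A * ((M : ℝ≥0∞) + n) ^ 2) +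
        Pz volume q U (fun n a => 2 * (φ0 + ∑ i, nbe d r ρ z W (a i))) :=
      Pz_add q fun n => measurable_const
    have h3 : ∀ n : ℕ, Measurable fun a : Fin n → Fin d → ℝ =>
        φ0 + ∑ i, nbe d r ρ z W (a i) := fun n => measurable_const.add (hnb n)
    have h4 : Pz volume q U (fun n a => 2 * (φ0 + ∑ i, nbe d r ρ z W (a i))) =
        2 * Pz volume q U (fun n a => φ0 + ∑ i, nbe d r ρ z W (a i)) := Pz_mul q h3 2
    have h5 : Pz volume q U (fun n a => φ0 + ∑ i, nbe d r ρ z W (a i)) =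
        Pz volume q U (fun n a => φ0) +
          Pz volume q U (fun n a => ∑ i, nbe d r ρ z W (a i)) := Pz_add q fun n => measurable_const
    rw [h1, h4, h5, Pz_sum hρ.le hUt (nbe_meas r ρ z hW), Pz_fun, Pz_fun, hqν]
    have h2 : ∀ n : ℕ, A * ((M : ℝ≥0∞) + n) ^ 2 * (ENNReal.ofReal ν ^ n / (n.factorial : ℝ≥0∞)) =
        A * (((M : ℝ≥0∞) + n) ^ 2 * (ENNReal.ofReal ν ^ n / (n.factorial : ℝ≥0∞))) := fun n => by
      ring
    simp only [h2]
    rw [ENNReal.tsum_mul_left, ENNReal.tsum_mul_left, tsum_shift ν hν0, tsum_exp ν hν0]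
    ring
  have s4 : c0 * Pg volume (cl d r) q U Er ≤ A * (M ^ 2 + 2 * M * ENNReal.ofReal ν +
      ENNReal.ofReal ν * (ENNReal.ofReal ν + 1)) +
      2 * (φ0 + q * ∫⁻ x in U, nbe d r ρ z W x) := by
    refine (mul_le_mul_right (Pg_le_Pz volume (cl d r) q U Er) c0).trans (le_of_eq ?_)
    rw [s3, mul_comm _ E0, ← mul_assoc, hcE, one_mul]
  have s5 : c0 * (κ * q * (q * volume U) * E0) ≤ ENNReal.ofReal (2 * M * σ * ν) := by
    have h1 : c0 * (κ * q * (q * volume U) * E0) = κ * q * ENNReal.ofReal ν := by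
      rw [hqν]
      calc c0 * (κ * q * ENNReal.ofReal ν * E0) = (c0 * E0) * (κ * q * ENNReal.ofReal ν) := by ring
        _ = _ := by rw [hcE, one_mul]
    rw [h1, hκ, hq, ← ENNReal.ofReal_mul (by positivity), ← ENNReal.ofReal_mul (by positivity)]
    refine ENNReal.ofReal_le_ofReal (mul_le_mul_of_nonneg_right ?_ hν0)
    have h2 : ρ ≤ z := by
      rw [hz]
      have : 1 ≤ Real.exp (ρ * bv d r) := Real.one_le_exp (by positivity)
      nlinarith
    calc 2 * (M : ℝ) * bv d (√(3 / 4) * r) * ρ ≤ 2 * (M : ℝ) * bv d (√(3 / 4) * r) * z := by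
          gcongr
      _ = _ := by rw [hσ]; ring
  have s6 : A * (M ^ 2 + 2 * M * ENNReal.ofReal ν + ENNReal.ofReal ν * (ENNReal.ofReal ν + 1)) =
      ENNReal.ofReal (4 * σ * (1 + lam) * (M ^ 2 + 2 * M * ν + ν * (ν + 1))) := by
    exact coe_aux _ _ (by positivity) hν0 M
  have s7 : 4 * σ * (1 + lam) * (M ^ 2 + 2 * M * ν + ν * (ν + 1)) + 2 * M * σ * ν ≤
      10 * σ * (1 + lam) ^ 3 * M ^ 2 := by
    have hMM : (M : ℝ) ≤ (M : ℝ) ^ 2 := by
      rcases Nat.eq_zero_or_pos M with h | h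
      · rw [h]; norm_num
      · have : (1 : ℝ) ≤ M := by exact_mod_cast h
        nlinarith
    have hM0 : (0 : ℝ) ≤ M := Nat.cast_nonneg M
    have e1 : (M : ℝ) ^ 2 + 2 * M * ν + ν * (ν + 1) ≤ 2 * (1 + lam) ^ 2 * M ^ 2 := by
      have f1 : ((M : ℝ) + ν) ^ 2 ≤ ((1 + lam) * M) ^ 2 := by
        refine pow_le_pow_left₀ (by positivity) ?_ 2
        linarith
      have f2 : ν ≤ (1 + lam) ^ 2 * M ^ 2 := by
        calc ν ≤ M * lam := hνM
          _ ≤ M ^ 2 * (1 + lam) ^ 2 := by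
              have : lam ≤ (1 + lam) ^ 2 := by nlinarith
              gcongr
          _ = _ := by ring
      nlinarith
    have e2 : 4 * σ * (1 + lam) * (M ^ 2 + 2 * M * ν + ν * (ν + 1)) ≤
        4 * σ * (1 + lam) * (2 * (1 + lam) ^ 2 * M ^ 2) := by gcongr
    have e3 : 2 * M * σ * ν ≤ 2 * σ * (1 + lam) ^ 3 * M ^ 2 := by
      calc 2 * M * σ * ν ≤ 2 * M * σ * (M * lam) := by gcongr
        _ = 2 * σ * lam * M ^ 2 := by ring
        _ ≤ 2 * σ * (1 + lam) ^ 3 * M ^ 2 := by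
            have : lam ≤ (1 + lam) ^ 3 := by
              have h1 : (1 : ℝ) ≤ (1 + lam) ^ 2 := one_le_pow₀ (by linarith)
              nlinarith
            gcongr
    calc 4 * σ * (1 + lam) * (M ^ 2 + 2 * M * ν + ν * (ν + 1)) + 2 * M * σ * ν
        ≤ 4 * σ * (1 + lam) * (2 * (1 + lam) ^ 2 * M ^ 2) + 2 * σ * (1 + lam) ^ 3 * M ^ 2 := by
          linarith
      _ = _ := by ring
  calc c0 * Pz volume q U (fun _ a => G (Set.range a))
      ≤ c0 * (Pg volume (cl d r) q U (fun _ a => G (Set.range a)) +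
        κ * q * (q * volume U) * E0) := mul_le_mul_right s1 _
    _ = c0 * Pg volume (cl d r) q U (fun _ a => G (Set.range a)) +
        c0 * (κ * q * (q * volume U) * E0) := mul_add _ _ _
    _ ≤ (Ex volume (cl d r) z W (fun _ x => G (Set.range x ∩ U)) / V +
        (ENNReal.ofReal (4 * σ * (1 + lam) * (M ^ 2 + 2 * M * ν + ν * (ν + 1))) +
          2 * (φ0 + q * ∫⁻ x in U, nbe d r ρ z W x))) + ENNReal.ofReal (2 * M * σ * ν) := by
        rw [← s6]
        exact add_le_add (s2.trans (add_le_add le_rfl s4)) s5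
    _ = Ex volume (cl d r) z W (fun _ x => G (Set.range x ∩ U)) / V +
        ((ENNReal.ofReal (4 * σ * (1 + lam) * (M ^ 2 + 2 * M * ν + ν * (ν + 1))) +
          ENNReal.ofReal (2 * M * σ * ν)) + 2 * (φ0 + q * ∫⁻ x in U, nbe d r ρ z W x)) := by ring
    _ ≤ _ := by
        rw [← ENNReal.ofReal_add (by positivity) (by positivity)]
        exact add_le_add le_rfl (add_le_add (ENNReal.ofReal_le_ofReal s7) le_rfl)

end Pool.Agent.U279.PG
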