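import Pool.Agent.U279.PG.TV2

/-!
Events in a window; windows at a typical place.
-/

set_option autoImplicit false
set_option linter.unusedSectionVars false
open Filter Topology MeasureTheory ENNReal

namespace Pool.Agent.U279.PG
open Pool.Agent.K4H61.HS
open Pool.Agent.U279.KT (cube cube_meas cube_vol cube_lt)

section
variable {X : Type} [MeasurableSpace X]

theorem meas_ind {A : Set (Set X)} {n : ℕ} (hA : MeasurableSet {a : Fin n → X | Set.range a ∈ A}) :
    Measurable fun a : Fin n → X => A.indicator (1 : Set X → ℝ≥0∞) (Set.range a) := by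
  have h1 : (fun a : Fin n → X => A.indicator (1 : Set X → ℝ≥0∞) (Set.range a)) =
      {a : Fin n → X | Set.range a ∈ A}.indicator 1 := by
    funext a
    simp only [Set.indicator, Set.mem_ofPred_eq, Pi.one_apply]
  rw [h1]
  exact measurable_one.indicator hA

theorem meas_index {A : Set (Set X)}
    (hA : ∀ n : ℕ, MeasurableSet {a : Fin n → X | Set.range a ∈ A}) (ι : Type) [Fintype ι] :
    MeasurableSet {a : ι → X | Set.range a ∈ A} := by
  have e := Fintype.equivFin ι
  have h1 : {a : ι → X | Set.range a ∈ A} =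
      (MeasurableEquiv.piCongrLeft (fun _ : Fin (Fintype.card ι) => X) e) ⁻¹'
        {a : Fin (Fintype.card ι) → X | Set.range a ∈ A} := by
    ext a
    simp only [Set.mem_preimage, Set.mem_ofPred_eq, range_reindex]
  rw [h1]
  exact (MeasurableEquiv.measurable _) (hA _)

theorem meas_part {A : Set (Set X)}
    (hA : ∀ n : ℕ, MeasurableSet {a : Fin n → X | Set.range a ∈ A}) {U : Set X}
    (hU : MeasurableSet U) (N : ℕ) :
    MeasurableSet {x : Fin N → X | Set.range x ∩ U ∈ A} := by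
  classical
  have h1 : {x : Fin N → X | Set.range x ∩ U ∈ A} = ⋃ s : Finset (Fin N),
      ((⋂ i, {x : Fin N → X | x i ∈ U ↔ i ∈ s}) ∩
        (fun (x : Fin N → X) (i : {i // i ∈ s}) => x i) ⁻¹' {a | Set.range a ∈ A}) := by
    ext x
    have key : ∀ s : Finset (Fin N), (∀ i, x i ∈ U ↔ i ∈ s) →
        Set.range x ∩ U = Set.range (fun i : {i // i ∈ s} => x i) := by
      intro s hs
      ext y
      simp only [Set.mem_inter_iff, Set.mem_range]
      constructor
      · rintro ⟨⟨i, hi⟩, hy⟩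
        exact ⟨⟨i, (hs i).1 (hi ▸ hy)⟩, hi⟩
      · rintro ⟨i, hi⟩
        exact ⟨⟨i.1, hi⟩, hi ▸ (hs i.1).2 i.2⟩
    simp only [Set.mem_iUnion, Set.mem_inter_iff, Set.mem_iInter, Set.mem_ofPred_eq,
      Set.mem_preimage]
    constructor
    · intro hx
      refine ⟨Finset.univ.filter (fun i => x i ∈ U), fun i => by simp, ?_⟩
      rw [← key _ fun i => by simp]
      exact hx
    · rintro ⟨s, hs, hx⟩
      rw [key s hs]
      exact hx
  rw [h1]
  refine MeasurableSet.iUnion fun s => (MeasurableSet.iInter fun i => ?_).inter ?_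
  · by_cases hi : i ∈ s
    · have : {x : Fin N → X | x i ∈ U ↔ i ∈ s} = (fun x : Fin N → X => x i) ⁻¹' U := by
        ext x; simp [hi]
      rw [this]; exact measurable_pi_apply i hU
    · have : {x : Fin N → X | x i ∈ U ↔ i ∈ s} = (fun x : Fin N → X => x i) ⁻¹' Uᶜ := by
        ext x; simp [hi]
      rw [this]; exact measurable_pi_apply i hU.compl
  · refine MeasurableSet.preimage (meas_index hA _) ?_
    exact measurable_pi_lambda _ fun i => measurable_pi_apply _

end

variable {d : ℕ}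

/-- the probability that the points in `U` satisfy `A`, in the gas in `W` -/
noncomputable def pE (d : ℕ) (r : ℝ) (z : NNReal) (W U : Set (Fin d → ℝ))
    (A : Set (Set (Fin d → ℝ))) : ℝ≥0∞ :=
  Ex volume (cl d r) z W (fun _ x => A.indicator 1 (Set.range x ∩ U)) / Xi volume (cl d r) z W

/-- the probability that the Poisson process in `U` satisfies `A` -/
noncomputable def pP (d : ℕ) (ρ : ℝ) (U : Set (Fin d → ℝ)) (A : Set (Set (Fin d → ℝ))) : ℝ≥0∞ :=
  ENNReal.ofReal (Real.exp (-(ρ * (volume U).toReal))) *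
    Pz volume (ENNReal.ofReal ρ) U (fun _ a => A.indicator 1 (Set.range a))

theorem ind_add (A : Set (Set (Fin d → ℝ))) (S : Set (Fin d → ℝ)) :
    A.indicator (1 : Set (Fin d → ℝ) → ℝ≥0∞) S + Aᶜ.indicator 1 S = 1 := by
  by_cases h : S ∈ A
  · rw [Set.indicator_of_mem h, Set.indicator_of_notMem (by simpa using h)]
    simp
  · rw [Set.indicator_of_notMem h, Set.indicator_of_mem (by simpa using h)]
    simp

theorem pE_add (r : ℝ) (z : NNReal) {W U : Set (Fin d → ℝ)} (hW : MeasurableSet W)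
    (hWt : volume W ≠ ⊤) (hU : MeasurableSet U) (hUW : U ⊆ W) {A : Set (Set (Fin d → ℝ))}
    (hA : ∀ n : ℕ, MeasurableSet {a : Fin n → Fin d → ℝ | Set.range a ∈ A}) :
    pE d r z W U A + pE d r z W U Aᶜ = 1 := by
  have hA' : ∀ n : ℕ, MeasurableSet {a : Fin n → Fin d → ℝ | Set.range a ∈ Aᶜ} := fun n =>
    (hA n).compl
  have hX := Xi_ne_top volume (cl d r) z hWt
  have hX1 := one_le_Xi volume (cl d r) z W
  have hX0 : Xi volume (cl d r) z W ≠ 0 := (lt_of_lt_of_le zero_lt_one hX1).ne'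
  have hun : U ∪ (W \ U) = W := Set.union_sdiff_cancel hUW
  have h1 := Ex_union volume (cl_meas (d := d) r) (cl_symm r) z hU (hW.diff hU)
    Set.disjoint_sdiff_right (A.indicator 1) fun n => meas_ind (hA n)
  have h2 := Ex_union volume (cl_meas (d := d) r) (cl_symm r) z hU (hW.diff hU)
    Set.disjoint_sdiff_right (Aᶜ.indicator 1) fun n => meas_ind (hA' n)
  rw [hun] at h1 h2
  unfold pE
  rw [ENNReal.div_add_div_same, h1, h2]
  have hXm : ∀ n : ℕ, Measurable fun a : Fin n → Fin d → ℝ =>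
      Xi volume (cl d r) z (away (cl d r) a (W \ U)) := fun n =>
    Xi_sec_meas volume (cl_meas r) z (away_sec (ι := Fin n) (cl_meas r) (hW.diff hU))
  have h3 := Ex_add volume (cl d r) z (U := U)
    (F := fun n a => A.indicator (1 : Set (Fin d → ℝ) → ℝ≥0∞) (Set.range a) *
      Xi volume (cl d r) z (away (cl d r) a (W \ U)))
    (G := fun n a => Aᶜ.indicator (1 : Set (Fin d → ℝ) → ℝ≥0∞) (Set.range a) *
      Xi volume (cl d r) z (away (cl d r) a (W \ U))) fun n => (meas_ind (hA n)).mul (hXm n)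
  rw [← h3]
  have h4 := Xi_union volume (cl_meas (d := d) r) (cl_symm r) z hU (hW.diff hU)
    Set.disjoint_sdiff_right
  rw [hun] at h4
  have h5 : (fun (n : ℕ) (a : Fin n → Fin d → ℝ) =>
      A.indicator (1 : Set (Fin d → ℝ) → ℝ≥0∞) (Set.range a) *
        Xi volume (cl d r) z (away (cl d r) a (W \ U)) +
      Aᶜ.indicator (1 : Set (Fin d → ℝ) → ℝ≥0∞) (Set.range a) *
        Xi volume (cl d r) z (away (cl d r) a (W \ U))) =
      fun _ a => Xi volume (cl d r) z (away (cl d r) a (W \ U)) := by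
    funext n a
    rw [← add_mul, ind_add, one_mul]
  rw [h5, ← h4]
  exact ENNReal.div_self hX0 hX

theorem pP_add {ρ : ℝ} (hρ : 0 ≤ ρ) {U : Set (Fin d → ℝ)} (hUt : volume U ≠ ⊤)
    {A : Set (Set (Fin d → ℝ))}
    (hA : ∀ n : ℕ, MeasurableSet {a : Fin n → Fin d → ℝ | Set.range a ∈ A}) :
    pP d ρ U A + pP d ρ U Aᶜ = 1 := by
  unfold pP
  rw [← mul_add, ← Pz_add _ fun n => meas_ind (hA n)]
  simp only [ind_add]
  rw [Pz_one hρ hUt, ← ENNReal.ofReal_mul (Real.exp_pos _).le, ← Real.exp_add, neg_add_cancel,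
    Real.exp_zero, ENNReal.ofReal_one]

/-- **Total variation distance in a window.** -/
theorem tv_event {M : ℕ} (r ρ : ℝ) (hr : 0 < r) (hρ : 0 < ρ) (z : NNReal)
    (hz : (z : ℝ) = ρ * Real.exp (ρ * bv d r)) {W U : Set (Fin d → ℝ)}
    (hW : MeasurableSet W) (hWt : volume W ≠ ⊤) (hU : MeasurableSet U) (hUW : U ⊆ W)
    (c : Fin M → Fin d → ℝ) (hc : U ⊆ {y | ∃ j, cl d r (c j) y})
    (σ lam θ : ℝ) (hσ : σ = z * bv d (√(3 / 4) * r)) (hlam : lam = ρ * bv d r) (hθ : 0 ≤ θ)
    (herr : ENNReal.ofReal (10 * σ * (1 + lam) ^ 3 * M ^ 2) +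
        2 * ((∫⁻ x in U, exc d r ρ z W x) +
          ENNReal.ofReal ρ * ∫⁻ x in U, nbe d r ρ z W x) ≤ ENNReal.ofReal θ)
    {A : Set (Set (Fin d → ℝ))}
    (hA : ∀ n : ℕ, MeasurableSet {a : Fin n → Fin d → ℝ | Set.range a ∈ A}) :
    |(pE d r z W U A).toReal - (pP d ρ U A).toReal| ≤ θ := by
  have hA' : ∀ n : ℕ, MeasurableSet {a : Fin n → Fin d → ℝ | Set.range a ∈ Aᶜ} := fun n =>
    (hA n).compl
  have hUt : volume U ≠ ⊤ := ne_top_of_le_ne_top hWt (measure_mono hUW)
  have hle : ∀ (B : Set (Set (Fin d → ℝ))) (S : Set (Fin d → ℝ)),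
      B.indicator (1 : Set (Fin d → ℝ) → ℝ≥0∞) S ≤ 1 := fun B S => by
    rw [← ind_add B S]
    exact le_self_add
  have h1 : pP d ρ U A ≤ pE d r z W U A + ENNReal.ofReal θ := by
    refine (tv_one r ρ hr hρ z hz hW hWt hU hUW c hc σ lam hσ hlam (A.indicator 1) (hle A)
      fun n => meas_ind (hA n)).trans (add_le_add le_rfl herr)
  have h2 : pP d ρ U Aᶜ ≤ pE d r z W U Aᶜ + ENNReal.ofReal θ := by
    refine (tv_one r ρ hr hρ z hz hW hWt hU hUW c hc σ lam hσ hlam (Aᶜ.indicator 1) (hle Aᶜ)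
      fun n => meas_ind (hA' n)).trans (add_le_add le_rfl herr)
  have e1 := pE_add r z hW hWt hU hUW hA
  have e2 := pP_add hρ.le hUt hA
  have f1 : pE d r z W U A ≠ ⊤ := by
    refine ne_top_of_le_ne_top ENNReal.one_ne_top ?_
    rw [← e1]; exact le_self_add
  have f2 : pE d r z W U Aᶜ ≠ ⊤ := by
    refine ne_top_of_le_ne_top ENNReal.one_ne_top ?_
    rw [← e1]; exact le_add_self
  have f3 : pP d ρ U A ≠ ⊤ := by
    refine ne_top_of_le_ne_top ENNReal.one_ne_top ?_
    rw [← e2]; exact le_self_add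
  have f4 : pP d ρ U Aᶜ ≠ ⊤ := by
    refine ne_top_of_le_ne_top ENNReal.one_ne_top ?_
    rw [← e2]; exact le_add_self
  have g1 := ENNReal.toReal_mono (ENNReal.add_ne_top.2 ⟨f1, ENNReal.ofReal_ne_top⟩) h1
  have g2 := ENNReal.toReal_mono (ENNReal.add_ne_top.2 ⟨f2, ENNReal.ofReal_ne_top⟩) h2
  rw [ENNReal.toReal_add f1 ENNReal.ofReal_ne_top, ENNReal.toReal_ofReal hθ] at g1
  rw [ENNReal.toReal_add f2 ENNReal.ofReal_ne_top, ENNReal.toReal_ofReal hθ] at g2
  have g3 := congrArg ENNReal.toReal e1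
  have g4 := congrArg ENNReal.toReal e2
  rw [ENNReal.toReal_add f1 f2, ENNReal.toReal_one] at g3
  rw [ENNReal.toReal_add f3 f4, ENNReal.toReal_one] at g4
  rw [abs_le]
  constructor <;> linarith

/-- averages over windows -/
theorem lint_window {D : Set (Fin d → ℝ)} (hD : MeasurableSet D) {f : (Fin d → ℝ) → ℝ≥0∞}
    (hf : Measurable f) :
    Measurable (fun y => ∫⁻ x in {x | x - y ∈ D}, f x) ∧
    ∫⁻ y, ∫⁻ x in {x | x - y ∈ D}, f x = volume D * ∫⁻ x, f x := by
  have hS : MeasurableSet {p : (Fin d → ℝ) × (Fin d → ℝ) | p.2 - p.1 ∈ D} :=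
    (measurable_snd.sub measurable_fst) hD
  have hjm : Measurable (Set.indicator {p : (Fin d → ℝ) × (Fin d → ℝ) | p.2 - p.1 ∈ D}
      (fun p => f p.2)) := (hf.comp measurable_snd).indicator hS
  have h1 : ∀ y, ∫⁻ x in {x | x - y ∈ D}, f x = ∫⁻ x,
      Set.indicator {p : (Fin d → ℝ) × (Fin d → ℝ) | p.2 - p.1 ∈ D} (fun p => f p.2) (y, x) := by
    intro y
    have hm : MeasurableSet {x : Fin d → ℝ | x - y ∈ D} := (measurable_id.sub_const y) hD
    rw [← lintegral_indicator hm]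
    refine lintegral_congr fun x => ?_
    simp only [Set.indicator, Set.mem_ofPred_eq]
  constructor
  · rw [show (fun y => ∫⁻ x in {x | x - y ∈ D}, f x) = _ from funext h1]
    exact Measurable.lintegral_prod_right' hjm
  simp only [h1]
  rw [lintegral_lintegral_swap (f := fun y x => Set.indicator
    {p : (Fin d → ℝ) × (Fin d → ℝ) | p.2 - p.1 ∈ D} (fun p => f p.2) (y, x)) hjm.aemeasurable,
    ← lintegral_const_mul _ hf]
  refine lintegral_congr fun x => ?_
  have e : ∀ y, Set.indicator {p : (Fin d → ℝ) × (Fin d → ℝ) | p.2 - p.1 ∈ D}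
      (fun p => f p.2) (y, x) = Set.indicator {y | x - y ∈ D} (fun _ => f x) y := by
    intro y
    simp only [Set.indicator, Set.mem_ofPred_eq]
  simp only [e]
  have hm : MeasurableSet {y : Fin d → ℝ | x - y ∈ D} := (measurable_id.const_sub x) hD
  rw [lintegral_indicator hm, setLIntegral_const]
  have hv : volume {y : Fin d → ℝ | x - y ∈ D} = volume D :=
    (Measure.measurePreserving_sub_left volume x).measure_preimage hD.nullMeasurableSet
  rw [hv, mul_comm]

theorem win_vol {D : Set (Fin d → ℝ)} (hD : MeasurableSet D) (y : Fin d → ℝ) :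
    volume {x | x - y ∈ D} = volume D :=
  (measurePreserving_sub_right volume y).measure_preimage hD.nullMeasurableSet

theorem shift_meas {A : Set (Set (Fin d → ℝ))}
    (hA : ∀ n : ℕ, MeasurableSet {a : Fin n → Fin d → ℝ | Set.range a ∈ A}) (y : Fin d → ℝ)
    (n : ℕ) : MeasurableSet {a : Fin n → Fin d → ℝ | Set.range a ∈
      {S : Set (Fin d → ℝ) | {u | u + y ∈ S} ∈ A}} := by
  have h1 : {a : Fin n → Fin d → ℝ | Set.range a ∈
      {S : Set (Fin d → ℝ) | {u | u + y ∈ S} ∈ A}} =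
      (fun (a : Fin n → Fin d → ℝ) (i : Fin n) => a i - y) ⁻¹' {a | Set.range a ∈ A} := by
    ext a
    simp only [Set.mem_preimage, Set.mem_ofPred_eq]
    have : {u | u + y ∈ Set.range a} = Set.range (fun i : Fin n => a i - y) := by
      ext u
      simp only [Set.mem_ofPred_eq, Set.mem_range]
      exact ⟨fun ⟨i, hi⟩ => ⟨i, by rw [hi, add_sub_cancel_right]⟩,
        fun ⟨i, hi⟩ => ⟨i, by rw [← hi, sub_add_cancel]⟩⟩
    rw [this]
  rw [h1]
  refine MeasurableSet.preimage (hA n) ?_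
  refine measurable_pi_lambda _ fun i => ?_
  exact (measurable_pi_apply (X := fun _ : Fin n => Fin d → ℝ) i).sub_const y

/-- translation invariance of the Poisson process -/
theorem pP_shift {ρ : ℝ} {D : Set (Fin d → ℝ)} (hD : MeasurableSet D) (y : Fin d → ℝ)
    (A : Set (Set (Fin d → ℝ))) :
    pP d ρ {x | x - y ∈ D} {S | {u | u + y ∈ S} ∈ A} = pP d ρ D A := by
  unfold pP
  rw [win_vol hD y]
  congr 1
  unfold Pz
  refine tsum_congr fun n => ?_
  congr 1
  have hmp := measurePreserving_add_right (Measure.pi fun _ : Fin n => (volume : Measure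
    (Fin d → ℝ))) (fun _ => y)
  have h1 := hmp.setLIntegral_comp_preimage_emb (measurableEmbedding_addRight _)
    (fun a => ({S : Set (Fin d → ℝ) | {u | u + y ∈ S} ∈ A}).indicator
      (1 : Set (Fin d → ℝ) → ℝ≥0∞) (Set.range a)) (Set.univ.pi fun _ : Fin n => {x | x - y ∈ D})
  have h2 : (fun a : Fin n → Fin d → ℝ => a + fun _ => y) ⁻¹'
      (Set.univ.pi fun _ : Fin n => {x | x - y ∈ D}) = Set.univ.pi fun _ : Fin n => D := by
    ext a
    simp only [Set.mem_preimage, Set.mem_univ_pi, Set.mem_ofPred_eq, Pi.add_apply,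
      add_sub_cancel_right]
  rw [h2] at h1
  rw [← h1]
  refine lintegral_congr fun a => ?_
  have h3 : {u | u + y ∈ Set.range (a + fun _ => y)} = Set.range a := by
    ext u
    simp only [Set.mem_ofPred_eq, Set.mem_range, Pi.add_apply]
    exact ⟨fun ⟨i, hi⟩ => ⟨i, add_right_cancel hi⟩, fun ⟨i, hi⟩ => ⟨i, by rw [hi]⟩⟩
  dsimp only
  by_cases h4 : Set.range a ∈ A
  · rw [Set.indicator_of_mem h4, Set.indicator_of_mem (by rw [Set.mem_ofPred_eq, h3]; exact h4)]
    rfl
  · rw [Set.indicator_of_notMem h4,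
      Set.indicator_of_notMem (by rw [Set.mem_ofPred_eq, h3]; exact h4)]

end Pool.Agent.U279.PG
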